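import Mathlib
import Pool.Agent.Lib.MP_f02ea4_nt.Mg.G007

/-! Good components of an odd perfect number: the core argument, from the bound for a pair of
components with the same exponent of `p`. -/

set_option autoImplicit false

namespace Pool.Agent.Lib.MP_f02ea4_nt.BK

open Finset Real Filter
open Pool.Agent.Lib.MP_f02ea4_nt.LP
open Pool.Agent.Lib.MP_f02ea4_nt.IP

/-- the bound for a pair of components -/
def PairBound (n C : ℕ) : Prop :=
    ∀ (r r' L L' c c' Z : ℕ) (E H Y : ℝ), r.Prime → r'.Prime → r ≠ r' → 2 ≤ Z → 1 ≤ c → 1 ≤ c' →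
      r ^ L = c * Z + 1 → r' ^ L' = c' * Z + 1 → 1 ≤ E → log (r : ℝ) ≤ E → log (r' : ℝ) ≤ E →
      1 ≤ H → log (c : ℝ) ≤ H → log (c' : ℝ) ≤ H → 1 ≤ Y → log (log (Z : ℝ) + H + E) ≤ Y →
      log (Z : ℝ) ≤ C * Y ^ C * E ^ ((3 : ℝ) + 1 / n) * H

theorem exists_D0 {ε : ℝ} (hε : 0 < ε) {M : ℝ} (hM : 0 ≤ M) (m : ℕ) :
    ∃ D0 : ℝ, 4 ≤ D0 ∧ ∀ D : ℝ, D0 ≤ D → M * log D ^ m ≤ D ^ ε := by
  have h1 := isLittleO_log_rpow_rpow_atTop (s := ε) (m : ℝ) hε
  have h2 := h1.def (c := 1 / (M + 1)) (by positivity)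
  rw [eventually_atTop] at h2
  obtain ⟨D1, hD1⟩ := h2
  refine ⟨max 4 D1, le_max_left _ _, ?_⟩
  intro D hD
  have hD4 : 4 ≤ D := (le_max_left _ _).trans hD
  have h3 := hD1 D ((le_max_right _ _).trans hD)
  have hl : 0 ≤ log D := log_nonneg (by linarith)
  rw [rpow_natCast, norm_of_nonneg (by positivity), norm_of_nonneg (by positivity)] at h3
  have h4 : (M + 1) * (log D ^ m) ≤ (M + 1) * (1 / (M + 1) * D ^ ε) :=
    mul_le_mul_of_nonneg_left h3 (by linarith)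
  have h5 : (M + 1) * (1 / (M + 1) * D ^ ε) = D ^ ε := by
    field_simp
  rw [h5] at h4
  have h6 : 0 ≤ log D ^ m := by positivity
  nlinarith

/-- the polynomial facts about `J = D ^ (4 / 7 - ε)`, `u = D ^ ε` -/
theorem powers {D J u : ℝ} (hD : 4 ≤ D) (hJ : 1 ≤ J) (hu : 1 ≤ u) (h : J ^ 7 * u ^ 7 = D ^ 4) :
    u * J ≤ D ∧ u * J ^ 2 ≤ D ^ 2 ∧ u * J ^ 3 ≤ D ^ 2 := by
  have hJ7 : J ^ 7 ≤ D ^ 4 := by
    rw [← h]
    exact le_mul_of_one_le_right (by positivity) (one_le_pow₀ hu)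
  have hD1 : 1 ≤ D := by linarith
  refine ⟨?_, ?_, ?_⟩
  · refine le_of_pow_le_pow_left₀ (n := 7) (by norm_num) (by positivity) ?_
    calc (u * J) ^ 7 = J ^ 7 * u ^ 7 := by ring
      _ = D ^ 4 := h
      _ ≤ D ^ 7 := pow_le_pow_right₀ hD1 (by norm_num)
  · refine le_of_pow_le_pow_left₀ (n := 7) (by norm_num) (by positivity) ?_
    calc (u * J ^ 2) ^ 7 = (J ^ 7 * u ^ 7) * J ^ 7 := by ring
      _ = D ^ 4 * J ^ 7 := by rw [h]
      _ ≤ D ^ 4 * D ^ 4 := mul_le_mul_of_nonneg_left hJ7 (by positivity)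
      _ = D ^ 8 := by ring
      _ ≤ D ^ 14 := pow_le_pow_right₀ hD1 (by norm_num)
      _ = (D ^ 2) ^ 7 := by ring
  · refine le_of_pow_le_pow_left₀ (n := 7) (by norm_num) (by positivity) ?_
    calc (u * J ^ 3) ^ 7 = (J ^ 7 * u ^ 7) * (J ^ 7 * J ^ 7) := by ring
      _ = D ^ 4 * (J ^ 7 * J ^ 7) := by rw [h]
      _ ≤ D ^ 4 * (D ^ 4 * D ^ 4) := mul_le_mul_of_nonneg_left
          (mul_le_mul hJ7 hJ7 (by positivity) (by positivity)) (by positivity)
      _ = D ^ 12 := by ring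
      _ ≤ D ^ 14 := pow_le_pow_right₀ hD1 (by norm_num)
      _ = (D ^ 2) ^ 7 := by ring

/-- `x ^ (3 + 1 / n) ≤ x ^ 3 u` -/
theorem rpow_split {D x ε : ℝ} {n : ℕ} (hn : 1 ≤ n) (hnε : 1 / (n : ℝ) ≤ ε) (hD : 1 ≤ D)
    (hx : 0 < x) (hxD : x ≤ D) : x ^ ((3 : ℝ) + 1 / n) ≤ x ^ 3 * D ^ ε := by
  have hn0 : (0 : ℝ) < n := by exact_mod_cast hn
  rw [rpow_add hx]
  have h1 : x ^ (3 : ℝ) = x ^ 3 := by
    rw [show (3 : ℝ) = ((3 : ℕ) : ℝ) by norm_num, rpow_natCast]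
  rw [h1]
  apply mul_le_mul_of_nonneg_left _ (by positivity)
  calc x ^ (1 / (n : ℝ)) ≤ D ^ (1 / (n : ℝ)) := rpow_le_rpow hx.le hxD (by positivity)
    _ ≤ D ^ ε := rpow_le_rpow_of_exponent_le hD hnε

/-- the case of large `D` -/
theorem core_large {n C : ℕ} (hn : 1 ≤ n) (hC : 1 ≤ C) (hPB : PairBound n C) {K ε : ℝ}
    (hK : 1 ≤ K) (hnε : 1 / (n : ℝ) ≤ ε) {p : ℕ} {S : Finset ℕ} {a s κ : ℕ → ℕ} {D I : ℝ}
    (hp : p.Prime) (hp2 : p ≠ 2) (F : Fam1 p S a s κ) (hD4 : 4 ≤ D) (hI1 : 1 ≤ I)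
    (hw : ∀ r ∈ S, (κ r : ℝ) * log p ≤ K * I) (hs : ∑ r ∈ S, log (s r : ℝ) ≤ I)
    (hP : D ≤ K * log p * I) (hsum : D ≤ K * ∑ r ∈ S, (κ r : ℝ) * log p)
    {J : ℝ} (hIJ : I ≤ J) (hJ7 : J ^ 7 * (D ^ ε) ^ 7 = D ^ 4) (hu1 : 1 ≤ D ^ ε)
    (hM : 32 * C * 2 ^ C * (44 * K) ^ 4 * K ^ 8 * log D ^ (C + 4) ≤ D ^ ε) : False := by
  classical
  have hK0 : 0 < K := by linarith
  have hJ1 : 1 ≤ J := hI1.trans hIJ
  set u : ℝ := D ^ ε with hu
  obtain ⟨hp1, hp2', hp3⟩ := powers hD4 hJ1 hu1 hJ7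
  have hD0 : 0 < D := by linarith
  have hD1 : 1 ≤ D := by linarith
  set ℓ : ℝ := log D with hℓ
  have hℓ1 : 1 ≤ ℓ := by
    rw [hℓ, le_log_iff_exp_le hD0]
    have h4 : exp 1 < 2.7182818286 := exp_one_lt_d9
    linarith
  have hCr : (1 : ℝ) ≤ C := by exact_mod_cast hC
  have h2C : (1 : ℝ) ≤ 2 ^ C := one_le_pow₀ (by norm_num)
  set A : ℝ := 44 * K with hA
  have hA1 : 1 ≤ A := by rw [hA]; linarith
  have hA0 : 0 < A := by linarith
  have hP1 : 1 ≤ log (p : ℝ) := by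
    have h1 : (3 : ℝ) ≤ p := by
      have h2 : 3 ≤ p := by have := hp.two_le; omega
      exact_mod_cast h2
    rw [le_log_iff_exp_le (by linarith)]
    have h4 : exp 1 < 2.7182818286 := exp_one_lt_d9
    linarith
  -- consequences of `hM`
  have hℓp : ∀ j : ℕ, j ≤ C + 4 → ℓ ^ j ≤ ℓ ^ (C + 4) := fun j hj => pow_le_pow_right₀ hℓ1 hj
  have hK8 : ∀ j : ℕ, j ≤ 8 → K ^ j ≤ K ^ 8 := fun j hj => pow_le_pow_right₀ hK hj
  have hA4 : ∀ j : ℕ, j ≤ 4 → A ^ j ≤ A ^ 4 := fun j hj => pow_le_pow_right₀ hA1 hj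
  have hMgen : ∀ i j k : ℕ, i ≤ 4 → j ≤ 8 → k ≤ C + 4 →
      32 * C * 2 ^ C * A ^ i * K ^ j * ℓ ^ k ≤ u := by
    intro i j k hi hj hk
    refine le_trans ?_ hM
    gcongr
  have hone : (32 : ℝ) ≤ 32 * C * 2 ^ C := by nlinarith
  have hM1 : ∀ i j k : ℕ, i ≤ 4 → j ≤ 8 → k ≤ C + 4 → 32 * (A ^ i * K ^ j * ℓ ^ k) ≤ u := by
    intro i j k hi hj hk
    refine le_trans ?_ (hMgen i j k hi hj hk)
    have h1 : 0 ≤ A ^ i * K ^ j * ℓ ^ k := by positivity
    calc 32 * (A ^ i * K ^ j * ℓ ^ k) ≤ (32 * C * 2 ^ C) * (A ^ i * K ^ j * ℓ ^ k) :=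
          mul_le_mul_of_nonneg_right hone h1
      _ = _ := by ring
  -- sizes of `w`
  have hKI : K * I ≤ K * J := mul_le_mul_of_nonneg_left hIJ hK0.le
  have hKJD : 33 / 20 * (K * J) ≤ D := by
    have h1 := hM1 0 1 0 (by norm_num) (by norm_num) (by omega)
    simp only [pow_zero, pow_one, one_mul, mul_one] at h1
    calc 33 / 20 * (K * J) ≤ u * J := by nlinarith
      _ ≤ D := hp1
  set x : ℝ → ℝ := fun w => A * w ^ 2 * ℓ / D with hx
  have hxmono : ∀ w w' : ℝ, 0 ≤ w → w ≤ w' → x w ≤ x w' := by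
    intro w w' h0 h1
    simp only [hx]
    gcongr
  have hxD : ∀ w : ℝ, 0 ≤ w → w ≤ K * J → x w ≤ D := by
    intro w h0 h1
    refine (hxmono w _ h0 h1).trans ?_
    simp only [hx]
    rw [div_le_iff₀ hD0]
    have h2 := hM1 1 2 1 (by norm_num) (by norm_num) (by omega)
    rw [pow_one, pow_one] at h2
    have h3 : 0 ≤ A * K ^ 2 * ℓ := by positivity
    calc A * (K * J) ^ 2 * ℓ = (A * K ^ 2 * ℓ) * J ^ 2 := by ring
      _ ≤ u * J ^ 2 := mul_le_mul_of_nonneg_right (by linarith) (by positivity)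
      _ ≤ D ^ 2 := hp2'
      _ = D * D := by ring
  set G : ℝ → ℝ := fun w => C * (2 * ℓ) ^ C * x w ^ ((3 : ℝ) + 1 / n) with hG
  have hn0 : (0 : ℝ) < n := by exact_mod_cast hn
  have hGmono : ∀ w w' : ℝ, 0 ≤ w → w ≤ w' → G w ≤ G w' := by
    intro w w' h0 h1
    simp only [hG]
    apply mul_le_mul_of_nonneg_left _ (by positivity)
    apply rpow_le_rpow _ (hxmono w w' h0 h1) (by positivity)
    simp only [hx]
    positivity
  have hxpos : ∀ w : ℝ, 0 < w → 0 < x w := by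
    intro w h0
    simp only [hx]
    positivity
  have hGle : ∀ w : ℝ, 0 < w → w ≤ K * J → G w ≤ C * (2 * ℓ) ^ C * (x w ^ 3 * u) := by
    intro w h0 h1
    simp only [hG]
    apply mul_le_mul_of_nonneg_left _ (by positivity)
    exact rpow_split hn hnε hD1 (hxpos w h0) (hxD w h0.le h1)
  have hu7 : u * u ≤ u ^ 7 := by
    calc u * u = u ^ 2 := by ring
      _ ≤ u ^ 7 := pow_le_pow_right₀ hu1 (by norm_num)
  have hu0 : 0 < u := by linarith
  -- c1
  have c1 : ∀ w : ℝ, 0 < w → w ≤ K * J → 2 * G w * x w < w := by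
    intro w h0 h1
    have h2 := hGle w h0 h1
    have hx0 := hxpos w h0
    have h3 : 2 * G w * x w ≤ 2 * (C * (2 * ℓ) ^ C * (x w ^ 3 * u)) * x w := by
      gcongr
    refine lt_of_le_of_lt h3 ?_
    have h4 : 2 * (C * (2 * ℓ) ^ C * (x w ^ 3 * u)) * x w =
        (2 * C * 2 ^ C * A ^ 4 * ℓ ^ (C + 4)) * u * w ^ 8 / D ^ 4 := by
      simp only [hx]
      field_simp
      ring
    rw [h4, div_lt_iff₀ (by positivity), ← hJ7]
    have h5 : w ^ 7 ≤ K ^ 7 * J ^ 7 := by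
      rw [← mul_pow]
      exact pow_le_pow_left₀ h0.le h1 7
    have h6 := hMgen 4 7 (C + 4) (by norm_num) (by norm_num) le_rfl
    calc (2 * C * 2 ^ C * A ^ 4 * ℓ ^ (C + 4)) * u * w ^ 8
        = (2 * C * 2 ^ C * A ^ 4 * ℓ ^ (C + 4)) * u * w * w ^ 7 := by ring
      _ ≤ (2 * C * 2 ^ C * A ^ 4 * ℓ ^ (C + 4)) * u * w * (K ^ 7 * J ^ 7) :=
          mul_le_mul_of_nonneg_left h5 (by positivity)
      _ = (1 / 16) * (32 * C * 2 ^ C * A ^ 4 * K ^ 7 * ℓ ^ (C + 4)) * (u * w * J ^ 7) := by ring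
      _ ≤ (1 / 16) * u * (u * w * J ^ 7) := by
          apply mul_le_mul_of_nonneg_right _ (by positivity)
          apply mul_le_mul_of_nonneg_left h6 (by norm_num)
      _ = (1 / 16) * (w * J ^ 7 * (u * u)) := by ring
      _ ≤ (1 / 16) * (w * J ^ 7 * u ^ 7) := by
          apply mul_le_mul_of_nonneg_left _ (by norm_num)
          apply mul_le_mul_of_nonneg_left hu7 (by positivity)
      _ < w * (J ^ 7 * u ^ 7) := by
          have : 0 < w * J ^ 7 * u ^ 7 := by positivity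
          linarith
  -- the three classes
  have hκ1 : ∀ r ∈ S, (1 : ℝ) ≤ κ r := fun r hr => by exact_mod_cast kappa_one F hr
  have hw0 : ∀ r ∈ S, 0 < (κ r : ℝ) * log p := fun r hr => by
    have := hκ1 r hr
    positivity
  have hwJ : ∀ r ∈ S, (κ r : ℝ) * log p ≤ K * J := fun r hr => (hw r hr).trans hKI
  set SA := S.filter (fun r => x (κ r * log p) < log r) with hSA
  set S' := S.filter (fun r => ¬ x (κ r * log p) < log r) with hS'
  set SB := S'.filter (fun r => log (s r : ℝ) < κ r * log p / (2 * G (κ r * log p))) with hSB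
  set SC := S'.filter (fun r => ¬ log (s r : ℝ) < κ r * log p / (2 * G (κ r * log p))) with hSC
  have hSAS : SA ⊆ S := Finset.filter_subset _ _
  have hS'S : S' ⊆ S := Finset.filter_subset _ _
  have hSBS : SB ⊆ S := (Finset.filter_subset _ _).trans hS'S
  have hSCS : SC ⊆ S := (Finset.filter_subset _ _).trans hS'S
  have hsplit : ∑ r ∈ S, (κ r : ℝ) * log p = ∑ r ∈ SA, (κ r : ℝ) * log p +
      (∑ r ∈ SB, (κ r : ℝ) * log p + ∑ r ∈ SC, (κ r : ℝ) * log p) := by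
    rw [hSB, hSC, Finset.sum_filter_add_sum_filter_not, hSA, hS',
      Finset.sum_filter_add_sum_filter_not]
  -- (A)
  have hAsum : ∑ r ∈ SA, (κ r : ℝ) * log p ≤ D / (4 * K) := by
    have h1 := sum_large hp hp2 (F.mono hSAS) (A := A) (D := D) hA0 (by linarith)
      (fun r hr => by
        have h2 := hwJ r (hSAS hr)
        linarith)
      (fun r hr => (Finset.mem_filter.1 hr).2)
    refine h1.trans (le_of_eq ?_)
    rw [hA]
    field_simp
    norm_num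
  -- facts for `S'`
  have hS'x : ∀ r ∈ S', log (r : ℝ) ≤ x (κ r * log p) ∧ 1 ≤ x (κ r * log p) := by
    intro r hr
    have h1 := (Finset.mem_filter.1 hr).2
    rw [not_lt] at h1
    exact ⟨h1, (one_le_log F (hS'S hr)).trans h1⟩
  have hG1 : ∀ r ∈ S', 1 ≤ G (κ r * log p) := by
    intro r hr
    have h1 := (hS'x r hr).2
    have h2 : 1 ≤ x (κ r * log p) ^ ((3 : ℝ) + 1 / n) := one_le_rpow h1 (by positivity)
    have h3 : 1 ≤ (2 * ℓ) ^ C := one_le_pow₀ (by linarith)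
    simp only [hG]
    calc (1 : ℝ) = 1 * 1 * 1 := by ring
      _ ≤ _ := by gcongr
  -- (B)
  have hinj : Set.InjOn κ SB := by
    intro r hr r' hr' hκκ
    rw [Finset.mem_coe] at hr hr'
    by_contra hne
    obtain ⟨hrS', hrc⟩ := Finset.mem_filter.1 hr
    obtain ⟨hrS'', hrc'⟩ := Finset.mem_filter.1 hr'
    have hrS := hS'S hrS'
    have hr'S := hS'S hrS''
    have hx1 := hS'x r hrS'
    have hx1' := hS'x r' hrS''
    have hGr := hG1 r hrS'
    rw [← hκκ] at hrc' hx1'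
    set w : ℝ := κ r * log p with hwdef
    have hwpos : 0 < w := hw0 r hrS
    have hwJr : w ≤ K * J := hwJ r hrS
    have hc := c1 w hwpos hwJr
    have hlogc : ∀ q : ℕ, 3 ≤ q → ∀ t : ℕ, 1 ≤ t → log (q : ℝ) ≤ x w → log (t : ℝ) < w / (2 * G w) →
        log (((q - 1) * t : ℕ) : ℝ) ≤ x w + w / (2 * G w) := by
      intro q hq t ht h1 h2
      have hq0 : (0 : ℝ) < q := by exact_mod_cast (by omega : 0 < q)
      have ht0 : (0 : ℝ) < t := by exact_mod_cast ht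
      have h3 : (((q - 1) * t : ℕ) : ℝ) ≤ q * t := by
        have h4 : (q - 1) * t ≤ q * t := Nat.mul_le_mul_right _ (by omega)
        exact_mod_cast h4
      have h5 : (0 : ℝ) < (((q - 1) * t : ℕ) : ℝ) := by
        have h6 : 0 < (q - 1) * t := Nat.mul_pos (by omega) ht
        exact_mod_cast h6
      have h7 := log_le_log h5 h3
      rw [log_mul hq0.ne' ht0.ne'] at h7
      linarith
    have hr3 := three_le F hrS
    have hr3' := three_le F hr'S
    have hsr := F.c1 r hrS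
    have hsr' := F.c1 r' hr'S
    have hZ2 : 2 ≤ p ^ κ r := by
      have h1 := kappa_one F hrS
      calc 2 ≤ p := hp.two_le
        _ = p ^ 1 := (pow_one p).symm
        _ ≤ p ^ κ r := Nat.pow_le_pow_right hp.pos h1
    have hlogZ : log ((p ^ κ r : ℕ) : ℝ) = w := by
      push_cast
      rw [log_pow]
    have hwG : w / (2 * G w) ≤ w := by
      apply div_le_self hwpos.le
      linarith
    have hwG0 : 0 ≤ w / (2 * G w) := by positivity
    have hxDw := hxD w hwpos.le hwJr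
    have hwD : w ≤ D := by
      have : 0 ≤ K * J := by positivity
      linarith
    have key := hPB r r' (a r + 1) (a r' + 1) ((r - 1) * s r) ((r' - 1) * s r') (p ^ κ r)
      (x w) (x w + w / (2 * G w)) (2 * ℓ) (F.prime r hrS) (F.prime r' hr'S) hne hZ2
      (Nat.mul_pos (by omega) hsr) (Nat.mul_pos (by omega) hsr')
      (by rw [← F.sig r hrS]; ring)
      (by rw [← F.sig r' hr'S, ← hκκ]; ring)
      hx1.2 hx1.1 hx1'.1 (by linarith [hx1.2])
      (hlogc r hr3 (s r) hsr hx1.1 hrc) (hlogc r' hr3' (s r') hsr' hx1'.1 hrc')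
      (by linarith)
      (by
        rw [hlogZ]
        have h1 : w + (x w + w / (2 * G w)) + x w ≤ D ^ 2 := by
          have e1 : w + (x w + w / (2 * G w)) + x w ≤ D + (D + D) + D :=
            add_le_add (add_le_add hwD (add_le_add hxDw (hwG.trans hwD))) hxDw
          have e2 : D + (D + D) + D = 4 * D := by ring
          have e3 : 4 * D ≤ D * D := mul_le_mul_of_nonneg_right hD4 hD0.le
          rw [e2] at e1
          rw [pow_two]
          exact e1.trans e3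
        have h2 : 0 < w + (x w + w / (2 * G w)) + x w := by linarith [hx1.2]
        have h3 := log_le_log h2 h1
        rw [log_pow] at h3
        push_cast at h3
        exact h3)
    rw [hlogZ] at key
    have h8 : C * (2 * ℓ) ^ C * x w ^ ((3 : ℝ) + 1 / n) * (x w + w / (2 * G w)) =
        G w * x w + w / 2 := by
      have h9 : C * (2 * ℓ) ^ C * x w ^ ((3 : ℝ) + 1 / n) = G w := rfl
      rw [h9, mul_add]
      have h10 : G w ≠ 0 := by linarith
      field_simp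
    rw [h8] at key
    linarith
  have hBsum : ∑ r ∈ SB, (κ r : ℝ) * log p ≤ D / (4 * K) := by
    have h1 := sum_inj hp (F.mono hSBS) (X := K * I) (by positivity)
      (fun r hr => hw r (hSBS hr)) hinj
    refine h1.trans ?_
    rw [div_le_div_iff₀ (by linarith) (by positivity)]
    have h2 := hM1 0 4 0 (by norm_num) (by norm_num) (by omega)
    simp only [pow_zero, one_mul, mul_one] at h2
    have hI3 : I ^ 3 ≤ J ^ 3 := pow_le_pow_left₀ (by linarith) hIJ 3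
    have h3 : (K * I) ^ 2 * (4 * K) * (K * I) ≤ D * D := by
      calc (K * I) ^ 2 * (4 * K) * (K * I) = 4 * K ^ 4 * I ^ 3 := by ring
        _ ≤ 4 * K ^ 4 * J ^ 3 := mul_le_mul_of_nonneg_left hI3 (by positivity)
        _ ≤ u * J ^ 3 := by
            apply mul_le_mul_of_nonneg_right _ (by positivity)
            have : 0 ≤ K ^ 4 := by positivity
            linarith
        _ ≤ D ^ 2 := hp3
        _ = D * D := by ring
    have h4 : D * D ≤ D * (K * log p * I) := mul_le_mul_of_nonneg_left hP hD0.le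
    have hKI0 : 0 < K * I := by positivity
    have h5 : ((K * I) ^ 2 * (4 * K)) * (K * I) ≤ (D * log p) * (K * I) := by
      calc _ ≤ D * D := h3
        _ ≤ D * (K * log p * I) := h4
        _ = _ := by ring
    exact le_of_mul_le_mul_right h5 hKI0
  -- (C)
  have hCsum : ∑ r ∈ SC, (κ r : ℝ) * log p ≤ D / (4 * K) := by
    have h1 : ∀ r ∈ SC, (κ r : ℝ) * log p ≤ 2 * G (K * I) * log (s r : ℝ) := by
      intro r hr
      obtain ⟨hrS', hrc⟩ := Finset.mem_filter.1 hr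
      rw [not_lt] at hrc
      have hGr := hG1 r hrS'
      rw [div_le_iff₀ (by linarith)] at hrc
      have h2 := hGmono _ _ (hw0 r (hS'S hrS')).le (hw r (hS'S hrS'))
      have h3 := log_s_nonneg F (hS'S hrS')
      calc (κ r : ℝ) * log p ≤ log (s r : ℝ) * (2 * G (κ r * log p)) := hrc
        _ ≤ log (s r : ℝ) * (2 * G (K * I)) := by gcongr
        _ = _ := by ring
    have h2 : ∑ r ∈ SC, (κ r : ℝ) * log p ≤ 2 * G (K * I) * I := by
      refine (Finset.sum_le_sum h1).trans ?_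
      rw [← Finset.mul_sum]
      have h3 : ∑ r ∈ SC, log (s r : ℝ) ≤ ∑ r ∈ S, log (s r : ℝ) :=
        Finset.sum_le_sum_of_subset_of_nonneg hSCS (fun r hr _ => log_s_nonneg F hr)
      apply mul_le_mul_of_nonneg_left (h3.trans hs)
      have h4 : 0 ≤ G (K * I) := by
        simp only [hG, hx]
        positivity
      linarith
    refine h2.trans ?_
    have hKI0 : 0 < K * I := by positivity
    have h3 := hGle (K * I) hKI0 hKI
    have h4 : 2 * G (K * I) * I ≤ 2 * (C * (2 * ℓ) ^ C * (x (K * I) ^ 3 * u)) * I := by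
      gcongr
    refine h4.trans ?_
    have h5 : 2 * (C * (2 * ℓ) ^ C * (x (K * I) ^ 3 * u)) * I =
        (2 * C * 2 ^ C * A ^ 3 * K ^ 6 * ℓ ^ (C + 3)) * u * I ^ 7 / D ^ 3 := by
      simp only [hx]
      field_simp
      ring
    rw [h5, div_le_div_iff₀ (by positivity) (by positivity)]
    have hI7 : I ^ 7 ≤ J ^ 7 := pow_le_pow_left₀ (by linarith) hIJ 7
    have h6 := hMgen 3 7 (C + 3) (by norm_num) (by norm_num) (by omega)
    calc (2 * C * 2 ^ C * A ^ 3 * K ^ 6 * ℓ ^ (C + 3)) * u * I ^ 7 * (4 * K)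
        = (1 / 4) * (32 * C * 2 ^ C * A ^ 3 * K ^ 7 * ℓ ^ (C + 3)) * (u * I ^ 7) := by ring
      _ ≤ (1 / 4) * u * (u * J ^ 7) := by gcongr
      _ = (1 / 4) * (J ^ 7 * (u * u)) := by ring
      _ ≤ (1 / 4) * (J ^ 7 * u ^ 7) := by gcongr
      _ = (1 / 4) * D ^ 4 := by rw [hJ7]
      _ ≤ D * D ^ 3 := by
          have : D * D ^ 3 = D ^ 4 := by ring
          rw [this]
          have : 0 ≤ D ^ 4 := by positivity
          linarith
  have hfin : ∑ r ∈ S, (κ r : ℝ) * log p ≤ 3 * (D / (4 * K)) := by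
    rw [hsplit]
    linarith
  have h9 : D ≤ K * (3 * (D / (4 * K))) := hsum.trans (mul_le_mul_of_nonneg_left hfin hK0.le)
  have h10 : K * (3 * (D / (4 * K))) = 3 / 4 * D := by field_simp
  rw [h10] at h9
  linarith

/-- the core statement -/
theorem core_of_pair (hPB : ∀ n : ℕ, 1 ≤ n → ∃ C : ℕ, 1 ≤ C ∧ PairBound n C) (K : ℝ) (hK : 1 ≤ K)
    (ε : ℝ) (hε : 0 < ε) : ∃ c : ℝ, 0 < c ∧
    ∀ (p : ℕ) (S : Finset ℕ) (a s κ : ℕ → ℕ) (D I : ℝ), p.Prime → p ≠ 2 → Fam1 p S a s κ →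
      1 ≤ D → 1 ≤ I → (∀ r ∈ S, (κ r : ℝ) * log p ≤ K * I) → ∑ r ∈ S, log (s r : ℝ) ≤ I →
      D ≤ K * log p * I → D ≤ K * ∑ r ∈ S, (κ r : ℝ) * log p →
      c * D ^ ((4 : ℝ) / 7 - ε) ≤ I := by
  -- a natural number `n` with `1 / n ≤ ε`
  obtain ⟨n, hn⟩ := exists_nat_gt (1 / ε)
  have hn0 : (0 : ℝ) < n := lt_trans (by positivity) hn
  have hn1 : 1 ≤ n := by exact_mod_cast hn0
  have hnε : 1 / (n : ℝ) ≤ ε := by
    rw [div_lt_iff₀ hε] at hn
    rw [div_le_iff₀ hn0]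
    linarith
  obtain ⟨C, hC, hpb⟩ := hPB n hn1
  obtain ⟨D0, hD04, hD0⟩ := exists_D0 hε (M := 32 * C * 2 ^ C * (44 * K) ^ 4 * K ^ 8)
    (by positivity) (C + 4)
  set τ : ℝ := 4 / 7 - ε with hτ
  have hD00 : 0 < D0 := by linarith
  refine ⟨min 1 (D0 ^ (-|τ|)), lt_min one_pos (by positivity), ?_⟩
  intro p S a s κ D I hp hp2 F hD1 hI1 hw hs hP hsum
  have hDpos : 0 < D := by linarith
  rcases lt_or_ge D D0 with hlt | hge
  · -- small `D`
    have h1 : D ^ τ ≤ D0 ^ |τ| := by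
      calc D ^ τ ≤ D ^ |τ| := rpow_le_rpow_of_exponent_le hD1 (le_abs_self τ)
        _ ≤ D0 ^ |τ| := rpow_le_rpow hDpos.le hlt.le (abs_nonneg τ)
    calc min 1 (D0 ^ (-|τ|)) * D ^ τ ≤ D0 ^ (-|τ|) * D0 ^ |τ| :=
          mul_le_mul (min_le_right _ _) h1 (by positivity) (by positivity)
      _ = 1 := by rw [← rpow_add hD00]; simp
      _ ≤ I := hI1
  · by_contra hcon
    rw [not_le] at hcon
    have hDτ : 0 < D ^ τ := by positivity
    have hIJ : I ≤ D ^ τ := by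
      have h1 : min 1 (D0 ^ (-|τ|)) * D ^ τ ≤ 1 * D ^ τ :=
        mul_le_mul_of_nonneg_right (min_le_left _ _) hDτ.le
      linarith
    refine core_large hn1 hC hpb hK hnε hp hp2 F (hD04.trans hge) hI1 hw hs hP hsum hIJ ?_ ?_
      (hD0 D hge)
    · rw [← rpow_natCast (D ^ τ) 7, ← rpow_natCast (D ^ ε) 7, ← rpow_mul hDpos.le,
        ← rpow_mul hDpos.le, ← rpow_add hDpos, ← rpow_natCast D 4]
      congr 1
      rw [hτ]
      push_cast
      ring
    · exact one_le_rpow hD1 hε.le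

end Pool.Agent.Lib.MP_f02ea4_nt.BK
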