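import Pool.Agent.Lib.MP_f02ea4_nt.IdxLocal
import Pool.Agent.Lib.MP_f02ea4_nt.IdxStruct
import Pool.Agent.Lib.MP_f02ea4_nt.BK.Core

/-! The index of an odd perfect number at a prime power component: the family of the good
components with a small weight. -/

set_option autoImplicit false

namespace Pool.Agent.Lib.MP_f02ea4_nt.BK

open Finset Real
open Pool.Agent.Lib.MP_f02ea4_nt.Idx
open Pool.Agent.Lib.MP_f02ea4_nt.LP

/-- the final real inequality -/
private lemma kfinal_ineq (k P I D Z Y T : ℝ) (hk : 280 ≤ k) (hP : 1 ≤ P) (hI : log 2 ≤ I)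
    (hD : D = (k + 1) * P) (hZ : Z = 600 * I) (hY : 0 ≤ Y)
    (hT : T ≤ 12 * sqrt (D * I) + 11 * I + I + 288 * D * I / Z + (11 / 10) * Y)
    (h : k * P ≤ log 2 + (I + 2 * log (k + 1)) + T) : k * P ≤ 5000 * I + 3 * Y := by
  have h2 : (0.6931471803 : ℝ) < log 2 := log_two_gt_d9
  have hI0 : 0 < I := by linarith
  have hD0 : 0 < D := by rw [hD]; positivity
  have hDk : D ≤ (281 / 280) * (k * P) := by rw [hD]; nlinarith
  -- the term `2 log (k + 1)`
  have hlog : 2 * log (k + 1) ≤ (47 / 1000) * (k * P) + 21 * I := by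
    rcases le_or_gt 1000 k with h1 | h1
    · have h3 := log_le_sqrt (k + 1) (by linarith)
      have h4 : sqrt (k + 1) * (316 / 10) ≤ k + 1 := by
        have h5 : sqrt (k + 1) * sqrt (k + 1) = k + 1 := mul_self_sqrt (by linarith)
        have h6 : (316 / 10 : ℝ) ≤ sqrt (k + 1) := by
          apply le_sqrt_of_sq_le
          norm_num
          linarith
        nlinarith [sqrt_nonneg (k + 1)]
      nlinarith
    · have h3 : log (k + 1) ≤ log (2 ^ (10 : ℕ)) := log_le_log (by linarith) (by norm_num; linarith)
      rw [log_pow] at h3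
      push_cast at h3
      have h4 : 0 ≤ k * P := by positivity
      linarith
  -- the odd term
  have hodd : 12 * sqrt (D * I) ≤ (2 / 100) * D + 1800 * I := by
    have h3 : sqrt (D * I) ≤ (1 / 600) * D + 150 * I := by
      rw [sqrt_le_left (by positivity)]
      nlinarith [sq_nonneg ((1 / 600) * D - 150 * I)]
    linarith
  have h288 : 288 * D * I / Z = (48 / 100) * D := by
    rw [hZ]
    field_simp
    ring
  rw [h288] at hT
  have hkP : 0 < k * P := by positivity
  linarith

/-- The family of the good components with a small weight. -/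
theorem good_family {N p k M i : ℕ} {F W f : ℕ → ℕ} (hp : p.Prime) (hk : 280 ≤ k)
    (H : Data N p k M i F W f) : ∃ S : Finset ℕ, S ⊆ M.primeFactors ∧
      Fam1 p S (fun r => M.factorization r) W F ∧ (∀ r ∈ S, (F r : ℝ) * log p ≤ 600 * log i) ∧
      ∑ r ∈ S, log (W r : ℝ) ≤ log i ∧
      (k : ℝ) * log p ≤ 5000 * log i + 3 * ∑ r ∈ S, (F r : ℝ) * log p := by
  obtain ⟨hp3, hM0, hi2, hi4, hidiv, hrprime, hr3, he1, hσr, hW1, hWp, hWdvd, hpar,
    hfval, hfdvd, hkP, hsum1, hlogW, hlogN⟩ := H
  have hir : (2 : ℝ) ≤ i := by exact_mod_cast hi2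
  have hp3r : (3 : ℝ) ≤ p := by exact_mod_cast hp3
  have hP : (1 : ℝ) ≤ log p := log_three_ge_one.trans (log_le_log (by norm_num) hp3r)
  have hI : log 2 ≤ log i := log_le_log (by norm_num) hir
  have h2 : (0.6931471803 : ℝ) < log 2 := log_two_gt_d9
  have h2b : log 2 < (0.6931471808 : ℝ) := log_two_lt_d9
  have hI0 : 0 < log (i : ℝ) := by linarith
  have hkr : (280 : ℝ) ≤ k := by exact_mod_cast hk
  set D : ℝ := ((k : ℝ) + 1) * log p with hD
  have hD0 : 0 < D := by positivity
  set Z : ℝ := 600 * log i with hZ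
  have hZ0 : 0 < Z := by positivity
  set X : ℕ := ⌊Z / log p⌋₊ with hX
  have hXP : (X : ℝ) * log p ≤ Z := by
    have : (X : ℝ) ≤ Z / log p := Nat.floor_le (by positivity)
    exact (le_div_iff₀ (by linarith)).mp this
  set S2 := M.primeFactors.filter (fun r => ¬ W r = 1) with hS2
  have hS2W : ∀ r ∈ S2, r ∈ M.primeFactors ∧ 2 ≤ W r := by
    intro r hr
    rw [hS2, mem_filter] at hr
    have := hW1 r hr.1
    exact ⟨hr.1, by omega⟩
  set a : ℕ → ℕ := fun r => M.factorization r with ha
  set C : ℕ → ℝ := fun r => log (W r) with hC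
  -- sizes
  have hlow : ∀ r ∈ M.primeFactors, (a r : ℝ) * log r ≤ F r * log p + C r := by
    intro r hr
    have h3 := hσr r hr
    have hr3' := hr3 r hr
    have hx : r ^ a r ≤ p ^ F r * W r := by
      by_contra hc
      push Not at hc
      obtain ⟨b, hb⟩ : ∃ b, r = b + 1 := ⟨r - 1, by omega⟩
      have h4 : r ^ (M.factorization r + 1) = (b + 1) * r ^ a r := by
        rw [pow_succ', ← hb]
      rw [h4, show r - 1 = b by omega] at h3
      have h5 : b * (p ^ F r * W r + 1) ≤ b * r ^ a r := Nat.mul_le_mul_left b hc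
      have h6 : (b + 1) * r ^ a r = b * r ^ a r + r ^ a r := by ring
      have h7 : b * (p ^ F r * W r + 1) = b * (p ^ F r * W r) + b := by ring
      omega
    have hx' : ((r : ℝ)) ^ a r ≤ (p : ℝ) ^ F r * W r := by exact_mod_cast hx
    have hr0 : (0 : ℝ) < r := by exact_mod_cast (by omega : 0 < r)
    have hWr : (0 : ℝ) < W r := by exact_mod_cast hW1 r hr
    have h5 := log_le_log (by positivity) hx'
    rw [log_pow, log_mul (by positivity) (by positivity), log_pow] at h5
    exact h5
  have hup : ∀ r ∈ M.primeFactors, F r * log p + C r ≤ (a r : ℝ) * log r + log (3 / 2) := by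
    intro r hr
    have h3 := hσr r hr
    have hr3' := hr3 r hr
    have hx : 2 * (p ^ F r * W r) ≤ 3 * r ^ a r := by
      obtain ⟨b, hb⟩ : ∃ b, r = b + 1 := ⟨r - 1, by omega⟩
      have hb2 : 2 ≤ b := by omega
      have h4 : r ^ (M.factorization r + 1) = (b + 1) * r ^ a r := by
        rw [pow_succ', ← hb]
      rw [h4, show r - 1 = b by omega] at h3
      by_contra hc
      push Not at hc
      have h5 : b * (3 * r ^ a r + 1) ≤ b * (2 * (p ^ F r * W r)) := Nat.mul_le_mul_left b hc
      have h6 : (b + 1) * r ^ a r = b * r ^ a r + r ^ a r := by ring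
      have h7 : b * (3 * r ^ a r + 1) = 3 * (b * r ^ a r) + b := by ring
      have h8 : b * (2 * (p ^ F r * W r)) = 2 * (b * (p ^ F r * W r)) := by ring
      have h9 : 2 * r ^ a r ≤ b * r ^ a r := Nat.mul_le_mul_right _ hb2
      omega
    have hx' : (p : ℝ) ^ F r * W r ≤ ((r : ℝ)) ^ a r * (3 / 2) := by
      have : 2 * ((p : ℝ) ^ F r * W r) ≤ 3 * (r : ℝ) ^ a r := by exact_mod_cast hx
      linarith
    have hr0 : (0 : ℝ) < r := by exact_mod_cast (by omega : 0 < r)
    have hWr : (0 : ℝ) < W r := by exact_mod_cast hW1 r hr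
    have h5 := log_le_log (by positivity) hx'
    have e1 : log ((p : ℝ) ^ F r * W r) = F r * log p + C r := by
      rw [log_mul (by positivity) hWr.ne', log_pow]
    have e2 : log (((r : ℝ)) ^ a r * (3 / 2)) = a r * log r + log (3 / 2) := by
      rw [log_mul (by positivity) (by norm_num), log_pow]
    rw [e1, e2] at h5
    exact h5
  have hloc : ∀ r ∈ S2, (f r : ℝ) * log r ≤ 12 * sqrt (D * C r) := by
    intro r hr
    obtain ⟨hrS, hW2⟩ := hS2W r hr
    have h3 := local_bound (p := p) (q := r) (c := W r) (κ := F r) (a := M.factorization r)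
      (f := f r) (d := k + 1) hp (by omega) (hrprime r hrS) (by have := hr3 r hrS; omega) hW2
      (hWp r hrS) (by rw [mul_comm (W r)]; exact hσr r hrS) (by have := hfval r hrS; omega)
      (by omega) (hfdvd r)
    push_cast at h3
    exact h3
  have hC2 : ∀ r ∈ S2, log 2 ≤ C r := by
    intro r hr
    apply log_le_log (by norm_num)
    exact_mod_cast (hS2W r hr).2
  have hCI : ∀ r ∈ S2, C r ≤ log i := by
    intro r hr
    refine le_trans ?_ hlogW
    apply Finset.single_le_sum (f := fun r => log (W r : ℝ)) _ hr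
    intro s hs
    exact (by linarith [hC2 s hs] : (0 : ℝ) ≤ C s)
  -- the pointwise bound
  set good : ℕ → Prop := fun r => Even (a r) ∧ W r ^ 10 < p ^ F r ∧ F r ≤ X with hgood
  classical
  have hpt2 : ∀ r ∈ S2, (f r : ℝ) * log r ≤
      (if Odd (a r) then 12 * sqrt (D * log i) else 0) + 11 * C r
        + (i.factorization r : ℝ) * log r + 288 * D * C r / Z
        + (if good r then (11 / 10) * (log p * F r) else 0) := by
    intro r hr
    obtain ⟨hrS, hW2⟩ := hS2W r hr
    have hr1 : (0 : ℝ) ≤ log r := log_natCast_nonneg r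
    have hc2 := hC2 r hr
    have hCi := hCI r hr
    have hCr0 : 0 < C r := by linarith
    have ht1 : 0 ≤ (i.factorization r : ℝ) * log r := by positivity
    have ht2 : 0 ≤ 288 * D * C r / Z := by positivity
    have ht3 : (0 : ℝ) ≤ (if good r then (11 / 10) * (log p * F r) else 0) := by
      split_ifs <;> positivity
    have ht4 : (0 : ℝ) ≤ (if Odd (a r) then 12 * sqrt (D * log i) else 0) := by
      split_ifs <;> positivity
    rcases Nat.even_or_odd (a r) with he | ho
    swap
    · rw [if_pos ho]
      have h3 := hloc r hr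
      have h4 : sqrt (D * C r) ≤ sqrt (D * log i) :=
        sqrt_le_sqrt (mul_le_mul_of_nonneg_left hCi hD0.le)
      linarith
    have hfa : f r ≤ a r := by
      show f r ≤ M.factorization r
      have := hfval r hrS
      omega
    have hfar : (f r : ℝ) * log r ≤ a r * log r := by
      apply mul_le_mul_of_nonneg_right _ hr1
      exact_mod_cast hfa
    have hlow' := hlow r hrS
    rcases Nat.lt_or_ge (W r ^ 10) (p ^ F r) with hg | hng
    swap
    · -- not good
      have h3 : ((p : ℝ)) ^ F r ≤ (W r : ℝ) ^ 10 := by exact_mod_cast hng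
      have h4 := log_le_log (by positivity) h3
      rw [log_pow, log_pow] at h4
      push_cast at h4
      have h5 : (10 : ℝ) * log (W r) = 10 * C r := rfl
      linarith
    have hg' : 10 * C r ≤ F r * log p := by
      have h3 : (W r : ℝ) ^ 10 ≤ (p : ℝ) ^ F r := by exact_mod_cast hg.le
      have h4 := log_le_log (by positivity) h3
      rw [log_pow, log_pow] at h4
      push_cast at h4
      exact h4
    rcases Nat.lt_or_ge (i.factorization r) (f r) with hfv | hfv
    swap
    · -- `f ≤ v`
      have h3 : (f r : ℝ) * log r ≤ (i.factorization r : ℝ) * log r := by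
        apply mul_le_mul_of_nonneg_right _ hr1
        exact_mod_cast hfv
      have : 0 ≤ 11 * C r := by positivity
      linarith
    rcases Nat.lt_or_ge X (F r) with hXF | hXF
    swap
    · -- small `F`
      rw [if_pos (⟨he, hg, hXF⟩ : good r)]
      have h3 : 0 ≤ 11 * C r := by positivity
      have h4 : (f r : ℝ) * log r ≤ (11 / 10) * (log p * F r) := by linarith
      linarith
    · -- large `F`
      have h3 : Z < F r * log p := by
        have h4 : Z / log p < F r := (Nat.floor_lt (by positivity)).mp hXF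
        exact (div_lt_iff₀ (by linarith)).mp h4
      have h5 := hup r hrS
      have h6 : (a r : ℝ) ≤ 2 * f r := by
        have h7 := hfval r hrS
        have : a r ≤ 2 * f r := by
          show M.factorization r ≤ 2 * f r
          omega
        exact_mod_cast this
      have h7 : (a r : ℝ) * log r ≤ 2 * f r * log r := mul_le_mul_of_nonneg_right h6 hr1
      have h32 : log (3 / 2 : ℝ) ≤ log 2 := log_le_log (by norm_num) (by norm_num)
      have hy : Z / 2 ≤ (f r : ℝ) * log r := by linarith
      have h8 := hloc r hr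
      have h9 : ((f r : ℝ) * log r) * (Z / 2) ≤ 144 * (D * C r) := by
        calc ((f r : ℝ) * log r) * (Z / 2) ≤ ((f r : ℝ) * log r) * ((f r : ℝ) * log r) :=
              mul_le_mul_of_nonneg_left hy (by positivity)
          _ ≤ (12 * sqrt (D * C r)) * (12 * sqrt (D * C r)) :=
              mul_le_mul h8 h8 (by positivity) (by positivity)
          _ = 144 * (sqrt (D * C r) * sqrt (D * C r)) := by ring
          _ = 144 * (D * C r) := by rw [mul_self_sqrt (by positivity)]
      have h10 : (f r : ℝ) * log r ≤ 288 * D * C r / Z := by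
        rw [le_div_iff₀ hZ0]
        linarith
      have h11 : 0 ≤ 11 * C r := by positivity
      linarith
  -- sums
  have hsumT := Finset.sum_le_sum hpt2
  simp only [Finset.sum_add_distrib] at hsumT
  -- the odd part
  have hoddsum : ∑ r ∈ S2, (if Odd (a r) then 12 * sqrt (D * log i) else 0)
      ≤ 12 * sqrt (D * log i) := by
    rw [← Finset.sum_filter, Finset.sum_const, nsmul_eq_mul]
    have hcard : (S2.filter (fun r => Odd (a r))).card ≤ 1 := by
      rw [Finset.card_le_one]
      intro r hr s hs
      rw [mem_filter] at hr hs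
      by_contra hne
      apply hi4
      have hWr : Even (W r) := by
        rcases hpar r (hS2W r hr.1).1 with h | h
        · exact absurd h (Nat.not_even_iff_odd.mpr hr.2)
        · exact h
      have hWs : Even (W s) := by
        rcases hpar s (hS2W s hs.1).1 with h | h
        · exact absurd h (Nat.not_even_iff_odd.mpr hs.2)
        · exact h
      have h3 : W r * W s ∣ ∏ r ∈ M.primeFactors, W r := by
        have h4 : ({r, s} : Finset ℕ) ⊆ M.primeFactors := by
          intro x hx
          rw [mem_insert, mem_singleton] at hx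
          rcases hx with rfl | rfl
          · exact (hS2W _ hr.1).1
          · exact (hS2W _ hs.1).1
        have h5 := Finset.prod_dvd_prod_of_subset _ _ W h4
        rwa [Finset.prod_pair hne] at h5
      have h6 : 2 * 2 ∣ W r * W s := mul_dvd_mul hWr.two_dvd hWs.two_dvd
      exact (h6.trans h3).trans hWdvd
    have hcr : ((S2.filter (fun r => Odd (a r))).card : ℝ) ≤ 1 := by exact_mod_cast hcard
    have h0 : 0 ≤ 12 * sqrt (D * log i) := by positivity
    nlinarith
  have hsumC : ∑ r ∈ S2, 11 * C r ≤ 11 * log i := by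
    rw [← Finset.mul_sum]
    exact mul_le_mul_of_nonneg_left hlogW (by norm_num)
  have hsumD : ∑ r ∈ S2, 288 * D * C r / Z ≤ 288 * D * log i / Z := by
    rw [← Finset.sum_div, ← Finset.mul_sum]
    apply div_le_div_of_nonneg_right _ hZ0.le
    exact mul_le_mul_of_nonneg_left hlogW (by positivity)
  have hsumv : ∑ r ∈ S2, (i.factorization r : ℝ) * log r ≤ log i := by
    have hdvd : ∏ r ∈ S2, r ^ i.factorization r ∣ i := by
      apply Finset.prod_dvd_of_isRelPrime
      · intro r hr s hs hrs
        have hco : Nat.Coprime r s := (Nat.coprime_primes (hrprime r (hS2W r hr).1)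
          (hrprime s (hS2W s hs).1)).mpr hrs
        exact Nat.coprime_iff_isRelPrime.mp (Nat.Coprime.pow _ _ hco)
      · intro r _
        exact Nat.ordProj_dvd i r
    have hle : ∏ r ∈ S2, r ^ i.factorization r ≤ i := Nat.le_of_dvd (by omega) hdvd
    have hpos : 0 < ∏ r ∈ S2, r ^ i.factorization r := Finset.prod_pos (fun r hr => by
      have := (hrprime r (hS2W r hr).1).pos
      positivity)
    have h3 : ((∏ r ∈ S2, r ^ i.factorization r : ℕ) : ℝ) ≤ i := by exact_mod_cast hle
    have h4 := log_le_log (by exact_mod_cast hpos) h3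
    have h5 : log ((∏ r ∈ S2, r ^ i.factorization r : ℕ) : ℝ)
        = ∑ r ∈ S2, (i.factorization r : ℝ) * log r := by
      push_cast
      rw [Real.log_prod (fun r hr => by
        have := (hrprime r (hS2W r hr).1).pos
        positivity)]
      exact Finset.sum_congr rfl (fun r _ => by rw [log_pow])
    rw [h5] at h4
    exact h4
  -- the good part
  have hgoodsum : ∑ r ∈ S2, (if good r then (11 / 10) * (log p * F r) else 0)
      = (11 / 10) * (log p * ((∑ r ∈ S2.filter good, F r : ℕ) : ℝ)) := by
    rw [← Finset.sum_filter, ← Finset.mul_sum, ← Finset.mul_sum]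
    push_cast
    rfl
  have hsum2 : (11 / 10 : ℝ) * (log p * ((∑ r ∈ S2.filter good, F r : ℕ) : ℝ)) =
      (11 / 10) * ∑ r ∈ S2.filter good, (F r : ℝ) * log p := by
    rw [← Finset.sum_mul]
    push_cast
    ring
  refine ⟨S2.filter good, fun r hr => (hS2W r (mem_filter.mp hr).1).1,
    { prime := fun q hq => hrprime q (hS2W q (mem_filter.mp hq).1).1
      ne2 := fun q hq => by have := hr3 q (hS2W q (mem_filter.mp hq).1).1; omega
      even := fun q hq => (mem_filter.mp hq).2.1
      pos := fun q hq => he1 q (hS2W q (mem_filter.mp hq).1).1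
      c1 := fun q hq => by have := (hS2W q (mem_filter.mp hq).1).2; omega
      sig := fun q hq => by
        rw [mul_comm (W q)]; exact hσr q (hS2W q (mem_filter.mp hq).1).1
      good := fun q hq => (mem_filter.mp hq).2.2.1 }, ?_, ?_, ?_⟩
  · intro r hr
    have h1 : (F r : ℝ) ≤ X := by exact_mod_cast (mem_filter.mp hr).2.2.2
    calc (F r : ℝ) * log p ≤ X * log p := mul_le_mul_of_nonneg_right h1 (by linarith)
      _ ≤ Z := hXP
      _ = 600 * log i := hZ
  · refine (Finset.sum_le_sum_of_subset_of_nonneg (Finset.filter_subset _ _)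
      (fun r _ _ => log_natCast_nonneg _)).trans hlogW
  · rw [hgoodsum] at hsumT
    rw [hsum2] at hsumT
    rw [← Finset.sum_filter_add_sum_filter_not M.primeFactors (fun r => W r = 1)] at hkP
    exact kfinal_ineq (k : ℝ) (log p) (log i) D Z (∑ r ∈ S2.filter good, (F r : ℝ) * log p)
      (∑ r ∈ S2, (f r : ℝ) * log r) hkr hP hI hD hZ
      (Finset.sum_nonneg (fun r _ => by positivity)) (by linarith) (by linarith)

end Pool.Agent.Lib.MP_f02ea4_nt.BK
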