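import Pool.Agent.Lib.MP_f02ea4_nt.IP.Final
import Pool.Agent.Lib.MP_f02ea4_nt.BK.IPGood

/-! The index of an odd perfect number at a prime power component: the lower bound
`exp (c (log N) ^ θ)`, `θ < 4 / 7`. -/

set_option autoImplicit false

namespace Pool.Agent.Lib.MP_f02ea4_nt.BK

open Finset Real
open Pool.Agent.Lib.MP_f02ea4_nt.Idx
open Pool.Agent.Lib.MP_f02ea4_nt.LP
open ArithmeticFunction (sigma)

theorem omega_le_log {n : ℕ} (hn : n ≠ 0) : (n.primeFactors.card : ℝ) ≤ 2 * log n := by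
  have h1 : 2 ^ n.primeFactors.card ≤ ∏ q ∈ n.primeFactors, q := by
    rw [← Finset.prod_const]
    exact Finset.prod_le_prod (fun _ _ => by norm_num)
      (fun q hq => (Nat.prime_of_mem_primeFactors hq).two_le)
  have h2 : ∏ q ∈ n.primeFactors, q ≤ n := Nat.le_of_dvd (Nat.pos_of_ne_zero hn)
    (Nat.prod_primeFactors_dvd n)
  have h3 : (2 : ℝ) ^ n.primeFactors.card ≤ n := by exact_mod_cast h1.trans h2
  have h4 := log_le_log (by positivity) h3
  rw [log_pow] at h4
  have h5 : (0.6931471803 : ℝ) < log 2 := log_two_gt_d9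
  have h6 : (0 : ℝ) ≤ n.primeFactors.card := Nat.cast_nonneg _
  nlinarith

theorem index_bound (hPB : ∀ n : ℕ, 1 ≤ n → ∃ C : ℕ, 1 ≤ C ∧ PairBound n C) (θ : ℝ)
    (hθ : θ < 4 / 7) : ∃ c : ℝ, 0 < c ∧ ∀ {N p k M : ℕ}, Odd N → Nat.Perfect N → p.Prime →
      ¬ p ∣ M → N = p ^ k * M →
      c * (log (N : ℝ)) ^ θ ≤ log ((sigma 1 M / p ^ k : ℕ) : ℝ) := by
  -- it is enough to take `0 ≤ θ`
  wlog hθ0 : 0 ≤ θ generalizing θ with H
  · obtain ⟨c, hc, h⟩ := H 0 (by norm_num) le_rfl
    refine ⟨c, hc, ?_⟩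
    intro N p k M hN hperf hp hpM hNM
    refine le_trans ?_ (h hN hperf hp hpM hNM)
    apply mul_le_mul_of_nonneg_left _ hc.le
    apply rpow_le_rpow_of_exponent_le _ (le_of_lt (not_le.1 hθ0))
    have hN3 : (3 : ℝ) ≤ N := by
      have h4 := hperf.2
      obtain ⟨j, hj⟩ := hN
      have h5 : N ≠ 1 := by
        rintro rfl
        have := hperf.1
        simp at this
      have h6 : 3 ≤ N := by omega
      exact_mod_cast h6
    rw [le_log_iff_exp_le (by linarith)]
    have h4 : exp 1 < 2.7182818286 := exp_one_lt_d9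
    linarith
  obtain ⟨c, hc, hcore⟩ := core_of_pair hPB 40000 (by norm_num) (4 / 7 - θ) (by linarith)
  have hcore' : ∀ (p : ℕ) (S : Finset ℕ) (a s κ : ℕ → ℕ) (D I : ℝ), p.Prime → p ≠ 2 →
      Fam1 p S a s κ → 1 ≤ D → 1 ≤ I → (∀ r ∈ S, (κ r : ℝ) * log p ≤ 40000 * I) →
      ∑ r ∈ S, log (s r : ℝ) ≤ I → D ≤ 40000 * log p * I →
      D ≤ 40000 * ∑ r ∈ S, (κ r : ℝ) * log p → c * D ^ θ ≤ I := by
    intro p S a s κ D I h1 h2 h3 h4 h5 h6 h7 h8 h9
    have h10 := hcore p S a s κ D I h1 h2 h3 h4 h5 h6 h7 h8 h9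
    rwa [show (4 : ℝ) / 7 - (4 / 7 - θ) = θ by ring] at h10
  refine ⟨min (1 / 20001) (c / 6), lt_min (by norm_num) (by positivity), ?_⟩
  intro N p k M hN hperf hp hpM hNM
  set lI : ℝ := log ((sigma 1 M / p ^ k : ℕ) : ℝ) with hlI
  have hI0 : 0 ≤ lI := log_natCast_nonneg _
  have hNpos : (0 : ℝ) < N := by exact_mod_cast hperf.2
  have hN3 : (3 : ℝ) ≤ N := by
    have h4 := hperf.2
    have hN' := hN
    obtain ⟨j, hj⟩ := hN'
    have h5 : N ≠ 1 := by
      rintro rfl
      have := hperf.1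
      simp at this
    have h6 : 3 ≤ N := by omega
    exact_mod_cast h6
  have hx1 : 1 ≤ log (N : ℝ) := by
    rw [le_log_iff_exp_le hNpos]
    have h4 : exp 1 < 2.7182818286 := exp_one_lt_d9
    linarith
  have hxθ : (log (N : ℝ)) ^ θ ≤ log N := by
    calc (log (N : ℝ)) ^ θ ≤ (log (N : ℝ)) ^ (1 : ℝ) :=
          rpow_le_rpow_of_exponent_le hx1 (by linarith)
      _ = log N := rpow_one _
  have hxθ0 : 0 ≤ (log (N : ℝ)) ^ θ := by positivity
  have hsmall : log (N : ℝ) ≤ 20001 * lI →
      min (1 / 20001) (c / 6) * (log (N : ℝ)) ^ θ ≤ lI := by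
    intro h
    calc min (1 / 20001) (c / 6) * (log (N : ℝ)) ^ θ ≤ 1 / 20001 * (log (N : ℝ)) ^ θ :=
          mul_le_mul_of_nonneg_right (min_le_left _ _) hxθ0
      _ ≤ 1 / 20001 * log N := mul_le_mul_of_nonneg_left hxθ (by norm_num)
      _ ≤ lI := by linarith
  rcases Nat.lt_or_ge k 280 with hk | hk
  · apply hsmall
    have h1 := IP.log_le_of_small hN hperf hp hpM hNM hk
    rw [← hlI] at h1
    linarith
  · obtain ⟨hdM, i, F, W, f, H⟩ := exists_data hN hperf hp hpM hNM (by omega)
    have hli : lI = log i := by rw [hlI, H.hidiv]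
    have hi2 : (2 : ℝ) ≤ i := by exact_mod_cast H.hi2
    have hlog2 : (0.6931471803 : ℝ) < log 2 := log_two_gt_d9
    have hli2 : log 2 ≤ lI := by
      rw [hli]
      exact log_le_log (by norm_num) hi2
    have hlogN := H.hlogN
    rw [← hli] at hlogN
    rcases le_or_gt ((k : ℝ) * log p) (10000 * lI) with hcase | hcase
    · apply hsmall
      linarith
    · obtain ⟨S, hSM, hfam, hw, hs, hsum⟩ := good_family hp hk H
      rw [← hli] at hw hs hsum
      have hp3 := H.hp3
      have hp3r : (3 : ℝ) ≤ p := by exact_mod_cast hp3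
      have hP1 : 1 ≤ log (p : ℝ) := by
        rw [le_log_iff_exp_le (by linarith)]
        have h4 : exp 1 < 2.7182818286 := exp_one_lt_d9
        linarith
      have hk280 : (280 : ℝ) ≤ k := by exact_mod_cast hk
      have hD1 : 1 ≤ (k : ℝ) * log p := by nlinarith
      -- `D ≤ K log p I`
      have hbig : (k : ℝ) * log p ≤ 40000 * log p * (2 * lI) := by
        have h1 := IP.log_le hN hperf hp hpM hNM
        rw [← hlI] at h1
        have h2 := IP.card_le_omega (M := M) hp (by omega)
        have h3 : p - 1 ≠ 0 := by omega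
        have h4 := omega_le_log h3
        have h5 : log (((p - 1 : ℕ) : ℝ)) ≤ log p := by
          apply log_le_log
          · exact_mod_cast (by omega : 0 < p - 1)
          · exact_mod_cast (by omega : p - 1 ≤ p)
        have h6 : ((((p - 1).primeFactors.filter (fun l => l ≠ 2 ∧
            ∃ r ∈ M.primeFactors, l ∣ M.factorization r + 1)).card : ℝ) + 1) ≤ 2 * log p := by
          have h7 : (((((p - 1).primeFactors.filter (fun l => l ≠ 2 ∧
            ∃ r ∈ M.primeFactors, l ∣ M.factorization r + 1)).card + 1 : ℕ)) : ℝ) ≤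
            ((p - 1).primeFactors.card : ℝ) := by exact_mod_cast h2
          push_cast at h7
          linarith
        have h8 : (k : ℝ) * log p ≤ log N := by
          have h9 : (p : ℝ) ^ k ≤ N := by
            have h10 : p ^ k ≤ N := by
              apply Nat.le_of_dvd hperf.2
              rw [hNM]
              exact dvd_mul_right _ _
            exact_mod_cast h10
          have h11 := log_le_log (by positivity) h9
          rwa [log_pow] at h11
        have h12 : 17501 * ((((p - 1).primeFactors.filter (fun l => l ≠ 2 ∧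
            ∃ r ∈ M.primeFactors, l ∣ M.factorization r + 1)).card : ℝ) + 1) * lI ≤
            17501 * (2 * log p) * lI := by
          apply mul_le_mul_of_nonneg_right _ hI0
          linarith
        have h13 : 0 ≤ log (p : ℝ) * lI := by positivity
        linarith
      have h14 := hcore' p S _ W F ((k : ℝ) * log p) (2 * lI) hp (by omega) hfam hD1
        (by linarith) (fun r hr => (hw r hr).trans (by linarith)) (by linarith) hbig (by
          have : 0 ≤ ∑ r ∈ S, (F r : ℝ) * log p := Finset.sum_nonneg (fun r _ => by positivity)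
          linarith)
      have h15 : log (N : ℝ) ≤ 3 * ((k : ℝ) * log p) := by linarith
      have h16 : (log (N : ℝ)) ^ θ ≤ 3 * ((k : ℝ) * log p) ^ θ := by
        calc (log (N : ℝ)) ^ θ ≤ (3 * ((k : ℝ) * log p)) ^ θ :=
              rpow_le_rpow (by linarith) h15 hθ0
          _ = 3 ^ θ * ((k : ℝ) * log p) ^ θ := mul_rpow (by norm_num) (by positivity)
          _ ≤ 3 * ((k : ℝ) * log p) ^ θ := by
              apply mul_le_mul_of_nonneg_right _ (by positivity)
              calc (3 : ℝ) ^ θ ≤ 3 ^ (1 : ℝ) :=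
                    rpow_le_rpow_of_exponent_le (by norm_num) (by linarith)
                _ = 3 := rpow_one _
      calc min (1 / 20001) (c / 6) * (log (N : ℝ)) ^ θ ≤ c / 6 * (log (N : ℝ)) ^ θ :=
            mul_le_mul_of_nonneg_right (min_le_right _ _) hxθ0
        _ ≤ c / 6 * (3 * ((k : ℝ) * log p) ^ θ) := mul_le_mul_of_nonneg_left h16 (by positivity)
        _ = (1 / 2) * (c * ((k : ℝ) * log p) ^ θ) := by ring
        _ ≤ (1 / 2) * (2 * lI) := mul_le_mul_of_nonneg_left h14 (by norm_num)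
        _ = lI := by ring

end Pool.Agent.Lib.MP_f02ea4_nt.BK
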