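import Pool.Agent.Lib.MP_f02ea4_nt.BK.Main
import Pool.Agent.Lib.MP_f02ea4_nt.Mg.G015

/-! Largest prime factor of an odd perfect number: the structure theorem with the exponent
`θ < 4 / 7`. -/

set_option autoImplicit false

namespace Pool.Agent.Lib.MP_f02ea4_nt.BK

open Finset Real
open Pool.Agent.Lib.MP_f02ea4_nt.LP
open Pool.Agent.Lib.MP_f02ea4_nt.IP

section
variable {q b m C f P : ℕ} {S : Finset ℕ} {e s g h d : ℕ → ℕ}

/-- the good components with a small exponent of `q` carry a positive proportion -/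
theorem LP_class2 (D : Data q b m C f P S e s g h d)
    (hF6 : log ((m * C : ℕ) : ℝ) * 10 ^ 6 ≤ ((b : ℝ) + 1) * log q) :
    ∃ S2 : Finset ℕ, S2 ⊆ S ∧ (∀ r ∈ S2, s r ^ 10 < q ^ g r) ∧
      (∀ r ∈ S2, (g r : ℝ) * log q ≤
        601 * log q + 20000 * log ((m * C : ℕ) : ℝ) + 30 * √(((b : ℝ) + 1) * log q)) ∧
      ((b : ℝ) + 1) * log q ≤ 4 * ∑ r ∈ S2, (g r : ℝ) * log q := by
  classical
  set F := log ((m * C : ℕ) : ℝ) with hFdef
  set L := log (q : ℝ) with hLdef
  set a : ℝ := (b : ℝ) + 1 with ha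
  have hL1 : 1 ≤ L := D.L1
  have hL0 : 0 < L := by linarith
  have hF0 : 0 ≤ F := D.F0
  have hb2 : (2 : ℝ) ≤ b := by exact_mod_cast D.hb
  have ha3 : 3 ≤ a := by linarith
  have ha0 : 0 < a := by linarith
  have hFaL : F * 10 ^ 6 ≤ a * L := hF6
  -- the threshold
  set z := sqrt (a / L) with hz
  have hz0 : 0 ≤ z := sqrt_nonneg _
  have hzz : z * z * L = a := by
    rw [hz, mul_self_sqrt (by positivity)]
    field_simp
  have hzL : √(a * L) = z * L := by
    rw [show a * L = (z * L) * (z * L) by rw [← hzz]; ring]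
    exact sqrt_mul_self (by positivity)
  have hFL : 0 ≤ 20000 * F / L := by positivity
  set X : ℕ := ⌈600 + 20000 * F / L + 30 * z⌉₊ with hX
  have hX1 : 600 + 20000 * F / L + 30 * z ≤ X := Nat.le_ceil _
  have hX2 : (X : ℝ) < 600 + 20000 * F / L + 30 * z + 1 := Nat.ceil_lt_add_one (by positivity)
  have hXL : (X : ℝ) * L ≤ 601 * L + 20000 * F + 30 * √(a * L) := by
    have h1 : (X : ℝ) * L ≤ (600 + 20000 * F / L + 30 * z + 1) * L :=
      mul_le_mul_of_nonneg_right hX2.le hL0.le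
    have h2 : (600 + 20000 * F / L + 30 * z + 1) * L
        = 601 * L + 20000 * F + 30 * (z * L) := by
      field_simp
      ring
    rw [h2] at h1
    rw [hzL]
    exact h1
  -- the three classes
  set S1 := S.filter (fun r => q ^ g r ≤ s r ^ 10) with hS1
  set S' := S.filter (fun r => ¬ q ^ g r ≤ s r ^ 10) with hS'
  set S2 := S'.filter (fun r => g r ≤ X) with hS2
  set S3 := S'.filter (fun r => ¬ g r ≤ X) with hS3
  have hsub1 : S1 ⊆ S := Finset.filter_subset _ _
  have hsub' : S' ⊆ S := Finset.filter_subset _ _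
  have hsub2 : S2 ⊆ S := (Finset.filter_subset _ _).trans hsub'
  have hsub3 : S3 ⊆ S := (Finset.filter_subset _ _).trans hsub'
  have hgood2 : ∀ r ∈ S2, s r ^ 10 < q ^ g r := fun r hr =>
    not_le.1 (Finset.mem_filter.1 (Finset.mem_filter.1 hr).1).2
  have hgood3 : ∀ r ∈ S3, s r ^ 10 < q ^ g r := fun r hr =>
    not_le.1 (Finset.mem_filter.1 (Finset.mem_filter.1 hr).1).2
  have hsplit : ∑ r ∈ S, (g r : ℝ)
      = ∑ r ∈ S1, (g r : ℝ) + (∑ r ∈ S2, (g r : ℝ) + ∑ r ∈ S3, (g r : ℝ)) := by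
    rw [hS2, hS3, Finset.sum_filter_add_sum_filter_not, hS1, hS',
      Finset.sum_filter_add_sum_filter_not]
  have hbsum : (b : ℝ) = f + ∑ r ∈ S, (g r : ℝ) := by
    have := D.sum
    exact_mod_cast this.symm
  -- class 1
  have hc1 : ∑ r ∈ S1, (g r : ℝ) ≤ a / 10 ^ 5 := by
    have h1 := D.nongood hsub1 (fun r hr => (Finset.mem_filter.1 hr).2)
    have h2 : (∑ r ∈ S1, (g r : ℝ)) * L ≤ (a / 10 ^ 5) * L := by
      calc (∑ r ∈ S1, (g r : ℝ)) * L ≤ 10 * F := h1
        _ ≤ a / 10 ^ 5 * L := by linarith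
    exact le_of_mul_le_mul_right h2 hL0
  -- class 3
  have hX3 : ∀ r ∈ S3, 2 ≤ s r ∧ (g r : ℝ) * (20000 * F) ≤ 1624 * a * log (s r : ℝ) := by
    intro r hr
    have h1 : (X : ℝ) ≤ g r := by
      have := not_le.1 (Finset.mem_filter.1 hr).2
      exact_mod_cast this.le
    have hg0 : (0 : ℝ) ≤ g r := Nat.cast_nonneg _
    have h2 : 20000 * F ≤ g r * L := by
      have h3 : 20000 * F / L ≤ g r := by linarith
      rwa [div_le_iff₀ (by linarith)] at h3
    have h600 : 600 ≤ g r := by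
      have : (600 : ℝ) ≤ g r := by linarith
      exact_mod_cast this
    have h4 : 900 * a ≤ (g r : ℝ) ^ 2 * L := by
      have h5 : 30 * z ≤ g r := by linarith
      have h6 : (30 * z) * (30 * z) ≤ (g r : ℝ) * g r := mul_le_mul h5 h5 (by positivity) hg0
      calc 900 * a = (30 * z) * (30 * z) * L := by rw [← hzz]; ring
        _ ≤ (g r : ℝ) * g r * L := mul_le_mul_of_nonneg_right h6 (by linarith)
        _ = _ := by ring
    obtain ⟨h7, h8⟩ := D.localb' (hsub3 hr) (hgood3 r hr) h600 (by linarith) h4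
    refine ⟨h7, ?_⟩
    calc (g r : ℝ) * (20000 * F) ≤ (g r : ℝ) * (g r * L) := mul_le_mul_of_nonneg_left h2 hg0
      _ = (g r : ℝ) ^ 2 * L := by ring
      _ ≤ _ := h8
  have hc3 : ∑ r ∈ S3, (g r : ℝ) ≤ a * (9 / 100) := by
    rcases eq_or_lt_of_le hF0 with h0 | hpos
    · have hempty : S3 = ∅ := by
        apply Finset.eq_empty_of_forall_notMem
        intro r hr
        have h1 := (hX3 r hr).1
        have h2 := D.log_s_le (hsub3 hr)
        have h3 : 0 < log (s r : ℝ) := log_pos (by exact_mod_cast (by omega : 1 < s r))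
        linarith
      rw [hempty, Finset.sum_empty]
      positivity
    · have h1 : (∑ r ∈ S3, (g r : ℝ)) * (20000 * F) ≤ 1624 * a * F := by
        rw [Finset.sum_mul]
        calc ∑ r ∈ S3, (g r : ℝ) * (20000 * F) ≤ ∑ r ∈ S3, 1624 * a * log (s r : ℝ) :=
              Finset.sum_le_sum (fun r hr => (hX3 r hr).2)
          _ = 1624 * a * ∑ r ∈ S3, log (s r : ℝ) := by rw [Finset.mul_sum]
          _ ≤ _ := mul_le_mul_of_nonneg_left (D.sum_log_sub hsub3) (by positivity)
      have h2 : ((∑ r ∈ S3, (g r : ℝ)) * 20000) * F ≤ (1624 * a) * F := by linarith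
      have h3 := le_of_mul_le_mul_right h2 hpos
      linarith
  -- `f`
  have hf : (f : ℝ) ≤ 7 / 10 + a / 10 ^ 6 := by
    have h1 := D.f_le
    have h2 : (f : ℝ) * L ≤ (7 / 10 + a / 10 ^ 6) * L := by
      have h3 : (7 / 10 : ℝ) ≤ 7 / 10 * L := by linarith
      have h4 : F ≤ a / 10 ^ 6 * L := by linarith
      linarith
    exact le_of_mul_le_mul_right h2 hL0
  refine ⟨S2, hsub2, hgood2, ?_, ?_⟩
  · intro r hr
    have h1 : (g r : ℝ) ≤ X := by exact_mod_cast (Finset.mem_filter.1 hr).2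
    exact (mul_le_mul_of_nonneg_right h1 hL0.le).trans hXL
  · have h1 : a ≤ 4 * ∑ r ∈ S2, (g r : ℝ) := by
      have : a = b + 1 := ha
      linarith
    calc a * L ≤ (4 * ∑ r ∈ S2, (g r : ℝ)) * L := mul_le_mul_of_nonneg_right h1 hL0.le
      _ = 4 * ∑ r ∈ S2, (g r : ℝ) * L := by rw [mul_assoc, Finset.sum_mul]

/-- the structure theorem with the exponent `θ < 4 / 7` -/
theorem LP_theta {θ : ℝ} (hθ : θ < 4 / 7) : ∃ K : ℝ, 0 < K ∧
    ∀ {q b m C f P : ℕ} {S : Finset ℕ} {e s g h d : ℕ → ℕ}, Data q b m C f P S e s g h d →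
      (((b : ℝ) + 1) * log q) ^ θ ≤ K * (1 + log ((m * C : ℕ) : ℝ)) := by
  obtain ⟨K₁, hK₁, hmain⟩ := main_data
  set K₃ : ℝ := 616 * K₁ + 20015 with hK₃
  obtain ⟨c, hc, hcore⟩ := core K₃ (by linarith) (4 / 7 - θ) (by linarith)
  refine ⟨10 ^ 6 + 1 / c, by positivity, ?_⟩
  intro q b m C f P S e s g h d D
  have h1 := hmain D
  set F := log ((m * C : ℕ) : ℝ) with hFdef
  set L := log (q : ℝ) with hLdef
  set a : ℝ := (b : ℝ) + 1 with ha
  have hL1 : 1 ≤ L := D.L1
  have hF0 : 0 ≤ F := D.F0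
  have hb2 : (2 : ℝ) ≤ b := by exact_mod_cast D.hb
  have ha3 : 3 ≤ a := by linarith
  have hy3 : 3 ≤ a * L := by nlinarith
  have hcF : 0 ≤ 1 / c * (1 + F) := by positivity
  rcases le_or_gt (F * 10 ^ 6) (a * L) with hF6 | hF6
  · obtain ⟨S2, hS2, hgood, hw, hsum⟩ := LP_class2 D hF6
    have hKF : 0 ≤ K₁ * F := by positivity
    have hsq : √(a * L) ≤ (a + L) / 2 := by
      rw [sqrt_le_left (by linarith)]
      nlinarith [sq_nonneg (a - L)]
    have hI := hcore q S2 e s g (a * L) (1 + F) D.hq D.hq2 (D.fam hS2 hgood) (by linarith)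
      (by linarith) ?_ ?_ ?_ ?_
    · rw [show (4 : ℝ) / 7 - (4 / 7 - θ) = θ by ring] at hI
      have h2 : (a * L) ^ θ ≤ 1 / c * (1 + F) := by
        rw [one_div, inv_mul_eq_div, le_div_iff₀ hc, mul_comm]
        exact hI
      have h3 : 0 ≤ 10 ^ 6 * (1 + F) := by positivity
      linarith
    · intro r hr
      refine (hw r hr).trans ?_
      rw [hK₃]
      nlinarith
    · have h2 := D.sum_log_sub hS2
      linarith
    · have h2 : a ≤ K₃ * (1 + F) := by
        rw [hK₃]; nlinarith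
      calc a * L ≤ (K₃ * (1 + F)) * L := mul_le_mul_of_nonneg_right h2 (by linarith)
        _ = K₃ * L * (1 + F) := by ring
    · refine hsum.trans ?_
      apply mul_le_mul_of_nonneg_right (by linarith)
      exact Finset.sum_nonneg fun r _ => mul_nonneg (Nat.cast_nonneg _) (by linarith)
  · have h2 : (a * L) ^ θ ≤ a * L := by
      calc (a * L) ^ θ ≤ (a * L) ^ (1 : ℝ) :=
            rpow_le_rpow_of_exponent_le (by linarith) (by linarith)
        _ = a * L := rpow_one _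
    linarith

end

end Pool.Agent.Lib.MP_f02ea4_nt.BK
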