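import Pool.Agent.Lib.MP_f02ea4_nt.BK.LPCore
import Pool.Agent.Lib.MP_f02ea4_nt.IP.LPFinal2

/-! Largest prime factor of an odd perfect number: the final statement with the exponent
`θ < 4 / 7`. -/

set_option autoImplicit false

namespace Pool.Agent.Lib.MP_f02ea4_nt.BK

open Finset Real
open Pool.Agent.Lib.MP_f02ea4_nt.LP (Data)
open Pool.Agent.Lib.MP_f02ea4_nt.IP
open ArithmeticFunction (sigma)

/-- the data with the bound for `(log N) ^ θ` -/
theorem LP_all4 {θ : ℝ} (hθ0 : 0 ≤ θ) (hθ : θ < 4 / 7) : ∃ K : ℝ, 0 < K ∧ ∀ {N P q : ℕ},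
    Odd N → Nat.Perfect N → P.Prime → N.factorization P = 1 → q.Prime → q ∣ N →
    P ∣ sigma 1 (q ^ N.factorization q) →
    ∃ F : ℝ, 0 ≤ F ∧ (P : ℝ) ^ 3 * exp F ≤ 6 * N ∧
      (log N ≤ 6 * log P → log N ^ θ ≤ K * (1 + F)) := by
  obtain ⟨K, hK, hmain⟩ := LP_theta hθ
  refine ⟨6 * K, by positivity, ?_⟩
  intro N P q hN hperf hP hPN hq hqN hPq
  obtain ⟨m, C, f, S, e, s, g, h, d, D, hsize, -⟩ := exists_dataE hN hperf hP hPN hq hqN hPq
  set b := N.factorization q with hb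
  have hmC1 : (1 : ℝ) ≤ ((m * C : ℕ) : ℝ) := D.mC1
  have hF0 : 0 ≤ log ((m * C : ℕ) : ℝ) := log_nonneg hmC1
  have h0 := hmain D
  set F := log ((m * C : ℕ) : ℝ) with hF
  have hL1 : 1 ≤ log (q : ℝ) := D.L1
  have hP0 : (0 : ℝ) < P := by exact_mod_cast hP.pos
  have hb2 : (2 : ℝ) ≤ b := by exact_mod_cast D.hb
  set y : ℝ := ((b : ℝ) + 1) * log q with hy
  have hy3 : 3 ≤ y := by nlinarith
  have hPy : log (P : ℝ) ≤ y := by
    have h1 : P ≤ q ^ (b + 1) := by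
      have h2 := D.sigq
      have h3 : 1 * P ≤ (q - 1) * (m * P) := by
        rw [← mul_assoc]
        apply Nat.mul_le_mul_right
        have h4 := D.hm
        have h5 := D.q3
        exact Nat.mul_pos (by omega) h4
      omega
    have h2 : (P : ℝ) ≤ (q : ℝ) ^ (b + 1) := by exact_mod_cast h1
    have h3 := log_le_log hP0 h2
    rw [log_pow] at h3
    push_cast at h3
    exact h3
  refine ⟨F, hF0, ?_, ?_⟩
  · rw [hF, exp_log (by linarith)]
    exact_mod_cast hsize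
  · intro hx
    have hlN : 0 ≤ log (N : ℝ) := log_natCast_nonneg N
    have h2 : log (N : ℝ) ^ θ ≤ (6 * y) ^ θ :=
      rpow_le_rpow hlN (by linarith) hθ0
    have h3 : (6 * y) ^ θ = (6 : ℝ) ^ θ * y ^ θ := mul_rpow (by norm_num) (by linarith)
    have h4 : (6 : ℝ) ^ θ ≤ 6 := by
      calc (6 : ℝ) ^ θ ≤ (6 : ℝ) ^ (1 : ℝ) :=
            rpow_le_rpow_of_exponent_le (by norm_num) (by linarith)
        _ = 6 := rpow_one _
    have h5 : 0 ≤ y ^ θ := rpow_nonneg (by linarith) _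
    calc log (N : ℝ) ^ θ ≤ (6 : ℝ) ^ θ * y ^ θ := by rw [← h3]; exact h2
      _ ≤ 6 * y ^ θ := mul_le_mul_of_nonneg_right h4 h5
      _ ≤ 6 * (K * (1 + F)) := by linarith
      _ = 6 * K * (1 + F) := by ring

theorem LP_pre4 {θ : ℝ} (hθ0 : 0 ≤ θ) (hθ : θ < 4 / 7) : ∃ c₀ : ℝ, 0 < c₀ ∧
    ∀ N : ℕ, Odd N → Nat.Perfect N → ∀ P : ℕ, P.Prime → P ∣ N →
      c₀ * (P : ℝ) ^ 3 * exp (log N ^ θ) ^ c₀ ≤ N := by
  obtain ⟨K, hK, hall⟩ := LP_all4 hθ0 hθ
  set c := min (1 / K) (1 / 200 : ℝ) with hc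
  have hc0 : 0 < c := lt_min (by positivity) (by norm_num)
  have hcK : c * K ≤ 1 := by
    have : c ≤ 1 / K := min_le_left _ _
    rwa [le_div_iff₀ hK] at this
  have hc200 : c ≤ 1 / 200 := min_le_right _ _
  have hlogc : log c ≤ -5 := by
    have h1 : log c ≤ log (1 / 200 : ℝ) := log_le_log hc0 hc200
    have h2 : log (1 / 200 : ℝ) ≤ -5 := by
      rw [log_le_iff_le_exp (by norm_num)]
      have h3 : exp 5 ≤ 200 := by
        have he : exp 1 < (2.7182818286 : ℝ) := exp_one_lt_d9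
        have h4 : exp 5 = exp 1 ^ 5 := by rw [← exp_nat_mul]; norm_num
        rw [h4]
        calc exp 1 ^ 5 ≤ (2.7182818286 : ℝ) ^ 5 :=
              pow_le_pow_left₀ (exp_pos _).le he.le 5
          _ ≤ 200 := by norm_num
      rw [exp_neg]
      rw [one_div]
      exact inv_anti₀ (exp_pos _) h3
    linarith
  refine ⟨c, hc0, ?_⟩
  intro N hN hperf P hP hPN
  have hN0 : 0 < N := hperf.2
  have hNr : (1 : ℝ) ≤ N := by exact_mod_cast hN0
  have hNp : (0 : ℝ) < N := by linarith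
  set x := log (N : ℝ) with hx
  -- from logarithms to the statement
  have key : log c + 3 * log P + c * x ^ θ ≤ x →
      c * (P : ℝ) ^ 3 * exp (x ^ θ) ^ c ≤ N := by
    intro hz
    have hP0 : (0 : ℝ) < P := by exact_mod_cast hP.pos
    rw [← log_le_log_iff (by positivity) hNp, log_mul (by positivity) (by positivity),
      log_rpow (exp_pos _), log_exp, log_mul (by positivity) (by positivity), log_pow]
    push_cast
    linarith
  have hx1 : 1 ≤ x := by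
    have h3 : 3 ≤ N := by
      have h4 := Nat.le_of_dvd hN0 hPN
      have h5 := hP.two_le
      obtain ⟨j, hj⟩ := hN
      omega
    have h3' : (3 : ℝ) ≤ N := by exact_mod_cast h3
    rw [hx, le_log_iff_exp_le hNp]
    have h4 : exp 1 < 2.7182818286 := exp_one_lt_d9
    linarith
  have hxθ : x ^ θ ≤ x := by
    calc x ^ θ ≤ x ^ (1 : ℝ) := rpow_le_rpow_of_exponent_le hx1 (by linarith)
      _ = x := rpow_one _
  have hxθ0 : 0 ≤ x ^ θ := rpow_nonneg (by linarith) _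
  have hcx : c * x ^ θ ≤ 1 / 200 * x := mul_le_mul hc200 hxθ hxθ0 (by norm_num)
  have hlP : 0 ≤ log (P : ℝ) := log_natCast_nonneg P
  have hfac : N.factorization P = 1 ∨ 2 ≤ N.factorization P := by
    have := hP.factorization_pos_of_dvd hN0.ne' hPN
    omega
  rcases hfac with h3 | h3
  · rcases le_or_gt x (6 * log (P : ℝ)) with h4 | h4
    · obtain ⟨q, hq, hqN, hPq⟩ := LP.exists_payer hN hperf hP h3
      obtain ⟨F, hF, hs, hF2⟩ := hall hN hperf hP h3 hq hqN hPq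
      exact LP_toN hc0 hcK (by linarith) (Nat.cast_nonneg _) hNp.le hF hs (hF2 h4)
    · apply key
      linarith
  · apply key
    have h1 := LP.pow_four_le hN hperf hP h3
    have hP0 : (0 : ℝ) < P := by exact_mod_cast hP.pos
    have h2 : (P : ℝ) ^ 4 ≤ 2 * N := by exact_mod_cast h1
    have h4 := log_le_log (by positivity) h2
    rw [log_pow, log_mul (by norm_num) (by positivity)] at h4
    have h5 : log 2 < (0.6931471808 : ℝ) := log_two_lt_d9
    push_cast at h4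
    linarith

/-- the bound for every prime factor, `0 ≤ θ < 4 / 7` -/
theorem LP_first {θ : ℝ} (hθ0 : 0 ≤ θ) (hθ : θ < 4 / 7) : ∃ c : ℝ, 0 < c ∧
    ∀ N : ℕ, Odd N → Nat.Perfect N → ∀ P : ℕ, P.Prime → P ∣ N →
      (P : ℝ) ^ 3 * exp (c * log N ^ θ) < 3 * N := by
  obtain ⟨c₀, hc₀, h⟩ := LP_pre4 hθ0 hθ
  obtain ⟨c₁, hc₁, h1⟩ := LP.final2
  set K : ℝ := 1 + 2 / c₀ * |log (1 / c₀)| with hK
  have hK1 : 1 ≤ K := by
    have : 0 ≤ 2 / c₀ * |log (1 / c₀)| := by positivity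
    linarith
  have hK0 : 0 < K := by linarith
  set c := min (c₀ / 2) (c₁ / K) with hc
  have hc0 : 0 < c := lt_min (by positivity) (by positivity)
  have hcc : c ≤ c₀ / 2 := min_le_left _ _
  have hcK : c * K ≤ c₁ := by
    have : c ≤ c₁ / K := min_le_right _ _
    rwa [le_div_iff₀ hK0] at this
  have hcl : c * (2 / c₀ * log (1 / c₀)) ≤ c₁ := by
    refine le_trans (mul_le_mul_of_nonneg_left ?_ hc0.le) hcK
    have h2 : 2 / c₀ * log (1 / c₀) ≤ 2 / c₀ * |log (1 / c₀)| :=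
      mul_le_mul_of_nonneg_left (le_abs_self _) (by positivity)
    linarith
  refine ⟨c, hc0, ?_⟩
  intro N hN hperf P hP hPN
  have hA1 := h N hN hperf P hP hPN
  obtain ⟨hB1, -, -⟩ := h1 N hN hperf
  have hN1 : (1 : ℝ) ≤ N := by exact_mod_cast hperf.2
  have hNp : (0 : ℝ) < N := by linarith
  have hN3 : 3 ≤ N := by
    have h4 := Nat.le_of_dvd hperf.2 hPN
    have h5 := hP.two_le
    obtain ⟨j, hj⟩ := hN
    omega
  have hx1 : 1 ≤ log (N : ℝ) := by
    have h2 : log 3 ≤ log (N : ℝ) := log_le_log (by norm_num) (by exact_mod_cast hN3)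
    exact LP.log3_ge.trans h2
  have hy1 : 1 ≤ √(log (N : ℝ)) := by
    rw [one_le_sqrt]
    exact hx1
  have hP0 : (0 : ℝ) < P := by exact_mod_cast hP.pos
  have h2 : exp (c * log (N : ℝ) ^ θ) = exp (log (N : ℝ) ^ θ) ^ c := by
    rw [← exp_mul]; congr 1; ring
  rw [h2]
  exact LP_absorb hc₀ hc0 hcc hc₁.le hcl hP0 (one_le_exp (rpow_nonneg (by linarith) _)) hy1 hNp
    hA1 (hB1 P hP hPN)

/-- The final statement. -/
theorem LP_final4 (θ : ℝ) (hθ : θ < 4 / 7) : ∃ c : ℝ, 0 < c ∧ ∀ N : ℕ, Odd N → Nat.Perfect N →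
    (∀ P : ℕ, P.Prime → P ∣ N → (P : ℝ) ^ 3 * exp (c * log N ^ θ) < 3 * N) ∧
    (∀ B : ℕ, (∀ p : ℕ, N.factorization p ≤ B) → ∀ P : ℕ, P.Prime → P ∣ N →
      (P : ℝ) ^ (3 + c / (Nat.primeCounting (B + 1) : ℝ)) < 3 * N) ∧
    (∀ P q : ℕ, P.Prime → N.factorization P = 1 → q.Prime → q ∣ N →
      P ∣ sigma 1 (q ^ N.factorization q) →
      (P : ℝ) ^ 3 * ((2 : ℝ) ^ N.factorization q * q) ^ c < 3 * N ∧
      (P : ℝ) ^ (3 + c / ((q - 1).primeFactors.card : ℝ)) < 3 * N) := by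
  obtain ⟨c₁, hc₁, h1⟩ := LP_first (θ := max θ 0) (le_max_right _ _)
    (max_lt hθ (by norm_num))
  obtain ⟨c₂, hc₂, h2⟩ := LP_final3
  set c := min c₁ c₂ with hc
  have hc0 : 0 < c := lt_min hc₁ hc₂
  have hcc₁ : c ≤ c₁ := min_le_left _ _
  have hcc₂ : c ≤ c₂ := min_le_right _ _
  refine ⟨c, hc0, ?_⟩
  intro N hN hperf
  obtain ⟨-, hB2, hB3⟩ := h2 N hN hperf
  have hmono : ∀ (P : ℕ) (n : ℕ), P.Prime → (P : ℝ) ^ (3 + c₂ / (n : ℝ)) < 3 * N →
      (P : ℝ) ^ (3 + c / (n : ℝ)) < 3 * N := by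
    intro P n hP h3
    refine lt_of_le_of_lt (rpow_le_rpow_of_exponent_le ?_ ?_) h3
    · exact_mod_cast hP.one_lt.le
    · have h4 : c / (n : ℝ) ≤ c₂ / (n : ℝ) := div_le_div_of_nonneg_right hcc₂ (Nat.cast_nonneg _)
      linarith
  refine ⟨?_, ?_, ?_⟩
  · intro P hP hPN
    have hP0 : (0 : ℝ) < P := by exact_mod_cast hP.pos
    have hN3 : 3 ≤ N := by
      have h4 := Nat.le_of_dvd hperf.2 hPN
      have h5 := hP.two_le
      obtain ⟨j, hj⟩ := hN
      omega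
    have hx1 : 1 ≤ log (N : ℝ) := by
      have h2 : log 3 ≤ log (N : ℝ) := log_le_log (by norm_num) (by exact_mod_cast hN3)
      exact LP.log3_ge.trans h2
    refine lt_of_le_of_lt ?_ (h1 N hN hperf P hP hPN)
    apply mul_le_mul_of_nonneg_left _ (by positivity)
    rw [exp_le_exp]
    have h3 : log (N : ℝ) ^ θ ≤ log (N : ℝ) ^ (max θ 0) :=
      rpow_le_rpow_of_exponent_le hx1 (le_max_left _ _)
    exact mul_le_mul hcc₁ h3 (rpow_nonneg (by linarith) _) hc₁.le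
  · intro B hB P hP hPN
    exact hmono P _ hP (hB2 B hB P hP hPN)
  · intro P q hP hPN hq hqN hPq
    obtain ⟨h3, h4⟩ := hB3 P q hP hPN hq hqN hPq
    refine ⟨?_, hmono P _ hP h4⟩
    have hw : (1 : ℝ) ≤ (2 : ℝ) ^ N.factorization q * q := by
      have h5 : (1 : ℝ) ≤ (2 : ℝ) ^ N.factorization q := one_le_pow₀ (by norm_num)
      have h6 : (1 : ℝ) ≤ q := by exact_mod_cast hq.one_lt.le
      nlinarith
    refine lt_of_le_of_lt ?_ h3
    exact mul_le_mul_of_nonneg_left (rpow_le_rpow_of_exponent_le hw hcc₂) (by positivity)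

end Pool.Agent.Lib.MP_f02ea4_nt.BK
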