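import Pool.Agent.Lib.MP_f02ea4_nt.BK.Pair
import Pool.Agent.Lib.MP_f02ea4_nt.BK.Core

/-! The core statement without hypothesis. -/

set_option autoImplicit false

namespace Pool.Agent.Lib.MP_f02ea4_nt.BK

open Finset Real
open Pool.Agent.Lib.MP_f02ea4_nt.LP

theorem core (K : ℝ) (hK : 1 ≤ K) (ε : ℝ) (hε : 0 < ε) : ∃ c : ℝ, 0 < c ∧
    ∀ (p : ℕ) (S : Finset ℕ) (a s κ : ℕ → ℕ) (D I : ℝ), p.Prime → p ≠ 2 → Fam1 p S a s κ →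
      1 ≤ D → 1 ≤ I → (∀ r ∈ S, (κ r : ℝ) * log p ≤ K * I) → ∑ r ∈ S, log (s r : ℝ) ≤ I →
      D ≤ K * log p * I → D ≤ K * ∑ r ∈ S, (κ r : ℝ) * log p →
      c * D ^ ((4 : ℝ) / 7 - ε) ≤ I :=
  core_of_pair pair_bound K hK ε hε

end Pool.Agent.Lib.MP_f02ea4_nt.BK
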