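import Mathlib
import Pool.Agent.Lib.MP_f02ea4_nt.MlB

/-! Baker's theorem with parameters, second final step: for one index `i0` the polynomial kills all the points of the
box with `m0 ≤ l_0 < m0 + V` (except the chosen one), so the last range `S1` can be smaller by the factor `V`. -/

set_option autoImplicit false

namespace Pool.Agent.Lib.MP_f02ea4_nt.BK

open Finset Real
open Pool.Agent.Lib.MP_f02ea4_nt.Ml

section
variable {t L0 L : ℕ}

/-- the index set of the roots of `q2pol` -/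
def q2set (L V u : ℕ) : Finset (ℕ × ℕ) := (range L ×ˢ range V).erase (u, 0)

/-- `∏ (X - (b0 a + bi (m + j)))` over `a < L`, `j < V`, `(a, j) ≠ (u, 0)` -/
noncomputable def q2pol (L V u : ℕ) (b0 bi m : ℤ) : Polynomial ℤ :=
  ∏ a ∈ q2set L V u, (Polynomial.X - Polynomial.C (b0 * (a.1 : ℤ) + bi * (m + (a.2 : ℤ))))

lemma q2set_card (L V u : ℕ) (hu : u < L) (hV : 1 ≤ V) : (q2set L V u).card < V * L := by
  unfold q2set
  have hmem : (u, 0) ∈ range L ×ˢ range V := by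
    rw [mem_product]
    exact ⟨mem_range.2 hu, mem_range.2 hV⟩
  rw [card_erase_of_mem hmem, card_product, card_range, card_range, mul_comm V L]
  have : 0 < L * V := Nat.mul_pos (by omega) hV
  omega

lemma q2pol_degree (L V u : ℕ) (hu : u < L) (hV : 1 ≤ V) (b0 bi m : ℤ) :
    (q2pol L V u b0 bi m).natDegree < V * L := by
  unfold q2pol
  rw [Polynomial.natDegree_prod_of_monic _ _ (fun a _ => Polynomial.monic_X_sub_C _)]
  simp only [Polynomial.natDegree_X_sub_C, sum_const, smul_eq_mul, mul_one]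
  exact q2set_card L V u hu hV

lemma q2pol_eval (L V u : ℕ) (b0 bi m x : ℤ) :
    (q2pol L V u b0 bi m).eval x = ∏ a ∈ q2set L V u, (x - (b0 * (a.1 : ℤ) + bi * (m + (a.2 : ℤ)))) := by
  unfold q2pol
  rw [Polynomial.eval_prod]
  refine prod_congr rfl (fun a _ => ?_)
  rw [Polynomial.eval_sub, Polynomial.eval_X, Polynomial.eval_C]

lemma q2pol_zero (L V u v j : ℕ) (hv : v < L) (hj : j < V) (h : (v, j) ≠ (u, 0)) (b0 bi m : ℤ) :
    (q2pol L V u b0 bi m).eval (b0 * (v : ℤ) + bi * (m + (j : ℤ))) = 0 := by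
  rw [q2pol_eval]
  refine prod_eq_zero (i := (v, j)) ?_ (by simp)
  unfold q2set
  rw [mem_erase, mem_product]
  exact ⟨h, mem_range.2 hv, mem_range.2 hj⟩

lemma q2pol_val (L V u Bb : ℕ) (Z : ℤ) (hZ1 : 1 ≤ Z) (hZ : (Bb : ℤ) * (L + V) ≤ Z) (hu : u < L)
    (hV : 1 ≤ V) (b0 bi m : ℤ) (hb : b0 ≠ 0) (hb0 : |b0| ≤ Bb) (hbi : |bi| ≤ Bb)
    (hbb : |b0| * L ≤ |bi|) :
    (q2pol L V u b0 bi m).eval (b0 * (u : ℤ) + bi * m) ≠ 0 ∧
      |(q2pol L V u b0 bi m).eval (b0 * (u : ℤ) + bi * m)| ≤ Z ^ (V * L) := by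
  rw [q2pol_eval]
  have hBb : (0 : ℤ) ≤ Bb := Int.natCast_nonneg _
  constructor
  · rw [prod_ne_zero_iff]
    intro a ha
    unfold q2set at ha
    rw [mem_erase, mem_product, mem_range, mem_range] at ha
    obtain ⟨h1, h2, h3⟩ := ha
    have h4 : b0 * (u : ℤ) + bi * m - (b0 * (a.1 : ℤ) + bi * (m + (a.2 : ℤ))) =
        b0 * ((u : ℤ) - a.1) - bi * a.2 := by ring
    rw [h4]
    intro h5
    have h6 : b0 * ((u : ℤ) - a.1) = bi * a.2 := by linarith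
    rcases Nat.eq_zero_or_pos a.2 with h0 | h0
    · rw [h0] at h6
      have h7 : (u : ℤ) - a.1 = 0 := by
        have : b0 * ((u : ℤ) - a.1) = 0 := by rw [h6]; simp
        exact (mul_eq_zero.1 this).resolve_left hb
      have h8 : a.1 = u := by omega
      exact h1 (Prod.ext h8 h0)
    · have h7 : |b0| * |(u : ℤ) - a.1| = |bi| * |(a.2 : ℤ)| := by rw [← abs_mul, ← abs_mul, h6]
      have h8 : |(u : ℤ) - a.1| < L := by
        rw [abs_lt]
        constructor <;> omega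
      have h9 : (1 : ℤ) ≤ |(a.2 : ℤ)| := by
        rw [abs_of_nonneg (Int.natCast_nonneg _)]
        exact_mod_cast h0
      have h10 : 0 < |b0| := abs_pos.2 hb
      have h11 : |b0| * |(u : ℤ) - a.1| < |b0| * L := mul_lt_mul_of_pos_left h8 h10
      have h12 : |bi| * 1 ≤ |bi| * |(a.2 : ℤ)| := mul_le_mul_of_nonneg_left h9 (abs_nonneg _)
      linarith
  · rw [abs_prod]
    have h3 : ∏ a ∈ q2set L V u, |b0 * (u : ℤ) + bi * m - (b0 * (a.1 : ℤ) + bi * (m + (a.2 : ℤ)))| ≤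
        ∏ _a ∈ q2set L V u, Z := by
      refine prod_le_prod (fun _ _ => abs_nonneg _) (fun a ha => ?_)
      unfold q2set at ha
      rw [mem_erase, mem_product, mem_range, mem_range] at ha
      obtain ⟨-, h2, h3⟩ := ha
      have h4 : b0 * (u : ℤ) + bi * m - (b0 * (a.1 : ℤ) + bi * (m + (a.2 : ℤ))) =
          b0 * ((u : ℤ) - a.1) - bi * a.2 := by ring
      rw [h4]
      have h5 : |b0 * ((u : ℤ) - a.1)| ≤ Bb * L := by
        rw [abs_mul]
        refine mul_le_mul hb0 ?_ (abs_nonneg _) hBb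
        rw [abs_le]
        constructor <;> omega
      have h6 : |bi * (a.2 : ℤ)| ≤ Bb * V := by
        rw [abs_mul]
        refine mul_le_mul hbi ?_ (abs_nonneg _) hBb
        rw [abs_le]
        constructor <;> omega
      have h7 := abs_sub (b0 * ((u : ℤ) - a.1)) (bi * a.2)
      have h8 : (Bb : ℤ) * (L + V) = Bb * L + Bb * V := by ring
      linarith
    refine h3.trans ?_
    rw [prod_const]
    exact pow_le_pow_right₀ hZ1 (q2set_card L V u hu hV).le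

/-- `comb_zero` with an arbitrary bound `K` of the degrees -/
lemma comb_zero2 (D : BD t) (c : Ix t L0 L → ℤ) (s K : ℕ)
    (h : ∀ k : Fin t → ℕ, (∀ i, k i < K) → D.Phi c k s = 0) (q : Fin t → Polynomial ℤ)
    (hq : ∀ i, (q i).natDegree < K) :
    ∑ l, c l * (∏ i, (q i).eval (D.z l i)) * (D.val s l : ℤ) = 0 := by
  have h1 : ∀ l : Ix t L0 L, ∏ i, (q i).eval (D.z l i) =
      ∑ k ∈ Fintype.piFinset (fun _ : Fin t => range K), (∏ i, (q i).coeff (k i)) * D.mon k l := by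
    intro l
    have h2 : ∀ i, (q i).eval (D.z l i) = ∑ j ∈ range K, (q i).coeff j * D.z l i ^ j :=
      fun i => Polynomial.eval_eq_sum_range' (hq i) _
    simp only [h2]
    rw [prod_univ_sum]
    refine sum_congr rfl (fun k _ => ?_)
    rw [prod_mul_distrib]
    rfl
  have h3 : ∑ l, c l * (∏ i, (q i).eval (D.z l i)) * (D.val s l : ℤ) =
      ∑ k ∈ Fintype.piFinset (fun _ : Fin t => range K), (∏ i, (q i).coeff (k i)) * D.Phi c k s := by
    simp only [h1, BD.Phi, mul_sum, sum_mul]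
    rw [sum_comm]
    refine sum_congr rfl (fun k _ => sum_congr rfl (fun l _ => ?_))
    ring
  rw [h3]
  refine sum_eq_zero (fun k hk => ?_)
  rw [h k (fun i => mem_range.mp (Fintype.mem_piFinset.mp hk i)), mul_zero]

/-- THE FINAL CONGRUENCE, second form. -/
lemma final_dvd2 (D : BD t) (Bb V : ℕ) (i0 : Fin t) (hV : 1 ≤ V) (hb0 : |D.b0| ≤ Bb)
    (hb : ∀ i, |D.b i| ≤ Bb) (hbi : |D.b0| * L ≤ |D.b i0|) (Z : ℤ) (hZ1 : 1 ≤ Z)
    (hZ : (Bb : ℤ) * (L + V) ≤ Z) (c : Ix t L0 L → ℤ) (hc0 : c ≠ 0) (s : ℕ)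
    (h : ∀ k : Fin t → ℕ, (∀ i, k i < V * L) → D.Phi c k s = 0) :
    ∃ (l : Ix t L0 L) (P : ℤ), c l ≠ 0 ∧ P ≠ 0 ∧ |P| ≤ Z ^ (t * (V * L)) ∧
      (D.A : ℤ) ^ (s * V) ∣ c l * P := by
  classical
  obtain ⟨l0, hl0⟩ := Function.ne_iff.1 hc0
  obtain ⟨ls, hls, hmin⟩ := Finset.exists_min_image (Finset.univ.filter fun l => c l ≠ 0)
    (fun l : Ix t L0 L => (l.1 : ℕ)) ⟨l0, by simpa using hl0⟩
  rw [Finset.mem_filter] at hls
  have hcs : c ls ≠ 0 := hls.2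
  set q : Fin t → Polynomial ℤ := fun i =>
    if i = i0 then q2pol L V (ls.2 i : ℕ) D.b0 (D.b i) ((ls.1 : ℕ) : ℤ)
    else qpol L (ls.2 i : ℕ) D.b0 (D.b i) ((ls.1 : ℕ) : ℤ) with hq
  have hLV : L ≤ V * L := Nat.le_mul_of_pos_left L hV
  have hdeg : ∀ i, (q i).natDegree < V * L := by
    intro i
    rw [hq]
    by_cases hi : i = i0
    · simp only [if_pos hi]
      exact q2pol_degree L V _ (ls.2 i).2 hV _ _ _
    · simp only [if_neg hi]
      exact lt_of_lt_of_le (qpol_degree L _ (ls.2 i).2 _ _ _) hLV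
  have hsum := comb_zero2 D c s (V * L) h q hdeg
  set P : ℤ := ∏ i, (q i).eval (D.z ls i) with hP
  have hZL : (Bb : ℤ) * L ≤ Z := by
    have : (0 : ℤ) ≤ (Bb : ℤ) * V := by positivity
    nlinarith
  have hval : ∀ i, (q i).eval (D.z ls i) ≠ 0 ∧ |(q i).eval (D.z ls i)| ≤ Z ^ (V * L) := by
    intro i
    by_cases hi : i = i0
    · have h1 : q i = q2pol L V (ls.2 i : ℕ) D.b0 (D.b i) ((ls.1 : ℕ) : ℤ) := by
        rw [hq]; simp only [if_pos hi]
      rw [h1]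
      exact q2pol_val L V (ls.2 i : ℕ) Bb Z hZ1 hZ (ls.2 i).2 hV D.b0 (D.b i) ((ls.1 : ℕ) : ℤ)
        D.hb0 hb0 (hb i) (by rw [hi]; exact hbi)
    · have h1 : q i = qpol L (ls.2 i : ℕ) D.b0 (D.b i) ((ls.1 : ℕ) : ℤ) := by
        rw [hq]; simp only [if_neg hi]
      rw [h1]
      have h2 := qpol_val L (ls.2 i : ℕ) Bb (ls.2 i).2 D.b0 (D.b i) ((ls.1 : ℕ) : ℤ) D.hb0 hb0
      refine ⟨h2.1, h2.2.trans ?_⟩
      have h3 : (0 : ℤ) ≤ (Bb : ℤ) * L := by positivity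
      exact (pow_le_pow_left₀ h3 hZL L).trans (pow_le_pow_right₀ hZ1 hLV)
  have hP0 : P ≠ 0 := Finset.prod_ne_zero_iff.2 fun i _ => (hval i).1
  refine ⟨ls, P, hcs, hP0, ?_, ?_⟩
  · rw [hP, Finset.abs_prod]
    refine (Finset.prod_le_prod (fun i _ => abs_nonneg _) fun i _ => (hval i).2).trans ?_
    rw [Finset.prod_const, Finset.card_univ, Fintype.card_fin, ← pow_mul, mul_comm (V * L) t]
  have hother : ∀ l ∈ Finset.univ.erase ls, (D.A : ℤ) ^ (s * ((ls.1 : ℕ) + V)) ∣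
      c l * (∏ i, (q i).eval (D.z l i)) * (D.val s l : ℤ) := by
    intro l hl
    have hne : l ≠ ls := Finset.ne_of_mem_erase hl
    by_cases hcl : c l = 0
    · rw [hcl, zero_mul, zero_mul]
      exact dvd_zero _
    have hge : (ls.1 : ℕ) ≤ (l.1 : ℕ) := hmin l (Finset.mem_filter.2 ⟨Finset.mem_univ _, hcl⟩)
    by_cases hVl : (ls.1 : ℕ) + V ≤ (l.1 : ℕ)
    · have h1 : (D.A : ℤ) ^ (s * ((ls.1 : ℕ) + V)) ∣ (D.A : ℤ) ^ (s * (l.1 : ℕ)) :=
        pow_dvd_pow _ (Nat.mul_le_mul_left _ hVl)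
      have h2 : (D.A : ℤ) ^ (s * (l.1 : ℕ)) ∣ (D.val s l : ℤ) := by
        rw [BD.val]
        push_cast
        exact (dvd_mul_left _ _).mul_right _
      exact (h1.trans h2).trans (Dvd.intro_left _ rfl)
    · rw [not_le] at hVl
      obtain ⟨j, hj⟩ := Nat.exists_eq_add_of_le hge
      have hjV : j < V := by omega
      -- one factor vanishes
      suffices hz : ∃ i, (q i).eval (D.z l i) = 0 by
        obtain ⟨i, hi⟩ := hz
        rw [Finset.prod_eq_zero (Finset.mem_univ i) hi, mul_zero, zero_mul]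
        exact dvd_zero _
      by_cases hi0 : ((l.2 i0 : ℕ), j) ≠ ((ls.2 i0 : ℕ), 0)
      · refine ⟨i0, ?_⟩
        have h1 : q i0 = q2pol L V (ls.2 i0 : ℕ) D.b0 (D.b i0) ((ls.1 : ℕ) : ℤ) := by
          rw [hq]; simp
        rw [h1, BD.z, hj]
        have h2 := q2pol_zero L V (ls.2 i0 : ℕ) (l.2 i0 : ℕ) j (l.2 i0).2 hjV hi0 D.b0 (D.b i0)
          ((ls.1 : ℕ) : ℤ)
        push_cast
        exact h2
      · rw [not_not, Prod.mk.injEq] at hi0
        have h1 : l.1 = ls.1 := Fin.ext (by omega)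
        have h2 : l.2 ≠ ls.2 := fun h2 => hne (Prod.ext h1 h2)
        obtain ⟨i, hi⟩ := Function.ne_iff.1 h2
        have hii : i ≠ i0 := by
          rintro rfl
          exact hi (Fin.ext hi0.1)
        refine ⟨i, ?_⟩
        have h3 : q i = qpol L (ls.2 i : ℕ) D.b0 (D.b i) ((ls.1 : ℕ) : ℤ) := by
          rw [hq]; simp only [if_neg hii]
        have h4 := qpol_zero L (ls.2 i : ℕ) (l.2 i : ℕ) (l.2 i).2
          (fun h5 => hi (Fin.ext h5)) D.b0 (D.b i) ((ls.1 : ℕ) : ℤ)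
        rw [h3, BD.z, h1]
        exact h4
  have hmain : (D.A : ℤ) ^ (s * ((ls.1 : ℕ) + V)) ∣ c ls * P * (D.val s ls : ℤ) := by
    rw [← Finset.add_sum_erase _ _ (Finset.mem_univ ls)] at hsum
    have h1 := Finset.dvd_sum hother
    have h2 : c ls * P * (D.val s ls : ℤ) = -∑ l ∈ Finset.univ.erase ls,
        c l * (∏ i, (q i).eval (D.z l i)) * (D.val s l : ℤ) := eq_neg_of_add_eq_zero_left hsum
    rw [h2]
    exact (dvd_neg).2 h1
  have hA0 : (D.A : ℤ) ≠ 0 := by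
    have := D.hBA
    have : D.A ≠ 0 := by omega
    exact_mod_cast this
  set R : ℤ := (∏ i, (D.a i : ℤ) ^ (s * (ls.2 i : ℕ))) * (D.B : ℤ) ^ (s * (L0 - (ls.1 : ℕ)))
    with hR
  have hv : (D.val s ls : ℤ) = (D.A : ℤ) ^ (s * (ls.1 : ℕ)) * R := by
    rw [BD.val, hR]
    push_cast
    ring
  have h3 : (D.A : ℤ) ^ (s * (ls.1 : ℕ)) * (D.A : ℤ) ^ (s * V) ∣
      (D.A : ℤ) ^ (s * (ls.1 : ℕ)) * (c ls * P * R) := by
    rw [← pow_add]
    have e : s * (ls.1 : ℕ) + s * V = s * ((ls.1 : ℕ) + V) := by ring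
    rw [e]
    have e2 : (D.A : ℤ) ^ (s * (ls.1 : ℕ)) * (c ls * P * R) = c ls * P * (D.val s ls : ℤ) := by
      rw [hv]
      ring
    rw [e2]
    exact hmain
  have h4 : (D.A : ℤ) ^ (s * V) ∣ c ls * P * R := (mul_dvd_mul_iff_left (pow_ne_zero _ hA0)).1 h3
  have hcop : IsCoprime ((D.A : ℤ) ^ (s * V)) R := by
    refine IsCoprime.pow_left ?_
    rw [hR]
    refine IsCoprime.mul_right ?_ ?_
    · refine IsCoprime.prod_right fun i _ => IsCoprime.pow_right ?_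
      exact Nat.isCoprime_iff_coprime.2 (D.hAa i)
    · exact IsCoprime.pow_right (Nat.isCoprime_iff_coprime.2 D.hAB)
  exact hcop.dvd_of_dvd_mul_right h4

/-- logarithms: `s V log A ≤ log Cc + t V L log Z` -/
lemma final_log2 (D : BD t) (Bb V Z : ℕ) (i0 : Fin t) (hV : 1 ≤ V) (hb0 : |D.b0| ≤ Bb)
    (hb : ∀ i, |D.b i| ≤ Bb) (hbi : |D.b0| * L ≤ |D.b i0|) (hZ1 : 1 ≤ Z)
    (hZ : Bb * (L + V) ≤ Z) (c : Ix t L0 L → ℤ) (hc0 : c ≠ 0) (s : ℕ)
    (h : ∀ k : Fin t → ℕ, (∀ i, k i < V * L) → D.Phi c k s = 0) (Cc : ℝ)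
    (hc : ∀ l, |(c l : ℝ)| ≤ Cc) :
    s * V * log D.A ≤ log Cc + t * (V * L) * log Z := by
  obtain ⟨l, P, hcl, hP0, hP, hdvd⟩ := final_dvd2 D Bb V i0 hV hb0 hb hbi (Z : ℤ)
    (by exact_mod_cast hZ1) (by exact_mod_cast hZ) c hc0 s h
  have hne : c l * P ≠ 0 := mul_ne_zero hcl hP0
  have h1 : (D.A : ℤ) ^ (s * V) ≤ |c l * P| := by
    have h2 := Int.le_of_dvd (abs_pos.2 hne) ((dvd_abs _ _).2 hdvd)
    exact h2
  have h2 : ((D.A : ℝ)) ^ (s * V) ≤ |(c l : ℝ)| * |(P : ℝ)| := by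
    have h3 : (((D.A : ℤ) ^ (s * V) : ℤ) : ℝ) ≤ ((|c l * P| : ℤ) : ℝ) := by exact_mod_cast h1
    rw [← abs_mul]
    push_cast at h3
    exact h3
  have hPR : |(P : ℝ)| ≤ (Z : ℝ) ^ (t * (V * L)) := by
    have h3 : ((|P| : ℤ) : ℝ) ≤ (((Z : ℤ) ^ (t * (V * L)) : ℤ) : ℝ) := by exact_mod_cast hP
    push_cast at h3
    exact h3
  have hP1 : (1 : ℝ) ≤ |(P : ℝ)| := by
    have h3 : ((1 : ℤ) : ℝ) ≤ ((|P| : ℤ) : ℝ) := by exact_mod_cast Int.one_le_abs hP0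
    push_cast at h3
    exact h3
  have hc1 : (1 : ℝ) ≤ |(c l : ℝ)| := by
    have h3 : ((1 : ℤ) : ℝ) ≤ ((|c l| : ℤ) : ℝ) := by exact_mod_cast Int.one_le_abs hcl
    push_cast at h3
    exact h3
  have hA0 : (0 : ℝ) < D.A := by
    have := D.hBA
    have : 0 < D.A := by omega
    exact_mod_cast this
  have hCc : 0 < Cc := by linarith [hc l]
  have hX : 0 < (Z : ℝ) ^ (t * (V * L)) := by linarith
  have h4 : ((D.A : ℝ)) ^ (s * V) ≤ Cc * (Z : ℝ) ^ (t * (V * L)) :=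
    h2.trans (mul_le_mul (hc l) hPR (abs_nonneg _) hCc.le)
  have h5 := Real.log_le_log (pow_pos hA0 (s * V)) h4
  rw [Real.log_pow, Real.log_mul hCc.ne' hX.ne', Real.log_pow] at h5
  push_cast at h5
  exact h5

/-- assembly: as `baker_param`, with the second final step -/
theorem baker_param2 (D : BD t) (E : ℝ) (hE0 : 0 ≤ E) (hE : ∀ i, log (D.a i) ≤ E) (Bb : ℕ)
    (hBb : 1 ≤ Bb) (hb0 : |D.b0| ≤ Bb) (hb : ∀ i, |D.b i| ≤ Bb) (V : ℕ) (i0 : Fin t)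
    (hV : 1 ≤ V) (hVL0 : V ≤ L0) (hbi : |D.b0| * L ≤ |D.b i0|) (I m S0 F : ℕ) (hL0 : 1 ≤ L0)
    (hL : 1 ≤ L) (hI : 1 ≤ I) (hm : 1 ≤ m) (hS0 : 1 ≤ S0) (hF : 1 ≤ F)
    (h1 : 81 * (F * D.Om E L0 L) ≤ m)
    (h2 : 2 * ((2 * I * m) ^ t * S0) ≤ NN t L0 L)
    (h3 : 2 * log (NN t L0 L) + 2 * (t * (2 * I * m)) * log (Bb * (L + L0)) +
      S0 * D.Om E L0 L ≤ m * S0)
    (h4 : V * L ≤ I * m)
    (h5 : m * S0 < ((F ^ I * S0 : ℕ) - 1 : ℝ) * V * log D.A) :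
    1 / 4 < (4 * (F ^ I * S0 : ℕ) * (m + 1) : ℝ) ^ (m * (F ^ I * S0)) * (t * E + 1) ^ m *
      exp (m * S0) * exp (2 * (F ^ I * S0 : ℕ) * D.Om E L0 L) *
        (2 * (F ^ I * S0 : ℕ) * L0 * |D.lam|) := by
  by_contra hcon
  rw [not_lt] at hcon
  set S1 : ℕ := F ^ I * S0 with hS1
  have hS1pos : 1 ≤ S1 := Nat.mul_pos (pow_pos hF I) hS0
  have hS1R : (1 : ℝ) ≤ (S1 : ℝ) := by exact_mod_cast hS1pos
  have hLR : (1 : ℝ) ≤ L := by exact_mod_cast hL
  have hL0R : (1 : ℝ) ≤ L0 := by exact_mod_cast hL0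
  have hBR : (1 : ℝ) ≤ Bb := by exact_mod_cast hBb
  set Z : ℝ := (Bb : ℝ) * (L + L0) with hZdef
  have hZ1 : 1 ≤ Z := by
    rw [hZdef]
    nlinarith
  have hZ0 : 0 < Z := by linarith
  have hZ : ∀ (l : Ix t L0 L) i, |(D.z l i : ℝ)| ≤ Z := fun l i => z_le D Bb hb0 hb l i
  have hNNpos : 0 < NN t L0 L := by
    unfold NN
    exact Nat.mul_pos hL0 (pow_pos hL t)
  have hNNR : (1 : ℝ) ≤ (NN t L0 L : ℝ) := by exact_mod_cast hNNpos
  have hK : 1 ≤ 2 * I * m := by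
    have : 0 < 2 * I * m := by positivity
    exact this
  obtain ⟨c, hc0, hPhi, hc⟩ := siegel D E hE0 hE Z hZ1 hZ (2 * I * m) S0 hK hS0 h2
  set Om : ℝ := D.Om E L0 L with hOm
  have hOm1 : 1 ≤ Om := Om_ge_one D E hE0 L0 L
  set Cc : ℝ := (NN t L0 L : ℝ) * (Z ^ (t * (2 * I * m)) * exp (S0 * Om)) with hCc
  have hCcpos : 0 < Cc := by rw [hCc]; positivity
  have hlogNN : 0 ≤ log (NN t L0 L : ℝ) := log_nonneg hNNR
  have hlogZ : 0 ≤ log Z := log_nonneg hZ1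
  have hlogCc : log Cc = log (NN t L0 L : ℝ) + (t * (2 * I * m)) * log Z + S0 * Om := by
    rw [hCc, log_mul (by positivity) (by positivity), log_mul (by positivity) (by positivity),
      log_pow, log_exp]
    push_cast
    ring
  have hCle : (NN t L0 L : ℝ) * Cc * Z ^ (t * (2 * I * m)) ≤ exp (m * S0) := by
    have hpos : 0 < (NN t L0 L : ℝ) * Cc * Z ^ (t * (2 * I * m)) := by positivity
    rw [← log_le_iff_le_exp hpos, log_mul (by positivity) (by positivity),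
      log_mul (by positivity) (by positivity), log_pow, hlogCc]
    push_cast
    linarith
  have htE : 1 ≤ (t : ℝ) * E + 1 := by
    have : 0 ≤ (t : ℝ) * E := mul_nonneg (Nat.cast_nonneg t) hE0
    linarith
  have hmR : (0 : ℝ) ≤ m := Nat.cast_nonneg m
  have hp1 : 1 ≤ (4 * (S1 : ℝ) * (m + 1)) ^ (m * S1) := by
    apply one_le_pow₀
    nlinarith
  have hp2 : 1 ≤ ((t : ℝ) * E + 1) ^ m := one_le_pow₀ htE
  have hp3 : 1 ≤ exp ((m : ℝ) * S0) := one_le_exp (by positivity)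
  have hp4 : 1 ≤ exp (2 * (S1 : ℝ) * Om) := one_le_exp (by positivity)
  have hsm0 : 0 ≤ 2 * (S1 : ℝ) * L0 * |D.lam| := by positivity
  have hsmall : 2 * (S1 : ℝ) * L0 * |D.lam| ≤ 1 / 4 := by
    refine le_trans ?_ hcon
    have hq1 : 1 ≤ (4 * (S1 : ℝ) * (m + 1)) ^ (m * S1) * ((t : ℝ) * E + 1) ^ m :=
      one_le_mul_of_one_le_of_one_le hp1 hp2
    have hq2 := one_le_mul_of_one_le_of_one_le hq1 hp3
    have hq3 := one_le_mul_of_one_le_of_one_le hq2 hp4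
    exact le_mul_of_one_le_left hsm0 hq3
  have hL2 : (S1 : ℝ) * L0 * |D.lam| ≤ 1 := by
    have : 0 ≤ (S1 : ℝ) * L0 * |D.lam| := by positivity
    linarith
  have hΛ : (4 * (S1 : ℝ) * (m + 1)) ^ (m * S1) * (t * E + 1) ^ m *
      (NN t L0 L * Cc * Z ^ (t * (2 * I * m))) * exp (2 * (S1 : ℝ) * Om) *
        (2 * (S1 : ℝ) * L0 * |D.lam|) ≤ 1 / 4 := by
    refine le_trans ?_ hcon
    apply mul_le_mul_of_nonneg_right _ hsm0
    apply mul_le_mul_of_nonneg_right _ (exp_pos _).le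
    apply mul_le_mul_of_nonneg_left hCle
    positivity
  have hfin := iterate D E hE0 hE Z hZ1 hZ Cc c hc I m S0 F hI hm hS0 hF h1 hCle
    hL2 hΛ hPhi
  have hlog := final_log2 D Bb V (Bb * (L + L0)) i0 hV hb0 hb hbi
    (Nat.mul_pos hBb (by omega)) (Nat.mul_le_mul_left _ (by omega)) c hc0 (S1 - 1)
    (fun k hk => hfin (S1 - 1) (by omega) k
      (fun i => lt_of_lt_of_le (hk i) h4)) Cc hc
  have hcast : ((S1 - 1 : ℕ) : ℝ) = (S1 : ℝ) - 1 := by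
    rw [Nat.cast_sub hS1pos, Nat.cast_one]
  have hZcast : ((Bb * (L + L0) : ℕ) : ℝ) = Z := by
    rw [hZdef]
    push_cast
    rfl
  rw [hcast, hlogCc, hZcast] at hlog
  have h4R : (V : ℝ) * L ≤ 2 * I * m := by
    have h4' : (V : ℝ) * L ≤ (I : ℝ) * m := by exact_mod_cast h4
    have : (0 : ℝ) ≤ (I : ℝ) * m := by positivity
    linarith
  have hlast : (t : ℝ) * (V * L) * log Z ≤ (t * (2 * I * m)) * log Z := by
    apply mul_le_mul_of_nonneg_right _ hlogZ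
    exact mul_le_mul_of_nonneg_left h4R (Nat.cast_nonneg t)
  linarith

end

end Pool.Agent.Lib.MP_f02ea4_nt.BK
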