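import Mathlib
import Pool.Agent.Lib.MP_f02ea4_nt.MlB

/-! Parameters for Baker's theorem with a small power of `E`: `F = S0 = Q`, `L0 = Q^(2t+2) E^t`,
`L = floor (L0 h / E)`, `m = ceil (81 Q Om)`, `I = 2 t + 4 + J`. -/

set_option autoImplicit false

namespace Pool.Agent.Lib.MP_f02ea4_nt.BK

open Finset Real
open Pool.Agent.Lib.MP_f02ea4_nt.Ml

/-- `L0 = Q^(2t+2) E^t` -/
def qL0 (t E Q : ℕ) : ℕ := Q ^ (2 * t + 2) * E ^ t
/-- `L = floor (L0 h / E)` -/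
noncomputable def qL (t E Q : ℕ) (h : ℝ) : ℕ := ⌊(qL0 t E Q : ℝ) * h / E⌋₊
/-- `Om = L0 h + t L E + 1` -/
noncomputable def qOm (t E Q : ℕ) (h : ℝ) : ℝ := (qL0 t E Q : ℝ) * h + t * qL t E Q h * E + 1
/-- `m = ceil (81 Q Om)` -/
noncomputable def qm (t E Q : ℕ) (h : ℝ) : ℕ := ⌈81 * ((Q : ℝ) * qOm t E Q h)⌉₊

section
variable (t E Q W I : ℕ) (ht : 1 ≤ t) (hE : 1 ≤ E) (hI : 1 ≤ I) (hW : 1 ≤ W)
  (hQ : 1000 * (t + 2) ^ 2 * I * W ≤ Q) (h : ℝ) (hh : 1 / 2 ≤ h)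

include ht hE hI hW hQ in
lemma q_basic : (1 : ℝ) ≤ t ∧ (1 : ℝ) ≤ E ∧ (1 : ℝ) ≤ I ∧ (1 : ℝ) ≤ W ∧
    1000 * ((t : ℝ) + 2) ^ 2 ≤ Q ∧ 1000 * (((t : ℝ) + 2) * I) ≤ Q ∧
    1000 * (((t : ℝ) + 2) ^ 2 * I * W) ≤ Q ∧ (9000 : ℝ) ≤ Q := by
  have ht1 : (1 : ℝ) ≤ t := by exact_mod_cast ht
  have hE1 : (1 : ℝ) ≤ E := by exact_mod_cast hE
  have hI1 : (1 : ℝ) ≤ I := by exact_mod_cast hI
  have hW1 : (1 : ℝ) ≤ W := by exact_mod_cast hW
  have hQr : 1000 * ((t : ℝ) + 2) ^ 2 * I * W ≤ Q := by exact_mod_cast hQ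
  have hT : (9 : ℝ) ≤ ((t : ℝ) + 2) ^ 2 := by nlinarith
  have hT2 : ((t : ℝ) + 2) ≤ ((t : ℝ) + 2) ^ 2 := by nlinarith
  have hIW : (1 : ℝ) ≤ (I : ℝ) * W := by nlinarith
  have h1 : ((t : ℝ) + 2) ^ 2 ≤ ((t : ℝ) + 2) ^ 2 * (I * W) := le_mul_of_one_le_right (by linarith) hIW
  have h2 : ((t : ℝ) + 2) * I ≤ ((t : ℝ) + 2) ^ 2 * (I * W) := by
    apply mul_le_mul hT2 _ (by linarith) (by linarith)
    nlinarith
  have h3 : 1000 * ((t : ℝ) + 2) ^ 2 * I * W = 1000 * (((t : ℝ) + 2) ^ 2 * (I * W)) := by ring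
  refine ⟨ht1, hE1, hI1, hW1, ?_, ?_, ?_, ?_⟩ <;> linarith

include ht hE hI hW hQ in
lemma q_L0 : (Q : ℝ) * E ≤ qL0 t E Q ∧ 1 ≤ qL0 t E Q ∧ E ≤ qL0 t E Q := by
  obtain ⟨ht1, hE1, -, -, -, -, -, hQ1⟩ := q_basic t E Q W I ht hE hI hW hQ
  have hQn : 1 ≤ Q := by
    have : (1 : ℝ) ≤ Q := by linarith
    exact_mod_cast this
  have h1 : Q * E ≤ qL0 t E Q := by
    unfold qL0
    calc Q * E = Q ^ 1 * E ^ 1 := by ring
      _ ≤ Q ^ (2 * t + 2) * E ^ t :=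
        Nat.mul_le_mul (Nat.pow_le_pow_right hQn (by omega)) (Nat.pow_le_pow_right hE ht)
  refine ⟨by exact_mod_cast h1, ?_, ?_⟩
  · exact le_trans (Nat.mul_pos hQn hE) h1
  · exact le_trans (Nat.le_mul_of_pos_left E hQn) h1

include ht hE hI hW hQ hh in
lemma q_L0_h : 2 * (E : ℝ) ≤ (qL0 t E Q : ℝ) * h ∧ 1 ≤ (qL0 t E Q : ℝ) * h := by
  obtain ⟨ht1, hE1, -, -, -, -, -, hQ1⟩ := q_basic t E Q W I ht hE hI hW hQ
  obtain ⟨h1, -, -⟩ := q_L0 t E Q W I ht hE hI hW hQ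
  have h2 : (qL0 t E Q : ℝ) * (1 / 2) ≤ (qL0 t E Q : ℝ) * h :=
    mul_le_mul_of_nonneg_left hh (Nat.cast_nonneg _)
  have h3 : (9000 : ℝ) * E ≤ Q * E := mul_le_mul_of_nonneg_right hQ1 (by linarith)
  constructor <;> linarith

include ht hE hI hW hQ hh in
/-- floor: `x/E - 1 < L ≤ x/E`, `x/E ≥ 2`. -/
lemma q_L : 1 ≤ qL t E Q h ∧ (qL t E Q h : ℝ) * E ≤ (qL0 t E Q : ℝ) * h ∧
    (qL0 t E Q : ℝ) * h ≤ 2 * E * qL t E Q h := by
  obtain ⟨h1, h2⟩ := q_L0_h t E Q W I ht hE hI hW hQ h hh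
  have hE0 : (0 : ℝ) < E := by exact_mod_cast hE
  have hx : 2 ≤ (qL0 t E Q : ℝ) * h / E := by
    rw [le_div_iff₀ hE0]; linarith
  have hfl : (qL t E Q h : ℝ) ≤ (qL0 t E Q : ℝ) * h / E := Nat.floor_le (by linarith)
  have hfl2 : (qL0 t E Q : ℝ) * h / E < (qL t E Q h : ℝ) + 1 := Nat.lt_floor_add_one _
  have hL1 : 1 ≤ qL t E Q h := by
    have h3 : (1 : ℝ) ≤ (qL t E Q h : ℝ) := by linarith
    exact_mod_cast h3
  have hL1' : (1 : ℝ) ≤ (qL t E Q h : ℝ) := by exact_mod_cast hL1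
  refine ⟨hL1, ?_, ?_⟩
  · rwa [le_div_iff₀ hE0] at hfl
  · rw [div_lt_iff₀ hE0] at hfl2
    nlinarith

include ht hE hI hW hQ hh in
/-- `Om = x + t L E + 1 ≤ (t + 2) x`, `Om ≥ 1`, `Om ≥ x`. -/
lemma q_Om : 1 ≤ qOm t E Q h ∧ (qL0 t E Q : ℝ) * h ≤ qOm t E Q h ∧
    qOm t E Q h ≤ (t + 2) * ((qL0 t E Q : ℝ) * h) := by
  obtain ⟨h1, h2⟩ := q_L0_h t E Q W I ht hE hI hW hQ h hh
  obtain ⟨h3, h4, h5⟩ := q_L t E Q W I ht hE hI hW hQ h hh
  have hp : 0 ≤ (t : ℝ) * qL t E Q h * E := by positivity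
  have hle : (t : ℝ) * qL t E Q h * E ≤ t * ((qL0 t E Q : ℝ) * h) := by
    rw [mul_assoc]
    exact mul_le_mul_of_nonneg_left h4 (Nat.cast_nonneg _)
  unfold qOm
  refine ⟨by linarith, by linarith, ?_⟩
  nlinarith

include ht hE hI hW hQ hh in
/-- ceiling: `m ≤ 81 Q Om + 1 ≤ 82 Q (t+2) x`. -/
lemma q_m : 1 ≤ qm t E Q h ∧ 81 * ((Q : ℝ) * qOm t E Q h) ≤ qm t E Q h ∧
    (qm t E Q h : ℝ) ≤ 82 * (Q : ℝ) * (t + 2) * ((qL0 t E Q : ℝ) * h) := by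
  obtain ⟨ht1, hE1, -, -, -, -, -, hQ1⟩ := q_basic t E Q W I ht hE hI hW hQ
  obtain ⟨h1, h2, h3⟩ := q_Om t E Q W I ht hE hI hW hQ h hh
  have hQO : (1 : ℝ) ≤ (Q : ℝ) * qOm t E Q h := by nlinarith
  have hc1 : 81 * ((Q : ℝ) * qOm t E Q h) ≤ qm t E Q h := Nat.le_ceil _
  have hc2 : (qm t E Q h : ℝ) < 81 * ((Q : ℝ) * qOm t E Q h) + 1 :=
    Nat.ceil_lt_add_one (by linarith)
  refine ⟨?_, hc1, ?_⟩
  · have : (1 : ℝ) ≤ (qm t E Q h : ℝ) := by linarith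
    exact_mod_cast this
  · have h4 : (Q : ℝ) * qOm t E Q h ≤ (Q : ℝ) * ((t + 2) * ((qL0 t E Q : ℝ) * h)) :=
      mul_le_mul_of_nonneg_left h3 (by linarith)
    calc (qm t E Q h : ℝ) ≤ 82 * ((Q : ℝ) * qOm t E Q h) := by linarith
      _ ≤ 82 * ((Q : ℝ) * ((t + 2) * ((qL0 t E Q : ℝ) * h))) := by linarith
      _ = 82 * (Q : ℝ) * (t + 2) * ((qL0 t E Q : ℝ) * h) := by ring

include ht hE hI hW hQ hh in
/-- `m ≤ Q^(2t+4) E^t h / 1000 * 82 ...`: `1000 m ≤ 82 Q^(2t+4) E^t h`. -/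
lemma q_m2 : 12 * (qm t E Q h : ℝ) ≤ (Q : ℝ) ^ (2 * t + 4) * E ^ t * h := by
  obtain ⟨ht1, hE1, -, -, hQt, -, -, hQ1⟩ := q_basic t E Q W I ht hE hI hW hQ
  obtain ⟨-, -, h1⟩ := q_m t E Q W I ht hE hI hW hQ h hh
  have hT2 : ((t : ℝ) + 2) ≤ ((t : ℝ) + 2) ^ 2 := by nlinarith
  have e1 : 82 * (Q : ℝ) * (t + 2) * ((qL0 t E Q : ℝ) * h) =
      (82 * ((t : ℝ) + 2)) * ((Q : ℝ) ^ (2 * t + 3) * E ^ t * h) := by
    unfold qL0
    push_cast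
    ring
  have h0 : 0 ≤ (Q : ℝ) ^ (2 * t + 3) * E ^ t * h := by positivity
  have e2 : (984 * ((t : ℝ) + 2)) * ((Q : ℝ) ^ (2 * t + 3) * E ^ t * h) ≤
      Q * ((Q : ℝ) ^ (2 * t + 3) * E ^ t * h) :=
    mul_le_mul_of_nonneg_right (by nlinarith) h0
  have e3 : (Q : ℝ) * ((Q : ℝ) ^ (2 * t + 3) * E ^ t * h) = (Q : ℝ) ^ (2 * t + 4) * E ^ t * h := by
    ring
  rw [e1] at h1
  linarith

include ht hE hI hW hQ hh in
/-- `2 I m ≤ Q^2 E L` -/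
lemma q_Im : 2 * I * qm t E Q h ≤ Q ^ 2 * (E * qL t E Q h) := by
  obtain ⟨ht1, hE1, hI1, -, hQt, hQI, -, hQ1⟩ := q_basic t E Q W I ht hE hI hW hQ
  obtain ⟨_, _, h1⟩ := q_m t E Q W I ht hE hI hW hQ h hh
  obtain ⟨_, _, h2⟩ := q_L t E Q W I ht hE hI hW hQ h hh
  have hL0 : (0 : ℝ) ≤ qL t E Q h := Nat.cast_nonneg _
  have h4 : (2 * (I : ℝ) * qm t E Q h) ≤ (Q : ℝ) ^ 2 * (E * qL t E Q h) := by
    calc (2 * (I : ℝ) * qm t E Q h)
        ≤ 2 * (I : ℝ) * (82 * (Q : ℝ) * (t + 2) * ((qL0 t E Q : ℝ) * h)) :=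
          mul_le_mul_of_nonneg_left h1 (by positivity)
      _ ≤ 2 * (I : ℝ) * (82 * (Q : ℝ) * (t + 2) * (2 * E * qL t E Q h)) :=
          mul_le_mul_of_nonneg_left (mul_le_mul_of_nonneg_left h2 (by positivity)) (by positivity)
      _ = (328 * (((t : ℝ) + 2) * I)) * ((Q : ℝ) * (E * qL t E Q h)) := by ring
      _ ≤ (Q : ℝ) * ((Q : ℝ) * (E * qL t E Q h)) := by
          apply mul_le_mul_of_nonneg_right _ (by positivity)
          have : 0 ≤ ((t : ℝ) + 2) * I := by positivity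
          linarith
      _ = (Q : ℝ) ^ 2 * (E * qL t E Q h) := by ring
  exact_mod_cast h4

include ht hE hI hW hQ hh in
lemma q_h2 : 2 * ((2 * I * qm t E Q h) ^ t * Q) ≤ NN t (qL0 t E Q) (qL t E Q h) := by
  have h1 := q_Im t E Q W I ht hE hI hW hQ h hh
  have hQ2 : 2 ≤ Q := by
    obtain ⟨-, -, -, -, -, -, -, hQ1⟩ := q_basic t E Q W I ht hE hI hW hQ
    have : (2 : ℝ) ≤ Q := by linarith
    exact_mod_cast this
  have h2 : (2 * I * qm t E Q h) ^ t ≤ (Q ^ 2 * (E * qL t E Q h)) ^ t := Nat.pow_le_pow_left h1 t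
  unfold NN qL0
  calc 2 * ((2 * I * qm t E Q h) ^ t * Q)
      ≤ Q * ((Q ^ 2 * (E * qL t E Q h)) ^ t * Q) :=
        Nat.mul_le_mul hQ2 (Nat.mul_le_mul_right _ h2)
    _ = Q ^ (2 * t + 2) * E ^ t * qL t E Q h ^ t := by
        rw [mul_pow, mul_pow, ← pow_mul]
        ring

include ht hE hI hW hQ hh in
lemma q_EL : (E : ℝ) * qL t E Q h ≤ qm t E Q h := by
  obtain ⟨ht1, hE1, hI1, -, hQt, hQI, -, hQ1⟩ := q_basic t E Q W I ht hE hI hW hQ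
  obtain ⟨_, h2, _⟩ := q_m t E Q W I ht hE hI hW hQ h hh
  obtain ⟨h3, h4, _⟩ := q_Om t E Q W I ht hE hI hW hQ h hh
  obtain ⟨_, h6, _⟩ := q_L t E Q W I ht hE hI hW hQ h hh
  have e2 : qOm t E Q h ≤ (Q : ℝ) * qOm t E Q h := by nlinarith
  nlinarith

include ht hE hI hW hQ hh in
lemma q_h4 (V : ℕ) (hV : V ≤ E) : V * qL t E Q h ≤ I * qm t E Q h := by
  have h1 := q_EL t E Q W I ht hE hI hW hQ h hh
  have h2 : E * qL t E Q h ≤ qm t E Q h := by exact_mod_cast h1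
  calc V * qL t E Q h ≤ E * qL t E Q h := Nat.mul_le_mul_right _ hV
    _ ≤ 1 * qm t E Q h := by omega
    _ ≤ I * qm t E Q h := Nat.mul_le_mul_right _ hI

variable (hlQ : log (Q : ℝ) ≤ 4 * W) (hlE : log (E : ℝ) ≤ W) (hlh : log (1 + h) ≤ W)

include ht hE hI hW hQ hlQ hlE in
lemma q_log_L0 : log (qL0 t E Q : ℝ) ≤ (9 * t + 8) * W := by
  obtain ⟨ht1, hE1, hI1, hW1, hQt, hQI, -, hQ1⟩ := q_basic t E Q W I ht hE hI hW hQ
  unfold qL0
  rw [Nat.cast_mul, Nat.cast_pow, Nat.cast_pow, log_mul (by positivity) (by positivity), log_pow,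
    log_pow]
  push_cast
  have h1 : (2 * (t : ℝ) + 2) * log (Q : ℝ) ≤ (2 * (t : ℝ) + 2) * (4 * W) :=
    mul_le_mul_of_nonneg_left hlQ (by positivity)
  have h2 : (t : ℝ) * log (E : ℝ) ≤ t * W := mul_le_mul_of_nonneg_left hlE (by positivity)
  linarith

include ht hE hI hW hQ hh hlQ hlE hlh in
/-- `L + L0 ≤ L0 (1 + h)`. -/
lemma q_log_Z (Bb : ℕ) (hBb : 1 ≤ Bb) (hlB : log (Bb : ℝ) ≤ W) :
    log ((Bb : ℝ) * ((qL t E Q h : ℝ) + qL0 t E Q)) ≤ (9 * t + 10) * W := by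
  obtain ⟨ht1, hE1, hI1, hW1, hQt, hQI, -, hQ1⟩ := q_basic t E Q W I ht hE hI hW hQ
  obtain ⟨_, h6, _⟩ := q_L t E Q W I ht hE hI hW hQ h hh
  have hL : (0 : ℝ) ≤ qL t E Q h := Nat.cast_nonneg _
  have hL00 : (0 : ℝ) < qL0 t E Q := by
    have := (q_L0 t E Q W I ht hE hI hW hQ).2.1
    exact_mod_cast (by omega : 0 < qL0 t E Q)
  have hBb0 : (0 : ℝ) < Bb := by exact_mod_cast (by omega : 0 < Bb)
  have h1 : (qL t E Q h : ℝ) + qL0 t E Q ≤ qL0 t E Q * (1 + h) := by nlinarith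
  have hh1 : 0 < 1 + h := by linarith
  have h2 : log ((Bb : ℝ) * ((qL t E Q h : ℝ) + qL0 t E Q))
      ≤ log ((Bb : ℝ) * (qL0 t E Q * (1 + h))) := by
    apply log_le_log
    · exact mul_pos hBb0 (by linarith)
    · exact mul_le_mul_of_nonneg_left h1 hBb0.le
  rw [log_mul hBb0.ne' (mul_pos hL00 hh1).ne', log_mul hL00.ne' hh1.ne'] at h2
  have h3 := q_log_L0 t E Q W I ht hE hI hW hQ hlQ hlE
  linarith

include ht hE hI hW hQ hh hlQ hlE hlh in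
/-- `log NN = log L0 + t log L ≤ (t+1) log (Bb (L + L0))`. -/
lemma q_log_NN (Bb : ℕ) (hBb : 1 ≤ Bb) (hlB : log (Bb : ℝ) ≤ W) :
    log (NN t (qL0 t E Q) (qL t E Q h) : ℝ) ≤ (t + 1) * ((9 * t + 10) * W) := by
  have h0 := q_log_Z t E Q W I ht hE hI hW hQ h hh hlQ hlE hlh Bb hBb hlB
  obtain ⟨h5, h6, _⟩ := q_L t E Q W I ht hE hI hW hQ h hh
  have hL1 : (1 : ℝ) ≤ qL t E Q h := by exact_mod_cast h5
  have hL00 : (1 : ℝ) ≤ qL0 t E Q := by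
    exact_mod_cast (q_L0 t E Q W I ht hE hI hW hQ).2.1
  have hBb0 : (1 : ℝ) ≤ Bb := by exact_mod_cast hBb
  have e1 : (qL0 t E Q : ℝ) ≤ (Bb : ℝ) * ((qL t E Q h : ℝ) + qL0 t E Q) := by nlinarith
  have e2 : (qL t E Q h : ℝ) ≤ (Bb : ℝ) * ((qL t E Q h : ℝ) + qL0 t E Q) := by nlinarith
  have e3 : log (qL0 t E Q : ℝ) ≤ log ((Bb : ℝ) * ((qL t E Q h : ℝ) + qL0 t E Q)) :=
    log_le_log (by linarith) e1
  have e4 : log (qL t E Q h : ℝ) ≤ log ((Bb : ℝ) * ((qL t E Q h : ℝ) + qL0 t E Q)) :=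
    log_le_log (by linarith) e2
  unfold NN
  rw [Nat.cast_mul, Nat.cast_pow, log_mul (by linarith) (by positivity), log_pow]
  have ht0 : (0 : ℝ) ≤ t := Nat.cast_nonneg t
  have e5 : (t : ℝ) * log (qL t E Q h : ℝ) ≤ t * ((9 * t + 10) * W) :=
    mul_le_mul_of_nonneg_left (e4.trans h0) ht0
  linarith [e3.trans h0]

include ht hE hI hW hQ hh hlQ hlE hlh in
lemma q_h3 (Bb : ℕ) (hBb : 1 ≤ Bb) (hlB : log (Bb : ℝ) ≤ W) :
    2 * log (NN t (qL0 t E Q) (qL t E Q h) : ℝ) +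
      2 * (t * (2 * (I : ℝ) * qm t E Q h)) *
        log ((Bb : ℝ) * ((qL t E Q h : ℝ) + qL0 t E Q)) +
      Q * qOm t E Q h ≤ qm t E Q h * Q := by
  obtain ⟨ht1, hE1, hI1, hW1, hQt, hQI, hQK, hQ1⟩ := q_basic t E Q W I ht hE hI hW hQ
  have hm := q_m t E Q W I ht hE hI hW hQ h hh
  have hOm := q_Om t E Q W I ht hE hI hW hQ h hh
  have hZ := q_log_Z t E Q W I ht hE hI hW hQ h hh hlQ hlE hlh Bb hBb hlB
  have hN := q_log_NN t E Q W I ht hE hI hW hQ h hh hlQ hlE hlh Bb hBb hlB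
  set lN := log (NN t (qL0 t E Q) (qL t E Q h) : ℝ)
  set lZ := log ((Bb : ℝ) * ((qL t E Q h : ℝ) + qL0 t E Q))
  have hm1 : (1 : ℝ) ≤ qm t E Q h := by exact_mod_cast hm.1
  have h2 := hm.2.1
  have hOm0 := hOm.1
  generalize (Q : ℝ) = q at *
  generalize (W : ℝ) = w at *
  generalize (I : ℝ) = ii at *
  generalize (qm t E Q h : ℝ) = m at *
  generalize qOm t E Q h = Om at *
  generalize (t : ℝ) = T at *
  have hK0 : 0 ≤ (T + 2) ^ 2 * ii * w := by positivity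
  have hqm : q ≤ m * q := by nlinarith
  -- first term
  have hT1 : 2 * lN ≤ m * q / 4 := by
    have e1 : (T + 1) * ((9 * T + 10) * w) ≤ 9 * ((T + 2) ^ 2 * ii * w) := by
      have e2 : (T + 1) * (9 * T + 10) ≤ 9 * (T + 2) ^ 2 * ii := by nlinarith
      nlinarith
    linarith
  have hT2 : 2 * (T * (2 * ii * m)) * lZ ≤ m * q / 4 := by
    have e1 : 2 * (T * (2 * ii * m)) * lZ ≤ 2 * (T * (2 * ii * m)) * ((9 * T + 10) * w) :=
      mul_le_mul_of_nonneg_left hZ (by positivity)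
    have e2 : 2 * (T * (2 * ii * m)) * ((9 * T + 10) * w) = (4 * (T * (9 * T + 10))) * (ii * w * m) := by
      ring
    have e3 : (4 * (T * (9 * T + 10))) * (ii * w * m) ≤ (36 * (T + 2) ^ 2) * (ii * w * m) := by
      apply mul_le_mul_of_nonneg_right _ (by positivity)
      nlinarith
    have e4 : (36 * (T + 2) ^ 2) * (ii * w * m) = 36 * ((T + 2) ^ 2 * ii * w) * m := by ring
    have e5 : 1000 * ((T + 2) ^ 2 * ii * w) * m ≤ q * m :=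
      mul_le_mul_of_nonneg_right hQK (by linarith)
    have e6 : 0 ≤ (T + 2) ^ 2 * ii * w * m := by positivity
    nlinarith
  have hT3 : q * Om ≤ m * q / 4 := by nlinarith
  linarith

include ht hE hI hW hQ hh in
/-- hypothesis `h5` -/
lemma q_h5 (J V : ℕ) (hIJ : I = 2 * t + 4 + J) (hV : E ^ t ≤ V * Q ^ J) :
    (qm t E Q h : ℝ) * Q < ((Q ^ I * Q : ℕ) - 1 : ℝ) * V * h := by
  obtain ⟨ht1, hE1, hI1, hW1, hQt, hQI, hQK, hQ1⟩ := q_basic t E Q W I ht hE hI hW hQ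
  have hm := q_m2 t E Q W I ht hE hI hW hQ h hh
  have hh0 : 0 < h := by linarith
  have hV' : (E : ℝ) ^ t ≤ V * (Q : ℝ) ^ J := by exact_mod_cast hV
  have hEt : (1 : ℝ) ≤ (E : ℝ) ^ t := one_le_pow₀ hE1
  have hV0 : (1 : ℝ) ≤ V := by
    have : 1 ≤ V := by
      rcases Nat.eq_zero_or_pos V with h0 | h0
      · subst h0
        rw [zero_mul] at hV
        have := Nat.one_le_pow t E hE
        omega
      · exact h0
    exact_mod_cast this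
  have e1 : ((Q ^ I * Q : ℕ) : ℝ) = (Q : ℝ) ^ J * (Q : ℝ) ^ (2 * t + 5) := by
    rw [hIJ]
    push_cast
    rw [← pow_succ, ← pow_add]
    congr 1
    ring
  have hP : (1 : ℝ) ≤ (Q : ℝ) ^ (2 * t + 4) := one_le_pow₀ (by linarith)
  have hQJ : (1 : ℝ) ≤ (Q : ℝ) ^ J := one_le_pow₀ (by linarith)
  have e3 : (Q : ℝ) ^ (2 * t + 5) = Q * (Q : ℝ) ^ (2 * t + 4) := by ring
  rw [e1, e3]
  set P : ℝ := (Q : ℝ) ^ (2 * t + 4)
  set G : ℝ := (Q : ℝ) ^ J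
  set e : ℝ := (E : ℝ) ^ t
  -- (G Q P - 1) V h ≥ (G Q P / 2) V h ≥ Q P e h / 2 > Q P e h / 12 ≥ m Q
  have s1 : 2 ≤ G * (Q * P) := by
    have : (1 : ℝ) * (2 * 1) ≤ G * (Q * P) :=
      mul_le_mul hQJ (mul_le_mul (by linarith) hP (by norm_num) (by linarith)) (by norm_num)
        (by linarith)
    linarith
  have s2 : G * (Q * P) / 2 * V * h ≤ (G * (Q * P) - 1) * V * h := by
    apply mul_le_mul_of_nonneg_right _ hh0.le
    apply mul_le_mul_of_nonneg_right _ (by linarith)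
    linarith
  have s3 : e * ((Q * P) / 2 * h) ≤ (V * G) * ((Q * P) / 2 * h) :=
    mul_le_mul_of_nonneg_right hV' (by positivity)
  have s4 : (V * G) * ((Q * P) / 2 * h) = G * (Q * P) / 2 * V * h := by ring
  have s5 : (qm t E Q h : ℝ) * Q ≤ (P * e * h / 12) * Q :=
    mul_le_mul_of_nonneg_right (by linarith) (by linarith)
  have s6 : (P * e * h / 12) * Q < e * ((Q * P) / 2 * h) := by
    have : 0 < e * ((Q * P) * h) := by positivity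
    nlinarith
  linarith

include ht hE hI hW hQ hh hlQ hlE hlh in
lemma q_log_m : log ((qm t E Q h : ℝ) + 1) ≤ (9 * t + 17) * W := by
  obtain ⟨ht1, hE1, hI1, hW1, hQt, hQI, hQK, hQ1⟩ := q_basic t E Q W I ht hE hI hW hQ
  have hm := q_m2 t E Q W I ht hE hI hW hQ h hh
  have hm1 : (1 : ℝ) ≤ qm t E Q h := by
    exact_mod_cast (q_m t E Q W I ht hE hI hW hQ h hh).1
  have hh0 : 0 < h := by linarith
  have h1 : (qm t E Q h : ℝ) + 1 ≤ (Q : ℝ) ^ (2 * t + 4) * E ^ t * h := by linarith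
  have h2 := log_le_log (by linarith) h1
  rw [log_mul (by positivity) hh0.ne', log_mul (by positivity) (by positivity), log_pow,
    log_pow] at h2
  push_cast at h2
  have h3 : (2 * (t : ℝ) + 4) * log (Q : ℝ) ≤ (2 * (t : ℝ) + 4) * (4 * W) :=
    mul_le_mul_of_nonneg_left hlQ (by positivity)
  have h4 : (t : ℝ) * log (E : ℝ) ≤ t * W := mul_le_mul_of_nonneg_left hlE (by positivity)
  have h5 : log h ≤ W := (log_le_log hh0 (by linarith)).trans hlh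
  linarith

include ht hE hI hW hQ hlQ in
lemma q_log_S : log ((Q ^ I * Q : ℕ) : ℝ) ≤ 8 * (I * W) := by
  obtain ⟨ht1, hE1, hI1, hW1, hQt, hQI, hQK, hQ1⟩ := q_basic t E Q W I ht hE hI hW hQ
  rw [← pow_succ, Nat.cast_pow, log_pow]
  push_cast
  have h3 : ((I : ℝ) + 1) * log (Q : ℝ) ≤ ((I : ℝ) + 1) * (4 * W) :=
    mul_le_mul_of_nonneg_left hlQ (by positivity)
  have h4 : (W : ℝ) ≤ I * W := by nlinarith
  linarith

include ht hE hI hW hQ hh hlQ hlE hlh in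
/-- the final size -/
lemma q_final (J : ℕ) (hIJ : I = 2 * t + 4 + J) :
    log 4 + (qm t E Q h : ℝ) * ((Q ^ I * Q : ℕ) : ℝ) *
        log (4 * ((Q ^ I * Q : ℕ) : ℝ) * (qm t E Q h + 1)) +
      qm t E Q h * log (t * E + 1) + qm t E Q h * Q +
      2 * ((Q ^ I * Q : ℕ) : ℝ) * qOm t E Q h +
      log (2 * ((Q ^ I * Q : ℕ) : ℝ) * qL0 t E Q) ≤
    h * E ^ t * (Q : ℝ) ^ (4 * t + 10 + J) := by
  obtain ⟨ht1, hE1, hI1, hW1, hQt, hQI, hQK, hQ1⟩ := q_basic t E Q W I ht hE hI hW hQ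
  have hm := q_m2 t E Q W I ht hE hI hW hQ h hh
  obtain ⟨hm1', hmO, -⟩ := q_m t E Q W I ht hE hI hW hQ h hh
  obtain ⟨hO1, -, -⟩ := q_Om t E Q W I ht hE hI hW hQ h hh
  have hm1 : (1 : ℝ) ≤ qm t E Q h := by exact_mod_cast hm1'
  have hh0 : 0 < h := by linarith
  have hlm := q_log_m t E Q W I ht hE hI hW hQ h hh hlQ hlE hlh
  have hlS := q_log_S t E Q W I ht hE hI hW hQ hlQ
  have hlL := q_log_L0 t E Q W I ht hE hI hW hQ hlQ hlE
  have hL00 : (0 : ℝ) < qL0 t E Q := by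
    have := (q_L0 t E Q W I ht hE hI hW hQ).2.1
    exact_mod_cast (by omega : 0 < qL0 t E Q)
  have eS : ((Q ^ I * Q : ℕ) : ℝ) = (Q : ℝ) ^ J * ((Q : ℝ) ^ (2 * t + 4) * Q) := by
    rw [hIJ]
    push_cast
    rw [← pow_succ, ← pow_succ, ← pow_add]
    congr 1
    ring
  have eU : h * (E : ℝ) ^ t * (Q : ℝ) ^ (4 * t + 10 + J) =
      ((Q : ℝ) ^ (2 * t + 4) * E ^ t * h) * ((Q : ℝ) ^ J * ((Q : ℝ) ^ (2 * t + 4) * Q)) * Q := by
    have : (Q : ℝ) ^ (4 * t + 10 + J) =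
        (Q : ℝ) ^ (2 * t + 4) * (Q : ℝ) ^ (2 * t + 4) * (Q : ℝ) ^ J * Q * Q := by
      rw [← pow_add, ← pow_add, ← pow_succ, ← pow_succ]
      congr 1
      ring
    rw [this]
    ring
  rw [← eS] at eU
  rw [eU]
  have hS1 : (1 : ℝ) ≤ ((Q ^ I * Q : ℕ) : ℝ) := by
    have hQn : 1 ≤ Q := by
      have : (1 : ℝ) ≤ Q := by linarith
      exact_mod_cast this
    have : 1 ≤ Q ^ I * Q := Nat.mul_pos (Nat.pow_pos hQn) hQn
    exact_mod_cast this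
  set S : ℝ := ((Q ^ I * Q : ℕ) : ℝ)
  set m : ℝ := (qm t E Q h : ℝ)
  set X : ℝ := (Q : ℝ) ^ (2 * t + 4) * E ^ t * h
  have hX12 : 12 ≤ X := by linarith
  have hlog4 : log (4 : ℝ) ≤ 2 := by
    have h1 : log (4 : ℝ) = 2 * log 2 := by
      rw [show (4 : ℝ) = 2 ^ 2 by norm_num, log_pow]
      push_cast
      ring
    have := Real.log_two_lt_d9
    linarith
  have hlog2 : log (2 : ℝ) ≤ 2 := by
    have := Real.log_two_lt_d9
    linarith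
  -- the sizes `8 I W`, `(t + 2) W`
  have hIW : 1000 * ((I : ℝ) * W) ≤ Q := by
    have h1 : (I : ℝ) * W ≤ ((t : ℝ) + 2) ^ 2 * I * W := by
      have : 1 * ((I : ℝ) * W) ≤ ((t : ℝ) + 2) ^ 2 * (I * W) :=
        mul_le_mul_of_nonneg_right (by nlinarith) (by positivity)
      linarith
    linarith
  have htW : 1000 * (((t : ℝ) + 2) * W) ≤ Q := by
    have h1 : ((t : ℝ) + 2) * W ≤ ((t : ℝ) + 2) ^ 2 * I * W := by
      apply mul_le_mul_of_nonneg_right _ (by linarith)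
      nlinarith
    linarith
  have hW0 : (0 : ℝ) ≤ W := by linarith
  have hS0 : (0 : ℝ) < S := by linarith
  have L1 : log (4 * S * (m + 1)) ≤ Q := by
    rw [log_mul (by positivity) (by positivity), log_mul (by norm_num) hS0.ne']
    nlinarith
  have L2 : log ((t : ℝ) * E + 1) ≤ Q := by
    have h1 : (t : ℝ) * E + 1 ≤ (t + 1) * E := by nlinarith
    have h2 := log_le_log (by positivity) h1
    rw [log_mul (by positivity) (by positivity)] at h2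
    have h3 := Real.log_le_sub_one_of_pos (show (0 : ℝ) < t + 1 by positivity)
    nlinarith
  have L3 : log (2 * S * qL0 t E Q) ≤ Q := by
    rw [log_mul (by positivity) hL00.ne', log_mul (by norm_num) hS0.ne']
    nlinarith
  have hm0 : 0 ≤ m := by linarith
  have hQ0 : (0 : ℝ) ≤ Q := by linarith
  have T1 : m * S * log (4 * S * (m + 1)) ≤ X * S * Q / 12 := by
    have e1 : m * S * log (4 * S * (m + 1)) ≤ m * S * Q :=
      mul_le_mul_of_nonneg_left L1 (by positivity)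
    have e2 : m * (S * Q) ≤ (X / 12) * (S * Q) :=
      mul_le_mul_of_nonneg_right (by linarith) (by positivity)
    linarith
  have hmQ : m * Q ≤ X * S * Q / 12 := by
    have e2 : m * Q ≤ (X / 12) * Q := mul_le_mul_of_nonneg_right (by linarith) hQ0
    have e3 : (X / 12 * Q) * 1 ≤ (X / 12 * Q) * S := mul_le_mul_of_nonneg_left hS1 (by positivity)
    linarith
  have T2 : m * log ((t : ℝ) * E + 1) ≤ X * S * Q / 12 :=
    (mul_le_mul_of_nonneg_left L2 hm0).trans hmQ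
  have T4 : 2 * S * qOm t E Q h ≤ X * S * Q / 12 := by
    have e1 : 2 * qOm t E Q h ≤ m := by nlinarith
    have e2 : 2 * S * qOm t E Q h ≤ S * m := by nlinarith
    have e3 : S * m ≤ S * (X / 12) := mul_le_mul_of_nonneg_left (by linarith) hS0.le
    have e4 : (S * (X / 12)) * 1 ≤ (S * (X / 12)) * Q :=
      mul_le_mul_of_nonneg_left (by linarith) (by positivity)
    linarith
  have hQX : (Q : ℝ) ≤ X * S * Q / 12 := by
    have e1 : (1 : ℝ) * 1 ≤ (X / 12) * S := mul_le_mul (by linarith) hS1 (by norm_num) (by linarith)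
    nlinarith
  have hXSQ : 0 ≤ X * S * Q := by positivity
  linarith

end

end Pool.Agent.Lib.MP_f02ea4_nt.BK
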