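import Mathlib
import Pool.Agent.Lib.MP_f02ea4_nt.MlC
import Pool.Agent.Lib.MP_f02ea4_nt.BK.Param2
import Pool.Agent.Lib.MP_f02ea4_nt.BK.SharpA

/-! Baker's theorem with a small power of `E`: `E^(2t-1+1/n)` for `b0 = 1` and one large `b_i`, `E^(2t+1/n)` in
general. -/

set_option autoImplicit false

namespace Pool.Agent.Lib.MP_f02ea4_nt.BK

open Finset Real
open Pool.Agent.Lib.MP_f02ea4_nt.Ml

/-- from the conclusion of `baker_param` to the lower bound -/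
lemma lam_of_key {S' m L0 : ℕ} {T Q Om E lam U : ℝ} (hS : 1 ≤ S') (hL0 : 1 ≤ L0) (hT : 0 ≤ T)
    (hE : 0 ≤ E)
    (key : 1 / 4 < (4 * (S' : ℝ) * (m + 1)) ^ (m * S') * (T * E + 1) ^ m *
      exp (m * Q) * exp (2 * (S' : ℝ) * Om) * (2 * (S' : ℝ) * L0 * |lam|))
    (hfin : log 4 + (m : ℝ) * S' * log (4 * (S' : ℝ) * (m + 1)) + m * log (T * E + 1) + m * Q +
      2 * (S' : ℝ) * Om + log (2 * (S' : ℝ) * L0) ≤ U) :
    exp (-U) ≤ |lam| := by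
  have hSR : (0 : ℝ) < S' := by exact_mod_cast hS
  have hL0R : (0 : ℝ) < L0 := by exact_mod_cast hL0
  have hmR : (0 : ℝ) ≤ m := Nat.cast_nonneg _
  have hlam : lam ≠ 0 := by
    intro h0
    rw [h0, abs_zero, mul_zero, mul_zero] at key
    norm_num at key
  have hlam0 : 0 < |lam| := abs_pos.2 hlam
  have p1 : (0 : ℝ) < (4 * (S' : ℝ) * (m + 1)) ^ (m * S') := by positivity
  have p2 : (0 : ℝ) < (T * E + 1) ^ m := by positivity
  have p3 : (0 : ℝ) < 2 * (S' : ℝ) * L0 := by positivity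
  have h1 := Real.log_lt_log (by norm_num : (0 : ℝ) < 1 / 4) key
  rw [Real.log_mul (by positivity) (by positivity), Real.log_mul (by positivity) (by positivity),
    Real.log_mul (by positivity) (by positivity), Real.log_mul (by positivity) (by positivity),
    Real.log_mul p3.ne' hlam0.ne', Real.log_exp, Real.log_exp, Real.log_pow, Real.log_pow,
    one_div, Real.log_inv] at h1
  push_cast at h1
  have h2 : -U ≤ log |lam| := by linarith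
  calc exp (-U) ≤ exp (log |lam|) := exp_le_exp.2 h2
    _ = |lam| := Real.exp_log hlam0

section
variable {t : ℕ} (ht : 1 ≤ t) (D : BD t) (E Q W J : ℕ) (hE1 : 1 ≤ E) (hW : 1 ≤ W)
  (hQ : 1000 * (t + 2) ^ 2 * (2 * t + 4 + J) * W ≤ Q) (hlQ : log (Q : ℝ) ≤ 4 * W)
  (hE : ∀ i, log (D.a i : ℝ) ≤ E) (Bb : ℕ) (hBb : 1 ≤ Bb) (hb0 : |D.b0| ≤ Bb)
  (hb : ∀ i, |D.b i| ≤ Bb) (hlE : log (E : ℝ) ≤ W) (hlB : log (Bb : ℝ) ≤ W)
  (hlh : log (1 + log (D.A : ℝ)) ≤ W)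

lemma half_le_logA {t : ℕ} (D : BD t) : 1 / 2 ≤ log (D.A : ℝ) := by
  have hA2 : 2 ≤ D.A := by
    have h1 := D.hB
    have h2 := D.hBA
    omega
  have hA2R : (2 : ℝ) ≤ D.A := by exact_mod_cast hA2
  have h1 := Real.log_le_log (by norm_num : (0 : ℝ) < 2) hA2R
  have h2 := Real.log_two_gt_d9
  linarith

include ht hE1 hW hQ hlQ hE hBb hb0 hb hlE hlB hlh in
theorem sharp_nat2 (V : ℕ) (i0 : Fin t) (hV : 1 ≤ V) (hVE : V ≤ E) (hEV : E ^ t ≤ V * Q ^ J)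
    (hbi : |D.b0| * qL t E Q (log (D.A : ℝ)) ≤ |D.b i0|) :
    exp (-(log (D.A : ℝ) * E ^ t * (Q : ℝ) ^ (4 * t + 10 + J))) ≤ |D.lam| := by
  have hh := half_le_logA D
  set h : ℝ := log (D.A : ℝ) with hh'
  have hI : 1 ≤ 2 * t + 4 + J := by omega
  have hL0 := q_L0 t E Q W (2 * t + 4 + J) ht hE1 hI hW hQ
  have hm := q_m t E Q W (2 * t + 4 + J) ht hE1 hI hW hQ h hh
  have hL := q_L t E Q W (2 * t + 4 + J) ht hE1 hI hW hQ h hh
  have hQ1 : 1 ≤ Q := by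
    have h1 := (q_basic t E Q W (2 * t + 4 + J) ht hE1 hI hW hQ).2.2.2.2.2.2.2
    have : (1 : ℝ) ≤ Q := by linarith
    exact_mod_cast this
  have hOmeq : D.Om (E : ℝ) (qL0 t E Q) (qL t E Q h) = qOm t E Q h := rfl
  have key := baker_param2 (L0 := qL0 t E Q) (L := qL t E Q h) D (E : ℝ) (Nat.cast_nonneg _) hE Bb
    hBb hb0 hb (2 * t + 4 + J) (qm t E Q h) Q Q hL0.2.1 hL.1 hI hm.1 hQ1 hQ1
    (V := V) (i0 := i0) (hV := hV) (hVL0 := hVE.trans hL0.2.2) (hbi := hbi)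
    (h1 := by
      rw [hOmeq]
      exact hm.2.1)
    (h2 := q_h2 t E Q W _ ht hE1 hI hW hQ h hh)
    (h3 := by
      have := q_h3 t E Q W _ ht hE1 hI hW hQ h hh hlQ hlE hlh Bb hBb hlB
      rw [hOmeq]
      push_cast at this ⊢
      exact this)
    (h4 := q_h4 t E Q W _ ht hE1 hI hW hQ h hh V hVE)
    (h5 := q_h5 t E Q W _ ht hE1 hI hW hQ h hh J V rfl hEV)
  rw [hOmeq] at key
  have hfin := q_final t E Q W _ ht hE1 hI hW hQ h hh hlQ hlE hlh J rfl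
  have hS1 : 1 ≤ Q ^ (2 * t + 4 + J) * Q := Nat.mul_pos (Nat.pow_pos hQ1) hQ1
  exact lam_of_key hS1 hL0.2.1 (Nat.cast_nonneg t) (Nat.cast_nonneg E) key hfin

include ht hE1 hW hQ hlQ hE hBb hb0 hb hlE hlB hlh in
theorem sharp_nat1 (hEV : E ^ t ≤ Q ^ J) :
    exp (-(log (D.A : ℝ) * E ^ t * (Q : ℝ) ^ (4 * t + 10 + J))) ≤ |D.lam| := by
  have hh := half_le_logA D
  set h : ℝ := log (D.A : ℝ) with hh'
  have hI : 1 ≤ 2 * t + 4 + J := by omega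
  have hL0 := q_L0 t E Q W (2 * t + 4 + J) ht hE1 hI hW hQ
  have hm := q_m t E Q W (2 * t + 4 + J) ht hE1 hI hW hQ h hh
  have hL := q_L t E Q W (2 * t + 4 + J) ht hE1 hI hW hQ h hh
  have hQ1 : 1 ≤ Q := by
    have h1 := (q_basic t E Q W (2 * t + 4 + J) ht hE1 hI hW hQ).2.2.2.2.2.2.2
    have : (1 : ℝ) ≤ Q := by linarith
    exact_mod_cast this
  have hOmeq : D.Om (E : ℝ) (qL0 t E Q) (qL t E Q h) = qOm t E Q h := rfl
  have key := baker_param (L0 := qL0 t E Q) (L := qL t E Q h) D (E : ℝ) (Nat.cast_nonneg _) hE Bb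
    hBb hb0 hb (2 * t + 4 + J) (qm t E Q h) Q Q hL0.2.1 hL.1 hI hm.1 hQ1 hQ1
    (h1 := by
      rw [hOmeq]
      exact hm.2.1)
    (h2 := q_h2 t E Q W _ ht hE1 hI hW hQ h hh)
    (h3 := by
      have := q_h3 t E Q W _ ht hE1 hI hW hQ h hh hlQ hlE hlh Bb hBb hlB
      rw [hOmeq]
      push_cast at this ⊢
      exact this)
    (h4 := by
      have := q_h4 t E Q W _ ht hE1 hI hW hQ h hh 1 hE1
      rwa [one_mul] at this)
    (h5 := by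
      have := q_h5 t E Q W _ ht hE1 hI hW hQ h hh J 1 rfl (by rwa [one_mul])
      rwa [Nat.cast_one, mul_one] at this)
  rw [hOmeq] at key
  have hfin := q_final t E Q W _ ht hE1 hI hW hQ h hh hlQ hlE hlh J rfl
  have hS1 : 1 ≤ Q ^ (2 * t + 4 + J) * Q := Nat.mul_pos (Nat.pow_pos hQ1) hQ1
  exact lam_of_key hS1 hL0.2.1 (Nat.cast_nonneg t) (Nat.cast_nonneg E) key hfin

end

/-- the constant `c0 = 1000 (t+2)^2 I`, `I = 2 t + 4 + (4 t + 10) n v` -/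
def c0 (t n v : ℕ) : ℕ := 1000 * (t + 2) ^ 2 * (2 * t + 4 + (4 * t + 10) * n * v)
/-- the exponent `M = (16 t + 40) (1 + n v)` -/
def cM (t n v : ℕ) : ℕ := (16 * t + 40) * (1 + n * v)
/-- the constant of the theorem -/
def cC (t n v : ℕ) : ℕ := (4 * c0 t n v) ^ cM t n v * 2 ^ (2 * t + 1)

lemma c0_pos (t n v : ℕ) : 1 ≤ c0 t n v := by
  unfold c0
  have : 0 < 1000 * (t + 2) ^ 2 * (2 * t + 4 + (4 * t + 10) * n * v) := by positivity
  exact this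

lemma cM_le_cC (t n v : ℕ) : cM t n v ≤ cC t n v := by
  have h1 : 1 < 4 * c0 t n v := by
    have := c0_pos t n v
    omega
  have h2 : cM t n v < (4 * c0 t n v) ^ cM t n v := Nat.lt_pow_self h1
  unfold cC
  calc cM t n v ≤ (4 * c0 t n v) ^ cM t n v * 1 := by omega
    _ ≤ (4 * c0 t n v) ^ cM t n v * 2 ^ (2 * t + 1) :=
      Nat.mul_le_mul_left _ (Nat.one_le_two_pow)

lemma rpow_two_mul_le (E E' : ℝ) (hE : 1 ≤ E) (h1 : 1 ≤ E') (h2 : E' ≤ 2 * E) (e : ℝ) (he0 : 0 ≤ e)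
    (r : ℕ) (he : e ≤ r) : E' ^ e ≤ 2 ^ r * E ^ e := by
  calc E' ^ e ≤ (2 * E) ^ e := rpow_le_rpow (by linarith) h2 he0
    _ = (2 : ℝ) ^ e * E ^ e := mul_rpow (by norm_num) (by linarith)
    _ ≤ (2 : ℝ) ^ (r : ℝ) * E ^ e := by
        apply mul_le_mul_of_nonneg_right _ (by positivity)
        exact rpow_le_rpow_of_exponent_le (by norm_num) he
    _ = 2 ^ r * E ^ e := by rw [rpow_natCast]

/-- the choice of the natural numbers `E'`, `W` (`Q = W^4`) -/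
lemma setup (t n v : ℕ) (ht : 1 ≤ t) (hn : 1 ≤ n) (hv : v ≤ t) (E Y : ℝ) (hE : 1 ≤ E) (hY : 1 ≤ Y)
    (hlE : log E ≤ Y) : ∃ E' W : ℕ, 1 ≤ E' ∧ E ≤ E' ∧ 1 ≤ W ∧
      1000 * (t + 2) ^ 2 * (2 * t + 4 + (4 * t + 10) * n * v) * W ≤ W ^ 4 ∧ Y ≤ W ∧
      log (E' : ℝ) ≤ W ∧ E' ^ v ≤ (W ^ 4) ^ ((4 * t + 10) * n * v) ∧
      (E' : ℝ) ^ t * ((W ^ 4 : ℕ) : ℝ) ^ (4 * t + 10 + (4 * t + 10) * n * v) ≤
        cC t n v * Y ^ cC t n v * E ^ ((t : ℝ) + v + 1 / n) ∧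
      ((W ^ 4 : ℕ) : ℝ) ^ (2 * t + 2) * E' ^ (t - 1) ≤
        cC t n v * Y ^ cC t n v * E ^ ((t : ℝ) - 1 + 1 / n) := by
  set N : ℕ := (16 * t + 40) * n with hN
  have hN1 : 1 ≤ N := Nat.mul_pos (by omega) hn
  have hN0 : (0 : ℝ) < N := by exact_mod_cast hN1
  have hn0 : (0 : ℝ) < n := by exact_mod_cast hn
  have hn1 : (1 : ℝ) ≤ n := by exact_mod_cast hn
  have ht1 : (1 : ℝ) ≤ t := by exact_mod_cast ht
  obtain ⟨E', hE'⟩ : ∃ E' : ℕ, E' = ⌈E⌉₊ := ⟨_, rfl⟩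
  have hE1 : E ≤ E' := by rw [hE']; exact Nat.le_ceil _
  have hE2 : (E' : ℝ) ≤ 2 * E := by
    have := Nat.ceil_lt_add_one (by linarith : 0 ≤ E)
    rw [hE']
    linarith
  have hE3 : (1 : ℝ) ≤ E' := by linarith
  have hE4 : 1 ≤ E' := by exact_mod_cast hE3
  obtain ⟨y, hy⟩ : ∃ y : ℕ, y = ⌈Y⌉₊ := ⟨_, rfl⟩
  have hy1 : Y ≤ y := by rw [hy]; exact Nat.le_ceil _
  have hy2 : (y : ℝ) ≤ 2 * Y := by
    have := Nat.ceil_lt_add_one (by linarith : 0 ≤ Y)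
    rw [hy]
    linarith
  have hy3 : 1 ≤ y := by
    have : (1 : ℝ) ≤ y := by linarith
    exact_mod_cast this
  -- `X = E'^(1/N)`
  obtain ⟨X, hX⟩ : ∃ X : ℝ, X = (E' : ℝ) ^ ((N : ℝ)⁻¹) := ⟨_, rfl⟩
  have hX1 : 1 ≤ X := by
    rw [hX]
    exact one_le_rpow hE3 (by positivity)
  have hXN : X ^ N = E' := by
    rw [hX]
    exact rpow_inv_natCast_pow (by linarith) (by omega)
  have hXk : ∀ k : ℕ, X ^ k = (E' : ℝ) ^ ((k : ℝ) / N) := by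
    intro k
    rw [hX, ← rpow_natCast, ← rpow_mul (by linarith)]
    congr 1
    field_simp
  obtain ⟨G, hG⟩ : ∃ G : ℕ, G = ⌈X⌉₊ := ⟨_, rfl⟩
  have hG1 : X ≤ G := by rw [hG]; exact Nat.le_ceil _
  have hG2 : (G : ℝ) ≤ 2 * X := by
    have := Nat.ceil_lt_add_one (by linarith : 0 ≤ X)
    rw [hG]
    linarith
  have hG3 : 1 ≤ G := by
    have : (1 : ℝ) ≤ G := by linarith
    exact_mod_cast this
  have hGN : E' ≤ G ^ N := by
    have : (E' : ℝ) ≤ (G : ℝ) ^ N := by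
      rw [← hXN]
      exact pow_le_pow_left₀ (by linarith) hG1 N
    exact_mod_cast this
  have hc := c0_pos t n v
  have hc' : 1000 ≤ c0 t n v := by
    unfold c0
    have : 1 ≤ (t + 2) ^ 2 * (2 * t + 4 + (4 * t + 10) * n * v) := by
      have : 0 < (t + 2) ^ 2 * (2 * t + 4 + (4 * t + 10) * n * v) := by positivity
      exact this
    calc 1000 = 1000 * 1 := by norm_num
      _ ≤ 1000 * ((t + 2) ^ 2 * (2 * t + 4 + (4 * t + 10) * n * v)) := Nat.mul_le_mul_left _ this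
      _ = _ := by ring
  obtain ⟨W, hW⟩ : ∃ W : ℕ, W = c0 t n v * y * G := ⟨_, rfl⟩
  have hW1 : 1 ≤ W := by
    rw [hW]
    exact Nat.mul_pos (Nat.mul_pos hc hy3) hG3
  have hcW : c0 t n v ≤ W := by
    rw [hW, mul_assoc]
    exact Nat.le_mul_of_pos_right _ (Nat.mul_pos hy3 hG3)
  have hGW : G ≤ W := by
    rw [hW]
    exact Nat.le_mul_of_pos_left _ (Nat.mul_pos hc hy3)
  have hyW : 1000 * y ≤ W := by
    rw [hW]
    calc 1000 * y ≤ c0 t n v * y := Nat.mul_le_mul_right _ hc'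
      _ ≤ c0 t n v * y * G := Nat.le_mul_of_pos_right _ hG3
  have hyWR : 1000 * (y : ℝ) ≤ W := by exact_mod_cast hyW
  have hYc : (1 : ℝ) ≤ Y := hY
  -- powers of W
  have hWk : ∀ k : ℕ, (W : ℝ) ^ k ≤ (4 * (c0 t n v : ℝ)) ^ k * Y ^ k * (E' : ℝ) ^ ((k : ℝ) / N) := by
    intro k
    have h1 : (W : ℝ) ≤ (4 * (c0 t n v : ℝ)) * Y * X := by
      rw [hW]
      push_cast
      have h2 : (y : ℝ) * G ≤ (2 * Y) * (2 * X) :=
        mul_le_mul hy2 hG2 (Nat.cast_nonneg _) (by linarith)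
      have h3 : (c0 t n v : ℝ) * (y * G) ≤ (c0 t n v : ℝ) * ((2 * Y) * (2 * X)) :=
        mul_le_mul_of_nonneg_left h2 (Nat.cast_nonneg _)
      linarith
    calc (W : ℝ) ^ k ≤ ((4 * (c0 t n v : ℝ)) * Y * X) ^ k := pow_le_pow_left₀ (Nat.cast_nonneg _) h1 k
      _ = (4 * (c0 t n v : ℝ)) ^ k * Y ^ k * (E' : ℝ) ^ ((k : ℝ) / N) := by
        rw [mul_pow, mul_pow, hXk]
  have h4c : (1 : ℝ) ≤ 4 * (c0 t n v : ℝ) := by
    have : (1 : ℝ) ≤ c0 t n v := by exact_mod_cast hc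
    linarith
  have hMC : cM t n v ≤ cC t n v := cM_le_cC t n v
  have hCcast : (cC t n v : ℝ) = (4 * (c0 t n v : ℝ)) ^ cM t n v * 2 ^ (2 * t + 1) := by
    unfold cC
    push_cast
    ring
  -- final inequality, for exponents `k ≤ M`, `e ≤ 2 t + 1`
  have hfin : ∀ (k : ℕ) (s e : ℝ), k ≤ cM t n v → s + (k : ℝ) / N ≤ e → 0 ≤ e → e ≤ (2 * t + 1 : ℕ) →
      (W : ℝ) ^ k * (E' : ℝ) ^ s ≤ cC t n v * Y ^ cC t n v * E ^ e := by
    intro k s e hk hse he0 he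
    have a1 : (4 * (c0 t n v : ℝ)) ^ k ≤ (4 * (c0 t n v : ℝ)) ^ cM t n v :=
      pow_le_pow_right₀ h4c hk
    have a2 : Y ^ k ≤ Y ^ cC t n v := pow_le_pow_right₀ hY (hk.trans hMC)
    have a3 : (E' : ℝ) ^ ((k : ℝ) / N) * (E' : ℝ) ^ s ≤ 2 ^ (2 * t + 1) * E ^ e := by
      rw [← rpow_add (by linarith)]
      calc (E' : ℝ) ^ ((k : ℝ) / N + s) ≤ (E' : ℝ) ^ e :=
            rpow_le_rpow_of_exponent_le hE3 (by linarith)
        _ ≤ 2 ^ (2 * t + 1) * E ^ e := rpow_two_mul_le E E' hE hE3 hE2 e he0 _ he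
    have b0 : (0 : ℝ) ≤ (E' : ℝ) ^ ((k : ℝ) / N) * (E' : ℝ) ^ s := by positivity
    calc (W : ℝ) ^ k * (E' : ℝ) ^ s
        ≤ ((4 * (c0 t n v : ℝ)) ^ k * Y ^ k * (E' : ℝ) ^ ((k : ℝ) / N)) * (E' : ℝ) ^ s :=
          mul_le_mul_of_nonneg_right (hWk k) (by positivity)
      _ = ((4 * (c0 t n v : ℝ)) ^ k * Y ^ k) * ((E' : ℝ) ^ ((k : ℝ) / N) * (E' : ℝ) ^ s) := by ring
      _ ≤ ((4 * (c0 t n v : ℝ)) ^ cM t n v * Y ^ cC t n v) * (2 ^ (2 * t + 1) * E ^ e) := by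
          apply mul_le_mul _ a3 b0 (by positivity)
          exact mul_le_mul a1 a2 (by positivity) (by positivity)
      _ = cC t n v * Y ^ cC t n v * E ^ e := by
          rw [hCcast]
          ring
  refine ⟨E', W, hE4, hE1, hW1, ?_, ?_, ?_, ?_, ?_, ?_⟩
  · have h1 : c0 t n v * W ≤ W * W := Nat.mul_le_mul_right _ hcW
    calc 1000 * (t + 2) ^ 2 * (2 * t + 4 + (4 * t + 10) * n * v) * W = c0 t n v * W := rfl
      _ ≤ W * W := h1
      _ = W ^ 2 := by ring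
      _ ≤ W ^ 4 := Nat.pow_le_pow_right hW1 (by norm_num)
  · linarith
  · have h1 : log (E' : ℝ) ≤ log (2 * E) := log_le_log (by linarith) hE2
    rw [log_mul (by norm_num) (by linarith)] at h1
    have h2 := Real.log_two_lt_d9
    linarith
  · calc E' ^ v ≤ (G ^ N) ^ v := Nat.pow_le_pow_left hGN v
      _ ≤ (W ^ N) ^ v := Nat.pow_le_pow_left (Nat.pow_le_pow_left hGW N) v
      _ = (W ^ 4) ^ ((4 * t + 10) * n * v) := by
        rw [← pow_mul, ← pow_mul, hN]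
        congr 1
        ring
  · have h1 : ((W ^ 4 : ℕ) : ℝ) ^ (4 * t + 10 + (4 * t + 10) * n * v) = (W : ℝ) ^ cM t n v := by
      push_cast
      rw [← pow_mul]
      congr 1
      unfold cM
      ring
    have h2 : (E' : ℝ) ^ t = (E' : ℝ) ^ (t : ℝ) := (rpow_natCast _ _).symm
    rw [h1, h2, mul_comm]
    have hMN : ((cM t n v : ℕ) : ℝ) / N = v + 1 / n := by
      unfold cM
      rw [hN]
      push_cast
      field_simp
      ring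
    have hinv : 1 / (n : ℝ) ≤ 1 := by
      rw [div_le_one hn0]
      exact hn1
    have hvt : (v : ℝ) ≤ t := by exact_mod_cast hv
    apply hfin (cM t n v) t ((t : ℝ) + v + 1 / n) le_rfl
    · rw [hMN]
      linarith
    · positivity
    · push_cast
      linarith
  · have h1 : ((W ^ 4 : ℕ) : ℝ) ^ (2 * t + 2) = (W : ℝ) ^ (8 * t + 8) := by
      push_cast
      rw [← pow_mul]
      congr 1
      ring
    have h2 : (E' : ℝ) ^ (t - 1) = (E' : ℝ) ^ ((t : ℝ) - 1) := by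
      rw [← rpow_natCast, Nat.cast_sub ht, Nat.cast_one]
    rw [h1, h2]
    have hinv : 1 / (n : ℝ) ≤ 1 := by
      rw [div_le_one hn0]
      exact hn1
    apply hfin (8 * t + 8) ((t : ℝ) - 1) ((t : ℝ) - 1 + 1 / n)
    · unfold cM
      have : (16 * t + 40) * 1 ≤ (16 * t + 40) * (1 + n * v) := Nat.mul_le_mul_left _ (by omega)
      omega
    · have h3 : ((8 * t + 8 : ℕ) : ℝ) / N ≤ 1 / n := by
        rw [div_le_div_iff₀ hN0 hn0, hN]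
        push_cast
        nlinarith
      linarith
    · have : 0 ≤ 1 / (n : ℝ) := by positivity
      linarith
    · push_cast
      linarith

/-- the bound `Bb` -/
lemma exists_Bb {t : ℕ} (D : BD t) (Y : ℝ) (hY : 1 ≤ Y) (h0 : log |(D.b0 : ℝ)| ≤ Y)
    (hb : ∀ i, log |(D.b i : ℝ)| ≤ Y) :
    ∃ Bb : ℕ, 1 ≤ Bb ∧ |D.b0| ≤ Bb ∧ (∀ i, |D.b i| ≤ Bb) ∧ log (Bb : ℝ) ≤ Y := by
  have hex : (1 : ℝ) ≤ exp Y := by
    have := add_one_le_exp Y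
    linarith
  have key : ∀ x : ℤ, log |(x : ℝ)| ≤ Y → |x| ≤ (⌊exp Y⌋₊ : ℤ) := by
    intro x hx
    have h1 : |(x : ℝ)| ≤ exp Y := by
      rcases eq_or_ne x 0 with h | h
      · rw [h]
        simp
        exact (exp_pos _).le
      · have h2 : 0 < |(x : ℝ)| := abs_pos.2 (by exact_mod_cast h)
        calc |(x : ℝ)| = exp (log |(x : ℝ)|) := (exp_log h2).symm
          _ ≤ exp Y := exp_le_exp.2 hx
    have h3 : x.natAbs ≤ ⌊exp Y⌋₊ := by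
      apply Nat.le_floor
      have : ((x.natAbs : ℕ) : ℝ) = |(x : ℝ)| := by
        rw [Nat.cast_natAbs, Int.cast_abs]
      rw [this]
      exact h1
    have h4 : |x| = (x.natAbs : ℤ) := Int.abs_eq_natAbs x
    rw [h4]
    exact_mod_cast h3
  refine ⟨⌊exp Y⌋₊, ?_, key _ h0, fun i => key _ (hb i), ?_⟩
  · exact Nat.le_floor (by simpa using hex)
  · have h1 : ((⌊exp Y⌋₊ : ℕ) : ℝ) ≤ exp Y := Nat.floor_le (by linarith)
    have h2 : (0 : ℝ) < (⌊exp Y⌋₊ : ℕ) := by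
      have : 1 ≤ ⌊exp Y⌋₊ := Nat.le_floor (by simpa using hex)
      exact_mod_cast this
    calc log ((⌊exp Y⌋₊ : ℕ) : ℝ) ≤ log (exp Y) := log_le_log h2 h1
      _ = Y := log_exp Y

theorem baker_sharp (t : ℕ) (ht : 1 ≤ t) (n : ℕ) (hn : 1 ≤ n) : ∃ C : ℕ, 1 ≤ C ∧
    ∀ (D : BD t) (i0 : Fin t) (E Y : ℝ), 1 ≤ E → 1 ≤ Y → (∀ i, log (D.a i : ℝ) ≤ E) →
      D.b0 = 1 → (∀ i, log |(D.b i : ℝ)| ≤ Y) → log (1 + log (D.A : ℝ)) ≤ Y → log E ≤ Y →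
      C * Y ^ C * E ^ ((t : ℝ) - 1 + 1 / n) * log (D.A : ℝ) ≤ |(D.b i0 : ℝ)| →
      exp (-(C * Y ^ C * E ^ (2 * (t : ℝ) - 1 + 1 / n) * log (D.A : ℝ))) ≤ |D.lam| := by
  refine ⟨cC t n (t - 1), ?_, ?_⟩
  · have h1 := cM_le_cC t n (t - 1)
    have h2 : 1 ≤ cM t n (t - 1) := Nat.mul_pos (by omega) (by omega)
    omega
  intro D i0 E Y hE hY ha hb0 hb hA hlE hbi
  obtain ⟨E', W, hE', hEE', hW, hQ, hYW, hlE', hEv, hf1, hf2⟩ :=
    setup t n (t - 1) ht hn (by omega) E Y hE hY hlE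
  obtain ⟨Bb, hBb, hB0, hBi, hlB⟩ := exists_Bb D Y hY (by rw [hb0]; simp; linarith) hb
  have hh := half_le_logA D
  have hI : 1 ≤ 2 * t + 4 + (4 * t + 10) * n * (t - 1) := by omega
  have hlQ : log ((W ^ 4 : ℕ) : ℝ) ≤ 4 * W := by
    have hW0 : (0 : ℝ) < W := by exact_mod_cast hW
    push_cast
    rw [log_pow]
    push_cast
    have := Real.log_le_sub_one_of_pos hW0
    linarith
  have hvt : ((t - 1 : ℕ) : ℝ) = (t : ℝ) - 1 := by
    rw [Nat.cast_sub ht, Nat.cast_one]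
  have hEpow : (E' : ℝ) ^ t = E' * (E' : ℝ) ^ (t - 1) := by
    rw [← pow_succ']
    congr 1
    omega
  have hbound := sharp_nat2 ht D E' (W ^ 4) W ((4 * t + 10) * n * (t - 1)) hE' hW hQ hlQ
    (fun i => (ha i).trans hEE') Bb hBb hB0 hBi hlE' (hlB.trans hYW) (hA.trans hYW) E' i0 hE' le_rfl
    (by
      calc E' ^ t = E' * E' ^ (t - 1) := by
            rw [← pow_succ']
            congr 1
            omega
        _ ≤ E' * (W ^ 4) ^ ((4 * t + 10) * n * (t - 1)) := Nat.mul_le_mul_left _ hEv)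
    (by
      rw [hb0]
      have hE0 : (0 : ℝ) < E' := by exact_mod_cast hE'
      have h1 : (qL t E' (W ^ 4) (log (D.A : ℝ)) : ℝ) * E' ≤
          (qL0 t E' (W ^ 4) : ℝ) * log (D.A : ℝ) :=
        (q_L t E' (W ^ 4) W _ ht hE' hI hW hQ _ hh).2.1
      have h2 : (qL0 t E' (W ^ 4) : ℝ) * log (D.A : ℝ) =
          (((W ^ 4 : ℕ) : ℝ) ^ (2 * t + 2) * E' ^ (t - 1) * log (D.A : ℝ)) * E' := by
        unfold qL0
        push_cast
        rw [hEpow]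
        ring
      rw [h2] at h1
      have h3 : (qL t E' (W ^ 4) (log (D.A : ℝ)) : ℝ) ≤
          ((W ^ 4 : ℕ) : ℝ) ^ (2 * t + 2) * E' ^ (t - 1) * log (D.A : ℝ) :=
        le_of_mul_le_mul_right h1 hE0
      have h4 : ((W ^ 4 : ℕ) : ℝ) ^ (2 * t + 2) * E' ^ (t - 1) * log (D.A : ℝ) ≤
          (cC t n (t - 1) * Y ^ cC t n (t - 1) * E ^ ((t : ℝ) - 1 + 1 / n)) * log (D.A : ℝ) :=
        mul_le_mul_of_nonneg_right hf2 (by linarith)
      have h5 := (h3.trans h4).trans hbi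
      have h6 : |(1 : ℤ)| * (qL t E' (W ^ 4) (log (D.A : ℝ)) : ℤ) =
          ((qL t E' (W ^ 4) (log (D.A : ℝ)) : ℕ) : ℤ) := by simp
      rw [h6]
      exact_mod_cast h5)
  refine le_trans (exp_le_exp.2 (neg_le_neg ?_)) hbound
  have h7 : (t : ℝ) + ((t - 1 : ℕ) : ℝ) + 1 / n = 2 * (t : ℝ) - 1 + 1 / n := by
    rw [hvt]
    ring
  rw [h7] at hf1
  calc log (D.A : ℝ) * (E' : ℝ) ^ t * ((W ^ 4 : ℕ) : ℝ) ^ (4 * t + 10 + (4 * t + 10) * n * (t - 1))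
      = ((E' : ℝ) ^ t * ((W ^ 4 : ℕ) : ℝ) ^ (4 * t + 10 + (4 * t + 10) * n * (t - 1))) *
          log (D.A : ℝ) := by ring
    _ ≤ (cC t n (t - 1) * Y ^ cC t n (t - 1) * E ^ (2 * (t : ℝ) - 1 + 1 / n)) * log (D.A : ℝ) :=
        mul_le_mul_of_nonneg_right hf1 (by linarith)

theorem baker_sharp1 (t : ℕ) (ht : 1 ≤ t) (n : ℕ) (hn : 1 ≤ n) : ∃ C : ℕ, 1 ≤ C ∧
    ∀ (D : BD t) (E Y : ℝ), 1 ≤ E → 1 ≤ Y → (∀ i, log (D.a i : ℝ) ≤ E) →
      log |(D.b0 : ℝ)| ≤ Y → (∀ i, log |(D.b i : ℝ)| ≤ Y) → log (1 + log (D.A : ℝ)) ≤ Y → log E ≤ Y →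
      exp (-(C * Y ^ C * E ^ (2 * (t : ℝ) + 1 / n) * log (D.A : ℝ))) ≤ |D.lam| := by
  refine ⟨cC t n t, ?_, ?_⟩
  · have h1 := cM_le_cC t n t
    have h2 : 1 ≤ cM t n t := Nat.mul_pos (by omega) (by omega)
    omega
  intro D E Y hE hY ha hb0 hb hA hlE
  obtain ⟨E', W, hE', hEE', hW, hQ, hYW, hlE', hEv, hf1, -⟩ :=
    setup t n t ht hn le_rfl E Y hE hY hlE
  obtain ⟨Bb, hBb, hB0, hBi, hlB⟩ := exists_Bb D Y hY hb0 hb
  have hh := half_le_logA D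
  have hlQ : log ((W ^ 4 : ℕ) : ℝ) ≤ 4 * W := by
    have hW0 : (0 : ℝ) < W := by exact_mod_cast hW
    push_cast
    rw [log_pow]
    push_cast
    have := Real.log_le_sub_one_of_pos hW0
    linarith
  have hbound := sharp_nat1 ht D E' (W ^ 4) W ((4 * t + 10) * n * t) hE' hW hQ hlQ
    (fun i => (ha i).trans hEE') Bb hBb hB0 hBi hlE' (hlB.trans hYW) (hA.trans hYW) hEv
  refine le_trans (exp_le_exp.2 (neg_le_neg ?_)) hbound
  have h7 : (t : ℝ) + (t : ℝ) + 1 / n = 2 * (t : ℝ) + 1 / n := by ring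
  rw [h7] at hf1
  calc log (D.A : ℝ) * (E' : ℝ) ^ t * ((W ^ 4 : ℕ) : ℝ) ^ (4 * t + 10 + (4 * t + 10) * n * t)
      = ((E' : ℝ) ^ t * ((W ^ 4 : ℕ) : ℝ) ^ (4 * t + 10 + (4 * t + 10) * n * t)) *
          log (D.A : ℝ) := by ring
    _ ≤ (cC t n t * Y ^ cC t n t * E ^ (2 * (t : ℝ) + 1 / n)) * log (D.A : ℝ) :=
        mul_le_mul_of_nonneg_right hf1 (by linarith)

end Pool.Agent.Lib.MP_f02ea4_nt.BK
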