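import Mathlib
import Pool.Agent.Lib.MP_f02ea4_nt.BK.Sharp

/-! Two prime powers `r ^ L = c Z + 1`, `r' ^ L' = c' Z + 1` with the same `Z`: `log Z` is bounded by
`C Y^C E^(3 + 1/n) H`, `E ≥ log r, log r'`, `H ≥ log c, log c'`. -/

set_option autoImplicit false

namespace Pool.Agent.Lib.MP_f02ea4_nt.BK

open Finset Real
open Pool.Agent.Lib.MP_f02ea4_nt.Ml

lemma log_mul_succ (c Z : ℕ) (hc : 1 ≤ c) (hZ : 1 ≤ Z) :
    0 ≤ log ((c * Z + 1 : ℕ) : ℝ) - (log (c : ℝ) + log (Z : ℝ)) ∧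
      log ((c * Z + 1 : ℕ) : ℝ) - (log (c : ℝ) + log (Z : ℝ)) ≤ 1 / Z := by
  have hc' : (1 : ℝ) ≤ c := by exact_mod_cast hc
  have hZ' : (1 : ℝ) ≤ Z := by exact_mod_cast hZ
  have hZ0 : (0 : ℝ) < Z := by linarith
  have h0 : (0 : ℝ) < c * Z := by positivity
  rw [← log_mul (by linarith) (by linarith)]
  push_cast
  constructor
  · have := log_le_log h0 (by linarith : (c : ℝ) * Z ≤ c * Z + 1)
    linarith
  · rw [← log_div (by linarith) h0.ne']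
    have h1 : ((c : ℝ) * Z + 1) / (c * Z) = 1 + 1 / (c * Z) := by
      rw [add_div, div_self h0.ne']
    have h2 : log (((c : ℝ) * Z + 1) / (c * Z)) ≤ ((c : ℝ) * Z + 1) / (c * Z) - 1 :=
      log_le_sub_one_of_pos (by positivity)
    have h3 : 1 / ((c : ℝ) * Z) ≤ 1 / Z := by
      apply one_div_le_one_div_of_le hZ0
      nlinarith
    rw [h1] at h2 ⊢
    linarith

lemma log_le_of_exp_le {X y Z : ℝ} (hZ : 0 < Z) (h : exp (-X) ≤ y) (h2 : y ≤ 1 / Z) :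
    log Z ≤ X := by
  have h3 : exp (-X) ≤ 1 / Z := h.trans h2
  have h4 : log (exp (-X)) ≤ log (1 / Z) := log_le_log (exp_pos _) h3
  rw [log_exp, one_div, log_inv] at h4
  linarith

/-- the form with `t = 2`, `b0 = 1` -/
lemma use2 (n C : ℕ) (hC : ∀ (D : BD 2) (i0 : Fin 2) (E Y : ℝ), 1 ≤ E → 1 ≤ Y →
      (∀ i, log (D.a i : ℝ) ≤ E) →
      D.b0 = 1 → (∀ i, log |(D.b i : ℝ)| ≤ Y) → log (1 + log (D.A : ℝ)) ≤ Y → log E ≤ Y →
      C * Y ^ C * E ^ (((2 : ℕ) : ℝ) - 1 + 1 / n) * log (D.A : ℝ) ≤ |(D.b i0 : ℝ)| →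
      exp (-(C * Y ^ C * E ^ (2 * ((2 : ℕ) : ℝ) - 1 + 1 / n) * log (D.A : ℝ))) ≤ |D.lam|)
    (r r' G G' Z : ℕ) (x x' : ℤ) (E Y H : ℝ) (hr : 2 ≤ r) (hr' : 2 ≤ r') (hG' : 1 ≤ G')
    (hlt : G' < G) (hco : Nat.Coprime G G') (h1 : Nat.Coprime G r) (h2 : Nat.Coprime G r')
    (hZ : 1 ≤ Z) (hE : 1 ≤ E) (hY : 1 ≤ Y) (hrE : log (r : ℝ) ≤ E) (hrE' : log (r' : ℝ) ≤ E)
    (hx : log |(x : ℝ)| ≤ Y) (hx' : log |(x' : ℝ)| ≤ Y) (hGH : log (G : ℝ) ≤ H)
    (hHY : log (1 + H) ≤ Y) (hEY : log E ≤ Y) (hLZ : log (Z : ℝ) ≤ |(x : ℝ)| * E)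
    (hδ : |log (G : ℝ) - log (G' : ℝ) - (x * log (r : ℝ) + x' * log (r' : ℝ))| ≤ 1 / Z) :
    log (Z : ℝ) ≤ C * Y ^ C * E ^ ((3 : ℝ) + 1 / n) * H := by
  let D : BD 2 := ⟨![r, r'], G, G', 1, ![x, x'],
    fun i => by fin_cases i <;> assumption, hG', hlt, hco,
    fun i => by fin_cases i <;> assumption, one_ne_zero⟩
  have hG0 : 0 ≤ log (G : ℝ) := log_natCast_nonneg G
  have hH0 : 0 ≤ H := hG0.trans hGH
  have hE0 : 0 < E := by linarith
  have hn0 : (0 : ℝ) ≤ 1 / n := by positivity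
  have hlam : |D.lam| ≤ 1 / Z := by
    have : D.lam = log (G : ℝ) - log (G' : ℝ) - (x * log (r : ℝ) + x' * log (r' : ℝ)) := by
      simp [BD.lam, D, Fin.sum_univ_two]
    rw [this]; exact hδ
  have hZ0 : (0 : ℝ) < Z := by exact_mod_cast hZ
  have hYC : (0 : ℝ) ≤ C * Y ^ C := by positivity
  by_cases hb : C * Y ^ C * E ^ (((2 : ℕ) : ℝ) - 1 + 1 / n) * log (D.A : ℝ) ≤ |(D.b 0 : ℝ)|
  · have key := hC D 0 E Y hE hY (fun i => by fin_cases i <;> assumption) rfl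
      (fun i => by fin_cases i <;> assumption)
      (by
        refine le_trans (log_le_log ?_ ?_) hHY
        · have : 0 ≤ log (D.A : ℝ) := hG0
          linarith
        · have : log (D.A : ℝ) ≤ H := hGH
          linarith) hEY hb
    have h3 := log_le_of_exp_le hZ0 key hlam
    refine h3.trans ?_
    have e1 : (2 * ((2 : ℕ) : ℝ) - 1 + 1 / n) = (3 : ℝ) + 1 / n := by push_cast; ring
    rw [e1]
    exact mul_le_mul_of_nonneg_left hGH (mul_nonneg hYC (rpow_nonneg hE0.le _))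
  · rw [not_le] at hb
    have hb' : |(x : ℝ)| < C * Y ^ C * E ^ (((2 : ℕ) : ℝ) - 1 + 1 / n) * log (G : ℝ) := hb
    have e1 : (((2 : ℕ) : ℝ) - 1 + 1 / n) = (1 : ℝ) + 1 / n := by push_cast; ring
    rw [e1] at hb'
    calc log (Z : ℝ) ≤ |(x : ℝ)| * E := hLZ
      _ ≤ (C * Y ^ C * E ^ ((1 : ℝ) + 1 / n) * log (G : ℝ)) * E :=
          mul_le_mul_of_nonneg_right hb'.le hE0.le
      _ = C * Y ^ C * (E ^ ((1 : ℝ) + 1 / n) * E ^ (1 : ℝ)) * log (G : ℝ) := by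
          rw [rpow_one]; ring
      _ = C * Y ^ C * E ^ ((2 : ℝ) + 1 / n) * log (G : ℝ) := by
          rw [← rpow_add hE0]; congr 3; ring
      _ ≤ C * Y ^ C * E ^ ((3 : ℝ) + 1 / n) * H := by
          refine mul_le_mul (mul_le_mul_of_nonneg_left
            (rpow_le_rpow_of_exponent_le hE (by linarith)) hYC) hGH hG0
            (mul_nonneg hYC (rpow_nonneg hE0.le _))

/-- the form with `t = 1`, `A = r`, `B = 1`, `a_1 = r'`, `b0 = x` -/
lemma use1 (n C : ℕ) (hC : ∀ (D : BD 1) (E Y : ℝ), 1 ≤ E → 1 ≤ Y → (∀ i, log (D.a i : ℝ) ≤ E) →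
      log |(D.b0 : ℝ)| ≤ Y → (∀ i, log |(D.b i : ℝ)| ≤ Y) → log (1 + log (D.A : ℝ)) ≤ Y →
      log E ≤ Y →
      exp (-(C * Y ^ C * E ^ (2 * ((1 : ℕ) : ℝ) + 1 / n) * log (D.A : ℝ))) ≤ |D.lam|)
    (r r' Z : ℕ) (x x' : ℤ) (E Y H : ℝ) (hr : 2 ≤ r) (hr' : 2 ≤ r') (hco : Nat.Coprime r r')
    (hx0 : x ≠ 0) (hZ : 1 ≤ Z) (hE : 1 ≤ E) (hY : 1 ≤ Y) (hrE : log (r : ℝ) ≤ E)
    (hrE' : log (r' : ℝ) ≤ E) (hx : log |(x : ℝ)| ≤ Y) (hx' : log |(x' : ℝ)| ≤ Y)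
    (hH : 1 ≤ H) (hEY1 : log (1 + E) ≤ Y) (hEY : log E ≤ Y)
    (hδ : |x * log (r : ℝ) - x' * log (r' : ℝ)| ≤ 1 / Z) :
    log (Z : ℝ) ≤ C * Y ^ C * E ^ ((3 : ℝ) + 1 / n) * H := by
  let D : BD 1 := ⟨![r'], r, 1, x, ![x'],
    fun i => by fin_cases i; exact hr', le_refl 1, hr, Nat.coprime_one_right r,
    fun i => by fin_cases i; exact hco, hx0⟩
  have hr0 : 0 ≤ log (r : ℝ) := log_natCast_nonneg r
  have hE0 : 0 < E := by linarith
  have hlam : |D.lam| ≤ 1 / Z := by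
    have : D.lam = x * log (r : ℝ) - x' * log (r' : ℝ) := by
      simp [BD.lam, D]
    rw [this]; exact hδ
  have hZ0 : (0 : ℝ) < Z := by exact_mod_cast hZ
  have hYC : (0 : ℝ) ≤ C * Y ^ C := by positivity
  have key := hC D E Y hE hY (fun i => by fin_cases i; exact hrE') hx
      (fun i => by fin_cases i; exact hx')
      (by
        refine le_trans (log_le_log ?_ ?_) hEY1
        · have : 0 ≤ log (D.A : ℝ) := hr0
          linarith
        · have : log (D.A : ℝ) ≤ E := hrE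
          linarith) hEY
  have h3 := log_le_of_exp_le hZ0 key hlam
  refine h3.trans ?_
  have e1 : (2 * ((1 : ℕ) : ℝ) + 1 / n) = (2 : ℝ) + 1 / n := by push_cast; ring
  rw [e1]
  calc C * Y ^ C * E ^ ((2 : ℝ) + 1 / n) * log (r : ℝ)
      ≤ C * Y ^ C * E ^ ((2 : ℝ) + 1 / n) * E :=
        mul_le_mul_of_nonneg_left hrE (mul_nonneg hYC (rpow_nonneg hE0.le _))
    _ = C * Y ^ C * (E ^ ((2 : ℝ) + 1 / n) * E ^ (1 : ℝ)) := by rw [rpow_one]; ring
    _ = C * Y ^ C * E ^ ((3 : ℝ) + 1 / n) * 1 := by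
        rw [← rpow_add hE0, mul_one]; congr 2; ring
    _ ≤ C * Y ^ C * E ^ ((3 : ℝ) + 1 / n) * H :=
        mul_le_mul_of_nonneg_left hH (mul_nonneg hYC (rpow_nonneg hE0.le _))

/-- size of the coefficients: `log (L + v) ≤ 3 Y` -/
lemma coeff_le (r L v c c' Z : ℕ) (E H Y : ℝ) (hr : 2 ≤ r) (hL : 1 ≤ L) (hZ : 1 ≤ Z)
    (hc : 1 ≤ c) (h : r ^ L = c * Z + 1) (hv : (v : ℝ) * log (r : ℝ) ≤ log (c' : ℝ))
    (hE : 1 ≤ E) (hH : log (c : ℝ) ≤ H) (hH' : log (c' : ℝ) ≤ H) (hY : 1 ≤ Y)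
    (hM : log (log (Z : ℝ) + H + E) ≤ Y) :
    log |(((L + v : ℕ) : ℤ) : ℝ)| ≤ 3 * Y := by
  have h1 := (log_mul_succ c Z hc hZ).2
  rw [← h] at h1
  push_cast at h1
  rw [log_pow] at h1
  have hZ' : (1 : ℝ) ≤ Z := by exact_mod_cast hZ
  have h2 : (1 : ℝ) / Z ≤ 1 := by
    rw [div_le_one (by linarith)]; exact hZ'
  have hr2 : log 2 ≤ log (r : ℝ) := log_le_log (by norm_num) (by exact_mod_cast hr)
  have hl2 := Real.log_two_gt_d9
  have hlZ : 0 ≤ log (Z : ℝ) := log_natCast_nonneg Z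
  have hc0 : 0 ≤ log (c : ℝ) := log_natCast_nonneg c
  have hL1 : (1 : ℝ) ≤ L := by exact_mod_cast hL
  have hv0 : (0 : ℝ) ≤ v := Nat.cast_nonneg v
  have h3 : ((L : ℝ) + v) * log 2 ≤ 2 * (log (Z : ℝ) + H + E) := by
    have e1 : ((L : ℝ) + v) * log 2 ≤ ((L : ℝ) + v) * log r :=
      mul_le_mul_of_nonneg_left hr2 (by linarith)
    have e2 : ((L : ℝ) + v) * log r = L * log r + v * log r := by ring
    linarith
  have hMpos : 0 < log (Z : ℝ) + H + E := by linarith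
  have h4 : (L : ℝ) + v ≤ 3 * (log (Z : ℝ) + H + E) := by
    have e1 : ((L : ℝ) + v) * (2 / 3) ≤ ((L : ℝ) + v) * log 2 :=
      mul_le_mul_of_nonneg_left (by linarith) (by linarith)
    linarith
  have h5 : |(((L + v : ℕ) : ℤ) : ℝ)| = (L : ℝ) + v := by
    push_cast
    exact abs_of_nonneg (by linarith)
  rw [h5]
  have h6 : log ((L : ℝ) + v) ≤ log (3 * (log (Z : ℝ) + H + E)) := log_le_log (by linarith) h4
  rw [log_mul (by norm_num) hMpos.ne'] at h6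
  have h7 : log (3 : ℝ) ≤ 3 - 1 := log_le_sub_one_of_pos (by norm_num)
  linarith

lemma const_le (C C' : ℕ) (Y X : ℝ) (hY : 1 ≤ Y) (hX : 0 ≤ X) (j : ℕ) (hj : j ≤ C + C') :
    (j : ℝ) * (3 * Y) ^ j * X ≤
      (((C + C') * 3 ^ (C + C') : ℕ) : ℝ) * Y ^ ((C + C') * 3 ^ (C + C')) * X := by
  refine mul_le_mul_of_nonneg_right ?_ hX
  have h1 : (j : ℝ) ≤ ((C + C' : ℕ) : ℝ) := by exact_mod_cast hj
  have h3 : (1 : ℕ) ≤ 3 ^ (C + C') := Nat.one_le_pow _ _ (by norm_num)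
  have h4 : j ≤ (C + C') * 3 ^ (C + C') := hj.trans (Nat.le_mul_of_pos_right _ h3)
  have h5 : (3 * Y) ^ j ≤ 3 ^ (C + C') * Y ^ ((C + C') * 3 ^ (C + C')) := by
    rw [mul_pow]
    exact mul_le_mul (pow_le_pow_right₀ (by norm_num) hj) (pow_le_pow_right₀ hY h4)
      (by positivity) (by positivity)
  calc (j : ℝ) * (3 * Y) ^ j
      ≤ ((C + C' : ℕ) : ℝ) * (3 ^ (C + C') * Y ^ ((C + C') * 3 ^ (C + C'))) :=
        mul_le_mul h1 h5 (by positivity) (by positivity)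
    _ = (((C + C') * 3 ^ (C + C') : ℕ) : ℝ) * Y ^ ((C + C') * 3 ^ (C + C')) := by
        push_cast; ring

/-- Two prime powers `c Z + 1`, `c' Z + 1` with the same `Z`. -/
theorem pair_bound (n : ℕ) (hn : 1 ≤ n) : ∃ C : ℕ, 1 ≤ C ∧
    ∀ (r r' L L' c c' Z : ℕ) (E H Y : ℝ), r.Prime → r'.Prime → r ≠ r' → 2 ≤ Z → 1 ≤ c → 1 ≤ c' →
      r ^ L = c * Z + 1 → r' ^ L' = c' * Z + 1 → 1 ≤ E → log (r : ℝ) ≤ E → log (r' : ℝ) ≤ E →
      1 ≤ H → log (c : ℝ) ≤ H → log (c' : ℝ) ≤ H → 1 ≤ Y → log (log (Z : ℝ) + H + E) ≤ Y →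
      log (Z : ℝ) ≤ C * Y ^ C * E ^ ((3 : ℝ) + 1 / n) * H := by
  obtain ⟨C2, hC2, hB2⟩ := baker_sharp 2 (by norm_num) n hn
  obtain ⟨C1, hC1, hB1⟩ := baker_sharp1 1 (by norm_num) n hn
  refine ⟨(C2 + C1) * 3 ^ (C2 + C1), ?_, ?_⟩
  · exact Nat.mul_pos (by omega) (by positivity)
  intro r r' L L' c c' Z E H Y hr hr' hne hZ hc hc' h h' hE hrE hrE' hH hcH hcH' hY hM
  have hE0 : 0 < E := by linarith
  have hX0 : 0 ≤ E ^ ((3 : ℝ) + 1 / n) * H := mul_nonneg (rpow_nonneg hE0.le _) (by linarith)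
  have hlZ : 0 ≤ log (Z : ℝ) := log_natCast_nonneg Z
  have h3Y : 1 ≤ 3 * Y := by linarith
  have hZ1 : 1 ≤ Z := by omega
  -- the exponents are positive
  have hL : 1 ≤ L := by
    rcases Nat.eq_zero_or_pos L with h0 | h0
    · rw [h0, pow_zero] at h
      have : 0 < c * Z := Nat.mul_pos hc (by omega)
      omega
    · exact h0
  have hL' : 1 ≤ L' := by
    rcases Nat.eq_zero_or_pos L' with h0 | h0
    · rw [h0, pow_zero] at h'
      have : 0 < c' * Z := Nat.mul_pos hc' (by omega)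
      omega
    · exact h0
  -- `r ∤ c`, `r' ∤ c'`
  have hrc : ¬ r ∣ c := by
    intro hd
    have h1 : r ∣ c * Z + 1 := h ▸ dvd_pow_self r (by omega)
    exact hr.one_lt.ne' (Nat.dvd_one.1 ((Nat.dvd_add_right (hd.mul_right Z)).1 h1))
  have hrc' : ¬ r' ∣ c' := by
    intro hd
    have h1 : r' ∣ c' * Z + 1 := h' ▸ dvd_pow_self r' (by omega)
    exact hr'.one_lt.ne' (Nat.dvd_one.1 ((Nat.dvd_add_right (hd.mul_right Z)).1 h1))
  obtain ⟨u, γ, hγ, hcu⟩ := Nat.exists_eq_pow_mul_and_not_dvd (by omega : c ≠ 0) r' hr'.ne_one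
  obtain ⟨v, γ', hγ', hcv⟩ := Nat.exists_eq_pow_mul_and_not_dvd (by omega : c' ≠ 0) r hr.ne_one
  have hγ0 : 0 < γ := Nat.pos_of_ne_zero fun h0 => hγ (h0 ▸ dvd_zero _)
  have hγ0' : 0 < γ' := Nat.pos_of_ne_zero fun h0 => hγ' (h0 ▸ dvd_zero _)
  obtain ⟨g, G, G', hg, hGG, hG, hG'⟩ := Nat.exists_coprime' (Nat.gcd_pos_of_pos_left γ' hγ0)
  have hG0 : 0 < G := Nat.pos_of_ne_zero fun h0 => by rw [h0, zero_mul] at hG; omega
  have hG0' : 0 < G' := Nat.pos_of_ne_zero fun h0 => by rw [h0, zero_mul] at hG'; omega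
  have hGc : G ∣ c := by rw [hcu, hG]; exact (Dvd.intro _ rfl : G ∣ G * g).mul_left _
  have hGc' : G' ∣ c' := by rw [hcv, hG']; exact (Dvd.intro _ rfl : G' ∣ G' * g).mul_left _
  have cG1 : Nat.Coprime G r := ((Nat.Prime.coprime_iff_not_dvd hr).2
    fun hd => hrc (hd.trans hGc)).symm
  have cG2 : Nat.Coprime G r' := ((Nat.Prime.coprime_iff_not_dvd hr').2
    fun hd => hγ (hd.trans (by rw [hG]; exact Dvd.intro _ rfl))).symm
  have cG1' : Nat.Coprime G' r := ((Nat.Prime.coprime_iff_not_dvd hr).2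
    fun hd => hγ' (hd.trans (by rw [hG']; exact Dvd.intro _ rfl))).symm
  have cG2' : Nat.Coprime G' r' := ((Nat.Prime.coprime_iff_not_dvd hr').2
    fun hd => hrc' (hd.trans hGc')).symm
  -- logarithms
  have lG : log (G : ℝ) ≤ H := le_trans (log_le_log (by exact_mod_cast hG0)
    (by exact_mod_cast Nat.le_of_dvd (by omega) hGc)) hcH
  have lG' : log (G' : ℝ) ≤ H := le_trans (log_le_log (by exact_mod_cast hG0')
    (by exact_mod_cast Nat.le_of_dvd (by omega) hGc')) hcH'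
  have hr0 : (0 : ℝ) < r := by exact_mod_cast hr.pos
  have hr0' : (0 : ℝ) < r' := by exact_mod_cast hr'.pos
  have hg0 : (0 : ℝ) < g := by exact_mod_cast hg
  have hGr : (0 : ℝ) < G := by exact_mod_cast hG0
  have hGr' : (0 : ℝ) < G' := by exact_mod_cast hG0'
  have lc : log (c : ℝ) = u * log (r' : ℝ) + (log (G : ℝ) + log (g : ℝ)) := by
    rw [hcu, hG]
    push_cast
    rw [log_mul (by positivity) (by positivity), log_pow, log_mul hGr.ne' hg0.ne']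
  have lc' : log (c' : ℝ) = v * log (r : ℝ) + (log (G' : ℝ) + log (g : ℝ)) := by
    rw [hcv, hG']
    push_cast
    rw [log_mul (by positivity) (by positivity), log_pow, log_mul hGr'.ne' hg0.ne']
  have nG : 0 ≤ log (G : ℝ) := log_natCast_nonneg G
  have nG' : 0 ≤ log (G' : ℝ) := log_natCast_nonneg G'
  have ng : 0 ≤ log (g : ℝ) := log_natCast_nonneg g
  have s1 := log_mul_succ c Z hc hZ1
  have s2 := log_mul_succ c' Z hc' hZ1
  rw [← h] at s1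
  rw [← h'] at s2
  push_cast at s1 s2
  rw [log_pow] at s1 s2
  -- the coefficients
  have k1 : log |(((L + v : ℕ) : ℤ) : ℝ)| ≤ 3 * Y :=
    coeff_le r L v c c' Z E H Y hr.two_le hL hZ1 hc h (by linarith) hE hcH hcH' hY hM
  have k2 : log |(((L' + u : ℕ) : ℤ) : ℝ)| ≤ 3 * Y :=
    coeff_le r' L' u c' c Z E H Y hr'.two_le hL' hZ1 hc' h' (by linarith) hE hcH' hcH hY hM
  have m1 : log (1 + H) ≤ 3 * Y := by
    have : log (1 + H) ≤ log (log (Z : ℝ) + H + E) := log_le_log (by linarith) (by linarith)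
    linarith
  have m2 : log (1 + E) ≤ 3 * Y := by
    have : log (1 + E) ≤ log (log (Z : ℝ) + H + E) := log_le_log (by linarith) (by linarith)
    linarith
  have m3 : log E ≤ 3 * Y := by
    have : log E ≤ log (log (Z : ℝ) + H + E) := log_le_log (by linarith) (by linarith)
    linarith
  have kLZ : log (Z : ℝ) ≤ |(((L + v : ℕ) : ℤ) : ℝ)| * E := by
    have e1 : |(((L + v : ℕ) : ℤ) : ℝ)| = (L : ℝ) + v := by
      push_cast
      exact abs_of_nonneg (by positivity)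
    rw [e1]
    have e2 : (L : ℝ) * log r ≤ L * E := mul_le_mul_of_nonneg_left hrE (Nat.cast_nonneg _)
    have e3 : 0 ≤ (v : ℝ) * E := by positivity
    have e4 : 0 ≤ log (c : ℝ) := log_natCast_nonneg c
    nlinarith [s1.1]
  rcases lt_trichotomy G' G with hlt | heq | hlt
  · have key := use2 n C2 hB2 r r' G G' Z ((L + v : ℕ) : ℤ) (-((L' + u : ℕ) : ℤ)) E (3 * Y) H
      hr.two_le hr'.two_le hG0' hlt hGG cG1 cG2 hZ1 hE h3Y hrE hrE' k1
      (by rw [Int.cast_neg, abs_neg]; exact k2) lG m1 m3 kLZ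
      (by
        push_cast
        rw [abs_le]
        constructor <;> nlinarith [s1.1, s1.2, s2.1, s2.2])
    refine key.trans ?_
    have := const_le C2 C1 Y (E ^ ((3 : ℝ) + 1 / n) * H) hY hX0 C2 (by omega)
    calc _ = (C2 : ℝ) * (3 * Y) ^ C2 * (E ^ ((3 : ℝ) + 1 / n) * H) := by ring
      _ ≤ _ := this
      _ = _ := by ring
  · -- `G = G' = 1`
    have key := use1 n C1 hB1 r r' Z ((L + v : ℕ) : ℤ) ((L' + u : ℕ) : ℤ) E (3 * Y) H
      hr.two_le hr'.two_le ((Nat.coprime_primes hr hr').2 hne) (by omega) hZ1 hE h3Y hrE hrE' k1 k2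
      hH m2 m3
      (by
        rw [heq] at lc'
        push_cast
        rw [abs_le]
        constructor <;> nlinarith [s1.1, s1.2, s2.1, s2.2])
    refine key.trans ?_
    have := const_le C2 C1 Y (E ^ ((3 : ℝ) + 1 / n) * H) hY hX0 C1 (by omega)
    calc _ = (C1 : ℝ) * (3 * Y) ^ C1 * (E ^ ((3 : ℝ) + 1 / n) * H) := by ring
      _ ≤ _ := this
      _ = _ := by ring
  · have key := use2 n C2 hB2 r r' G' G Z (-((L + v : ℕ) : ℤ)) ((L' + u : ℕ) : ℤ) E (3 * Y) H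
      hr.two_le hr'.two_le hG0 hlt hGG.symm cG1' cG2' hZ1 hE h3Y hrE hrE'
      (by rw [Int.cast_neg, abs_neg]; exact k1) k2 lG' m1 m3
      (by rw [Int.cast_neg, abs_neg]; exact kLZ)
      (by
        push_cast
        rw [abs_le]
        constructor <;> nlinarith [s1.1, s1.2, s2.1, s2.2])
    refine key.trans ?_
    have := const_le C2 C1 Y (E ^ ((3 : ℝ) + 1 / n) * H) hY hX0 C2 (by omega)
    calc _ = (C2 : ℝ) * (3 * Y) ^ C2 * (E ^ ((3 : ℝ) + 1 / n) * H) := by ring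
      _ ≤ _ := this
      _ = _ := by ring

end Pool.Agent.Lib.MP_f02ea4_nt.BK
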